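import Pool.Agent.H95.LE.PrDef

/-!
PROJECT LE, JOB LE-WtDef. General weights. `wm m x = 1 + sum_i x_i^(2m)` is a weight with constant `4^m`:
`(a+b)^(2m) <= 2^(2m-1) (a^(2m) + b^(2m))` (`add_pow_le_pow_mul_pow_of_add_eq...`/convexity, `inner_le_nnorm`; e.g. Mathlib `add_pow_le_pow_mul_pow`,
or `(a+b)^n <= 2^n max(a,b)^n <= 2^n (a^n + b^n)`), and `1 + 4^m (A + B) <= 4^m (1 + A) (1 + B)`.
-/

namespace H95LE

open H5DF H95LBD MeasureTheory

variable {d : ℕ}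

/-- Submultiplicative weights on `Z^d`. -/
structure Wt (w : V d → ℕ) (c : ℕ) : Prop where
  zero : w 0 = 1
  neg : ∀ x, w (-x) = w x
  step : ∀ s : Dir d, w (step s) ≤ 2
  add : ∀ x y, w (x + y) ≤ c * w x * w y
  pos : ∀ x, 1 ≤ w x

/-- The weighted two-point function. -/
noncomputable def gw (w : V d → ℕ) (p : ℝ) (x : V d) : ENNReal := (w x : ENNReal) * tau d p x

/-- The diagram functions with constant `c`. -/
noncomputable def Hw (p : ℝ) (c : ℕ) (g : V d → ENNReal) : ℕ → V d → ENNReal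
  | 0 => fun y => (c : ENNReal) * ∑' t, g t * (g (y - t) * cv g g (y - t))
  | n + 1 => fun y => (2 * c ^ 4 : ENNReal) * St p (L4 g) (Hw p c g n) y

/-- The square diagram. -/
noncomputable def sq (g : V d → ENNReal) : ENNReal := cv g (cv g (cv g g)) 0

/-- `J * g * g * g`. -/
noncomputable def jg (p : ℝ) (g : V d → ENNReal) : V d → ENNReal := jc p (cv g (cv g g))

/-- The weight `1 + sum_i x_i ^ (2 m)`. -/
def wm (m : ℕ) (x : V d) : ℕ := 1 + ∑ i, (x i).natAbs ^ (2 * m)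

lemma WtDef_pow (m : ℕ) (a b : ℤ) :
    (a + b).natAbs ^ (2 * m) ≤ 4 ^ m * (a.natAbs ^ (2 * m) + b.natAbs ^ (2 * m)) := by
  have h1 : ∀ x y : ℕ, x ≤ y → (x + y) ^ (2 * m) ≤ 4 ^ m * (x ^ (2 * m) + y ^ (2 * m)) := by
    intro x y hxy
    calc (x + y) ^ (2 * m) ≤ (2 * y) ^ (2 * m) := Nat.pow_le_pow_left (by omega) _
      _ = 4 ^ m * y ^ (2 * m) := by
        rw [mul_pow, pow_mul 2 2 m]
        norm_num
      _ ≤ 4 ^ m * (x ^ (2 * m) + y ^ (2 * m)) := Nat.mul_le_mul_left _ (Nat.le_add_left _ _)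
  have h2 : (a + b).natAbs ^ (2 * m) ≤ (a.natAbs + b.natAbs) ^ (2 * m) :=
    Nat.pow_le_pow_left (Int.natAbs_add_le a b) _
  refine h2.trans ?_
  rcases le_total a.natAbs b.natAbs with h | h
  · exact h1 _ _ h
  · rw [add_comm a.natAbs, add_comm (a.natAbs ^ (2 * m))]
    exact h1 _ _ h

lemma wm_wt (m : ℕ) (hm : 1 ≤ m) : Wt (wm (d := d) m) (4 ^ m) := by
  have h1 : 1 ≤ 4 ^ m := Nat.one_le_pow _ _ (by norm_num)
  refine ⟨?_, ?_, ?_, ?_, ?_⟩
  · have h2 : ∑ i, ((0 : V d) i).natAbs ^ (2 * m) = 0 := by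
      refine Finset.sum_eq_zero fun i _ => ?_
      rw [Pi.zero_apply, Int.natAbs_zero, zero_pow (by omega)]
    unfold wm
    rw [h2]
  · intro x
    unfold wm
    simp
  · intro s
    unfold wm step
    rw [Finset.sum_eq_single s.1]
    · rw [Pi.single_eq_same]
      split_ifs <;> simp
    · intro i _ hi
      rw [Pi.single_eq_of_ne hi, Int.natAbs_zero, zero_pow (by omega)]
    · intro h
      exact absurd (Finset.mem_univ _) h
  · intro x y
    have h2 : ∑ i, ((x + y) i).natAbs ^ (2 * m) ≤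
        4 ^ m * (∑ i, (x i).natAbs ^ (2 * m) + ∑ i, (y i).natAbs ^ (2 * m)) := by
      rw [← Finset.sum_add_distrib, Finset.mul_sum]
      exact Finset.sum_le_sum fun i _ => WtDef_pow m (x i) (y i)
    unfold wm
    generalize ∑ i, ((x + y) i).natAbs ^ (2 * m) = S at h2 ⊢
    generalize ∑ i, (x i).natAbs ^ (2 * m) = A at h2 ⊢
    generalize ∑ i, (y i).natAbs ^ (2 * m) = B at h2 ⊢
    generalize 4 ^ m = c at h1 h2 ⊢
    have h3 : 0 ≤ c * A * B := Nat.zero_le _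
    calc 1 + S ≤ c + c * (A + B) := add_le_add h1 h2
      _ ≤ c * (1 + A) * (1 + B) := by nlinarith
  · intro x
    unfold wm
    omega

lemma wt_c {w : V d → ℕ} {c : ℕ} (hw : Wt w c) : 1 ≤ c := by
  have h := hw.add 0 0
  rw [add_zero, hw.zero] at h
  omega

lemma gw_neg {w : V d → ℕ} {c : ℕ} (hw : Wt w c) (p : ℝ) (h0 : 0 ≤ p) (h1 : p ≤ 1) (x : V d) :
    gw w p (-x) = gw w p x := by
  unfold gw
  rw [hw.neg, tau_neg p h0 h1]

lemma gw_zero {w : V d → ℕ} {c : ℕ} (hw : Wt w c) (p : ℝ) (h0 : 0 ≤ p) (h1 : p ≤ 1) :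
    gw w p 0 = 1 := by
  unfold gw
  rw [hw.zero, tau_zero p h0 h1, Nat.cast_one, one_mul]

lemma tau_le_gw {w : V d → ℕ} {c : ℕ} (hw : Wt w c) (p : ℝ) (x : V d) : tau d p x ≤ gw w p x := by
  have h1 : (1 : ENNReal) ≤ (w x : ENNReal) := by exact_mod_cast hw.pos x
  calc tau d p x = 1 * tau d p x := (one_mul _).symm
    _ ≤ gw w p x := mul_le_mul' h1 le_rfl

end H95LE
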