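import Pool.Agent.H95.LBD.Setup

/-!
PROJECT LE (MP_0d9ad5_pr), note 2738. Definitions for the lace expansion of bond percolation.
-/

namespace H95LE

open H5DF H95LBD MeasureTheory

variable {d : ℕ}

/-- The configuration with one edge closed. -/
def del (e : Ed d) (ω : Cfg d) : Cfg d := Function.update ω e false

/-- `w` is connected to `x` off `B`. -/
def Off (B : Set (V d)) (ω : Cfg d) (w x : V d) : Prop := w ∉ B ∧ Cn Bᶜ ω w x

/-- `v` and `x` are connected and every connection meets `A`. -/
def Thr (A : Set (V d)) (ω : Cfg d) (v x : V d) : Prop := x ∈ cluster ω v ∧ ¬ Off A ω v x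

/-- The directed edge `b` is open and pivotal for the connection from `v` to `x`. -/
def Piv (ω : Cfg d) (v x : V d) (b : V d × Dir d) : Prop :=
  ω (edge b.1 b.2) = true ∧ b.1 ∈ cluster (del (edge b.1 b.2) ω) v ∧
    b.1 + step b.2 ∉ cluster (del (edge b.1 b.2) ω) v ∧
    x ∈ cluster (del (edge b.1 b.2) ω) (b.1 + step b.2)

/-- `v` and `x` are connected through `A`, and no pivotal edge comes after `A`. -/
def EE (A : Set (V d)) (ω : Cfg d) (v x : V d) : Prop :=
  Thr A ω v x ∧ ∀ b, Piv ω v x b → ¬ Thr A ω v b.1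

/-- The law of the cluster of `v` without the edge `b` on `EE A v b.1`. -/
noncomputable def PE (p : ℝ) (A : Finset (V d)) (v : V d) (b : V d × Dir d)
    (B : Finset (V d)) : ENNReal :=
  perc d p {ω | cluster (del (edge b.1 b.2) ω) v = (B : Set (V d)) ∧ EE (A : Set (V d)) ω v b.1}

/-- One step of the nested expectations. -/
noncomputable def Op (p : ℝ) (F : Finset (V d) → V d → V d → ENNReal) (A : Finset (V d))
    (v x : V d) : ENNReal :=
  ∑' b : V d × Dir d, ENNReal.ofReal p * ∑' B : Finset (V d), PE p A v b B * F B (b.1 + step b.2) x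

/-- The lace expansion coefficients. -/
noncomputable def Xi (p : ℝ) : ℕ → Finset (V d) → V d → V d → ENNReal
  | 0 => fun A v x => perc d p {ω | EE (A : Set (V d)) ω v x}
  | n + 1 => Op p (Xi p n)

/-- The remainders. -/
noncomputable def Rn (p : ℝ) : ℕ → Finset (V d) → V d → V d → ENNReal
  | 0 => fun A v x => perc d p {ω | Thr (A : Set (V d)) ω v x}
  | n + 1 => Op p (Rn p n)

/-- Convolution. -/
noncomputable def cv (f h : V d → ENNReal) (x : V d) : ENNReal := ∑' y, f y * h (x - y)

/-- Convolution with `J`. -/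
noncomputable def jc (p : ℝ) (f : V d → ENNReal) (x : V d) : ENNReal :=
  ∑ s : Dir d, ENNReal.ofReal p * f (x - step s)

/-- The weight `1 + |x|^2` (Euclidean norm). -/
def w2 (x : V d) : ℕ := 1 + ∑ i, (x i).natAbs ^ 2

/-- The weighted two-point function. -/
noncomputable def gt (d : ℕ) (p : ℝ) (x : V d) : ENNReal := (w2 x : ENNReal) * tau d p x

/-- The square diagram at `0`. -/
noncomputable def g4 (d : ℕ) (p : ℝ) : ENNReal :=
  cv (gt d p) (cv (gt d p) (cv (gt d p) (gt d p))) 0

/-- The function `J * g * g * g`. -/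
noncomputable def jggg (d : ℕ) (p : ℝ) : V d → ENNReal := jc p (cv (gt d p) (cv (gt d p) (gt d p)))

end H95LE
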