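import Pool.Agent.H95.LE.Def
import Pool.Agent.H95.LBD.BkA
import Pool.Agent.H95.LBD.TauK

/-!
PROJECT LE, JOB LE-PrDef. The diagrams with a leg, and simple facts on `cv`, `jc`, `gt`.
PROOFS. All in `ENNReal`: `ENNReal.tsum_comm`, `ENNReal.tsum_mul_left`, reindexing by `Equiv.subLeft`, `Equiv.addRight` etc.; `tau_neg`; `tau_zero`
(LBD/TauK). `w2_add`: `|x+y|^2 <= 2|x|^2+2|y|^2`.
-/

namespace H95LE

open H5DF H95LBD MeasureTheory

variable {d : ℕ}

/-- The four diagrams with a leg from `a` to `y`. -/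
noncomputable def T1 (g : V d → ENNReal) (v z u y : V d) : ENNReal :=
  ∑' t, ∑' a, g (a - v) * (g (t - a) * (g (y - a) * (g (z - t) * (g (u - z) * g (u - t)))))

noncomputable def T2 (g : V d → ENNReal) (v z u y : V d) : ENNReal :=
  ∑' t, ∑' a, g (t - v) * (g (a - t) * (g (z - a) * (g (y - a) * (g (u - z) * g (u - t)))))

noncomputable def T3 (g : V d → ENNReal) (v z u y : V d) : ENNReal :=
  ∑' t, ∑' a, g (t - v) * (g (z - t) * (g (a - z) * (g (u - a) * (g (y - a) * g (u - t)))))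

noncomputable def T4 (g : V d → ENNReal) (v z u y : V d) : ENNReal :=
  ∑' t, ∑' a, g (t - v) * (g (z - t) * (g (u - z) * (g (a - t) * (g (u - a) * g (y - a)))))

noncomputable def L4 (g : V d → ENNReal) (v z u y : V d) : ENNReal :=
  T1 g v z u y + T2 g v z u y + T3 g v z u y + T4 g v z u y

/-- One step of the diagram recursion applied to a diagram `T`. -/
noncomputable def St (p : ℝ) (T : V d → V d → V d → V d → ENNReal) (F : V d → ENNReal)
    (y : V d) : ENNReal :=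
  ∑' b : V d × Dir d, ∑' z', ENNReal.ofReal p * (T 0 y b.1 z' * F (z' - (b.1 + step b.2)))

/-- The diagram functions. -/
noncomputable def Hn (p : ℝ) (g : V d → ENNReal) : ℕ → V d → ENNReal
  | 0 => fun y => 2 * ∑' t, g t * (g (y - t) * cv g g (y - t))
  | n + 1 => fun y => 32 * St p (L4 g) (Hn p g n) y

/-- `F` is dominated by `g * b` with total mass of `b` at most `M`. -/
def Dm (g F : V d → ENNReal) (M : ENNReal) : Prop :=
  ∃ b : V d → ENNReal, (∀ y, F y ≤ ∑' c, g (y - c) * b c) ∧ ∑' c, b c ≤ M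

lemma PrDef_sq (a b : ℤ) : (a + b).natAbs ^ 2 ≤ 2 * a.natAbs ^ 2 + 2 * b.natAbs ^ 2 := by
  zify
  rw [sq_abs, sq_abs, sq_abs]
  nlinarith [sq_nonneg (a - b)]

lemma w2_add (x y : V d) : w2 (x + y) ≤ 2 * w2 x * w2 y := by
  have h1 : ∑ i, ((x + y) i).natAbs ^ 2 ≤
      2 * ∑ i, (x i).natAbs ^ 2 + 2 * ∑ i, (y i).natAbs ^ 2 := by
    rw [Finset.mul_sum, Finset.mul_sum, ← Finset.sum_add_distrib]
    exact Finset.sum_le_sum fun i _ => PrDef_sq (x i) (y i)
  unfold w2
  have h2 : 0 ≤ (∑ i, (x i).natAbs ^ 2) * ∑ i, (y i).natAbs ^ 2 := Nat.zero_le _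
  nlinarith

lemma w2_neg (x : V d) : w2 (-x) = w2 x := by
  simp [w2]

lemma PrDef_one_le (x : V d) : 1 ≤ w2 x := by
  unfold w2
  omega

lemma w2_step (s : Dir d) : w2 (step s) = 2 := by
  unfold w2 step
  rw [Finset.sum_eq_single s.1]
  · rw [Pi.single_eq_same]
    split_ifs <;> rfl
  · intro i _ hi
    rw [Pi.single_eq_of_ne hi]
    rfl
  · intro h
    exact absurd (Finset.mem_univ _) h

lemma gt_neg (p : ℝ) (h0 : 0 ≤ p) (h1 : p ≤ 1) (x : V d) : gt d p (-x) = gt d p x := by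
  unfold gt
  rw [w2_neg, tau_neg p h0 h1]

lemma gt_zero (p : ℝ) (h0 : 0 ≤ p) (h1 : p ≤ 1) : gt d p 0 = 1 := by
  unfold gt
  rw [tau_zero p h0 h1]
  simp [w2]

lemma tau_le_gt (p : ℝ) (x : V d) : tau d p x ≤ gt d p x := by
  unfold gt
  have h : (1 : ENNReal) ≤ (w2 x : ENNReal) := by
    exact_mod_cast PrDef_one_le x
  calc tau d p x = 1 * tau d p x := (one_mul _).symm
    _ ≤ _ := by gcongr

lemma cv_comm (f h : V d → ENNReal) : cv f h = cv h f := by
  funext x
  unfold cv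
  rw [← (Equiv.subLeft x).tsum_eq]
  refine tsum_congr fun y => ?_
  rw [Equiv.subLeft_apply, sub_sub_cancel, mul_comm]

lemma cv_assoc (f h k : V d → ENNReal) : cv (cv f h) k = cv f (cv h k) := by
  funext x
  unfold cv
  have e1 : ∀ y, (∑' z, f z * h (y - z)) * k (x - y) = ∑' z, f z * h (y - z) * k (x - y) :=
    fun y => ENNReal.tsum_mul_right.symm
  have e2 : ∀ z, f z * ∑' y, h y * k (x - z - y) = ∑' y, f z * (h y * k (x - z - y)) :=
    fun z => ENNReal.tsum_mul_left.symm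
  simp_rw [e1, e2]
  rw [ENNReal.tsum_comm]
  refine tsum_congr fun z => ?_
  rw [← (Equiv.subRight z).tsum_eq (fun y => f z * (h y * k (x - z - y)))]
  refine tsum_congr fun y => ?_
  rw [Equiv.subRight_apply, sub_sub_sub_cancel_right, mul_assoc]

lemma cv_even {f h : V d → ENNReal} (hf : ∀ x, f (-x) = f x) (hh : ∀ x, h (-x) = h x) (x : V d) :
    cv f h (-x) = cv f h x := by
  unfold cv
  rw [← (Equiv.neg (V d)).tsum_eq]
  refine tsum_congr fun y => ?_
  rw [Equiv.neg_apply, hf, ← hh (x - y)]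
  congr 2
  abel

lemma cv_mono {f f' h h' : V d → ENNReal} (hf : ∀ x, f x ≤ f' x) (hh : ∀ x, h x ≤ h' x) (x : V d) :
    cv f h x ≤ cv f' h' x :=
  ENNReal.tsum_le_tsum fun y => mul_le_mul' (hf y) (hh (x - y))

lemma le_cv {f h : V d → ENNReal} (hf : 1 ≤ f 0) (x : V d) : h x ≤ cv f h x := by
  calc h x = 1 * h (x - 0) := by rw [one_mul, sub_zero]
    _ ≤ f 0 * h (x - 0) := mul_le_mul' hf le_rfl
    _ ≤ cv f h x := ENNReal.le_tsum (f := fun y => f y * h (x - y)) 0

lemma jc_cv (p : ℝ) (f h : V d → ENNReal) : jc p (cv f h) = cv f (jc p h) := by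
  funext x
  unfold jc cv
  have e2 : ∀ y, f y * ∑ s : Dir d, ENNReal.ofReal p * h (x - y - step s) =
      ∑ s : Dir d, ENNReal.ofReal p * (f y * h (x - step s - y)) := by
    intro y
    rw [Finset.mul_sum]
    refine Finset.sum_congr rfl fun s _ => ?_
    rw [sub_right_comm x y (step s)]
    ring
  simp_rw [e2]
  rw [Summable.tsum_finsetSum (fun s _ => ENNReal.summable)]
  refine Finset.sum_congr rfl fun s _ => ?_
  rw [ENNReal.tsum_mul_left]

lemma jc_mono (p : ℝ) {f h : V d → ENNReal} (hf : ∀ x, f x ≤ h x) (x : V d) : jc p f x ≤ jc p h x :=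
  Finset.sum_le_sum fun s _ => mul_le_mul' le_rfl (hf _)

lemma PrDef_step_neg (s : Dir d) : step ((s.1, !s.2) : Dir d) = -step s := by
  unfold step
  rw [← Pi.single_neg]
  congr 1
  cases s.2 <;> rfl

lemma jc_even (p : ℝ) {f : V d → ENNReal} (hf : ∀ x, f (-x) = f x) (x : V d) :
    jc p f (-x) = jc p f x := by
  unfold jc
  refine Finset.sum_nbij' (fun s => (s.1, !s.2)) (fun s => (s.1, !s.2)) ?_ ?_ ?_ ?_ ?_
  · intro s _
    exact Finset.mem_univ _
  · intro s _
    exact Finset.mem_univ _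
  · rintro ⟨i, b⟩ _
    simp
  · rintro ⟨i, b⟩ _
    simp
  · intro s _
    rw [PrDef_step_neg, ← hf (x - -step s)]
    congr 2
    abel

/-- Two lines with a common end. -/
lemma sum_two {f h : V d → ENNReal} (hh : ∀ x, h (-x) = h x) (x y : V d) :
    ∑' z, f (z - x) * h (z - y) = cv f h (y - x) := by
  unfold cv
  rw [← (Equiv.subRight x).tsum_eq (fun w => f w * h (y - x - w))]
  refine tsum_congr fun z => ?_
  rw [Equiv.subRight_apply, ← hh (z - y)]
  congr 2
  abel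

lemma dm_add {g F F' : V d → ENNReal} {M M' : ENNReal} (h : Dm g F M) (h' : Dm g F' M') :
    Dm g (fun y => F y + F' y) (M + M') := by
  obtain ⟨b, h1, h2⟩ := h
  obtain ⟨b', h1', h2'⟩ := h'
  refine ⟨fun c => b c + b' c, fun y => ?_, ?_⟩
  · simp_rw [mul_add]
    rw [ENNReal.tsum_add]
    exact add_le_add (h1 y) (h1' y)
  · rw [ENNReal.tsum_add]
    exact add_le_add h2 h2'

lemma dm_mul {g F : V d → ENNReal} {M : ENNReal} (c : ENNReal) (h : Dm g F M) :
    Dm g (fun y => c * F y) (c * M) := by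
  obtain ⟨b, h1, h2⟩ := h
  refine ⟨fun u => c * b u, fun y => ?_, ?_⟩
  · calc c * F y ≤ c * ∑' u, g (y - u) * b u := mul_le_mul' le_rfl (h1 y)
      _ = ∑' u, g (y - u) * (c * b u) := by
        rw [← ENNReal.tsum_mul_left]
        refine tsum_congr fun u => ?_
        ring
  · rw [ENNReal.tsum_mul_left]
    exact mul_le_mul' le_rfl h2

lemma dm_mono {g F F' : V d → ENNReal} {M M' : ENNReal} (h : Dm g F M) (hF : ∀ y, F' y ≤ F y)
    (hM : M ≤ M') : Dm g F' M' := by
  obtain ⟨b, h1, h2⟩ := h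
  exact ⟨b, fun y => (hF y).trans (h1 y), h2.trans hM⟩

end H95LE
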