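import Pool.Agent.H95.LE.HN

/-!
PROJECT LE, JOB LE-XiZ. The coefficient of order zero.
PROOF. `EE {0} ω 0 0` always holds: `Thr {0} ω 0 0`, and `Piv ω 0 0 b` is impossible (`0 ∈ cluster of 0` without the edge: `piv_not`). For
`x ≠ 0`: `two_le`, and `tau x <= jc p tau x` (`tau_step`: the first edge of a path from `x` to `0` is open and the rest of the
path does not use it, i.e. BK with one edge). So `w2 x Xi0 x <= gt x (jc p tau) x` and the sum is
`<= cv gt (jc p gt) 0 = jc p (cv gt gt) 0 <= jggg 0 <= be`.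
-/

namespace H95LE

open H5DF H95LBD MeasureTheory

variable {d : ℕ}

theorem xi_zero (p : ℝ) (h0 : 0 ≤ p) (h1 : p ≤ 1) : Xi p 0 {0} 0 (0 : V d) = 1 := by
  have := isProb_perc (d := d) p h0 h1
  have hE : {ω : Cfg d | EE ((({0} : Finset (V d)) : Set (V d))) ω 0 0} = Set.univ := by
    ext ω
    simp only [Set.mem_ofPred_eq, Set.mem_univ, iff_true]
    refine ⟨⟨SimpleGraph.Reachable.refl _, fun h => h.1 (by simp)⟩, fun b hb _ => ?_⟩
    exact piv_not hb (SimpleGraph.Reachable.refl _)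
  change perc d p {ω : Cfg d | EE ((({0} : Finset (V d)) : Set (V d))) ω 0 0} = 1
  rw [hE]
  exact measure_univ

lemma xiZ_inc (e : Ed d) : Inc {ω : Cfg d | ω e = true} := by
  intro ω ω' h h1
  exact h e h1

lemma xiZ_fw (x : V d) (s : Dir d) : Fw {ω : Cfg d | ω (edge x s) = true} := by
  intro ω h
  refine ⟨max (nm x) (nm (x + step s)), ?_⟩
  change cut _ ω (edge x s) = true
  rw [cut_edge]
  exact ⟨h, mem_Bx0.2 (le_max_left _ _), mem_Bx0.2 (le_max_right _ _)⟩

lemma xiZ_dec (x : V d) (hx : x ≠ 0) :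
    SCn {x} Set.univ (0 : V d) ⊆
      ⋃ s : Dir d, disj {ω : Cfg d | ω (edge x s) = true} (SCn {x + step s} Set.univ 0) := by
  classical
  rintro ω ⟨u, hu, h⟩
  rw [Finset.mem_singleton] at hu
  subst hu
  rw [Cn_univ] at h
  obtain ⟨P, hP⟩ := (show (G ω).Reachable u 0 from h).exists_isPath
  cases P with
  | nil => exact absurd rfl hx
  | @cons _ z _ ha P' =>
    rw [SimpleGraph.Walk.cons_isPath_iff] at hP
    obtain ⟨s, rfl, hs⟩ := ha
    rw [Set.mem_iUnion]
    refine ⟨s, fun e => decide (e = edge u s), ?_, u + step s, Finset.mem_singleton_self _, ?_⟩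
    · simp [hs]
    · rw [Cn_univ]
      refine decA_tr P' ?_
      intro e h1 h2
      have h3 : e ≠ edge u s := by
        rintro rfl
        rw [decA_sym, sym_edge] at h2
        exact hP.2 (SimpleGraph.Walk.fst_mem_support_of_mem_edges P' h2)
      simp [h1, h3]

lemma xiZ_opp (s : Dir d) : opp (opp s) = s := by
  obtain ⟨i, b⟩ := s
  simp [opp]

theorem tau_step (p : ℝ) (h0 : 0 ≤ p) (h1 : p ≤ 1) (x : V d) (hx : x ≠ 0) :
    tau d p x ≤ jc p (tau d p) x := by
  have e1 : tau d p x = perc d p (SCn {x} Set.univ (0 : V d)) := by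
    rw [perc_conn p h0 h1, zero_sub, tau_neg p h0 h1]
  have e2 : ∀ s : Dir d, perc d p (disj {ω : Cfg d | ω (edge x s) = true}
      (SCn {x + step s} Set.univ 0)) ≤ ENNReal.ofReal p * tau d p (x - step (opp s)) := by
    intro s
    refine (bk_inf p h0 h1 _ _ (xiZ_inc _) (SCn_inc _ _ _) (xiZ_fw x s) (SCn_fw _ _ _)).trans ?_
    rw [perc_conn p h0 h1, zero_sub, tau_neg p h0 h1, step_opp, sub_neg_eq_add]
    refine mul_le_mul' (le_of_eq ?_) le_rfl
    have h := bern_coord h0 h1 (edge x s) true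
    rw [bern_true] at h
    exact h
  rw [e1]
  refine (measure_mono (xiZ_dec x hx)).trans ((measure_iUnion_fintype_le _ _).trans ?_)
  refine (Finset.sum_le_sum fun s _ => e2 s).trans (le_of_eq ?_)
  unfold jc
  exact Function.Bijective.sum_comp (e := opp)
    (Function.Involutive.bijective xiZ_opp)
    (fun s : Dir d => ENNReal.ofReal p * tau d p (x - step s))

theorem xi_zero_sum (p : ℝ) (h0 : 0 ≤ p) (h1 : p ≤ 1) (be : ENNReal) (hbe : ∀ x, jggg d p x ≤ be) :
    ∑' x : V d, (if x = 0 then 0 else (w2 x : ENNReal) * Xi p 0 {0} 0 x) ≤ be := by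
  have e1 : ∀ x : V d, (if x = 0 then 0 else (w2 x : ENNReal) * Xi p 0 {0} 0 x) ≤
      gt d p x * jc p (gt d p) (0 - x) := by
    intro x
    split_ifs with hx
    · exact zero_le
    · have h2 : Xi p 0 {0} 0 x ≤ tau d p x * tau d p x := by
        have h := two_le p h0 h1 (0 : V d) x
        rw [sub_zero, pow_two] at h
        refine le_trans (le_of_eq ?_) h
        change perc d p {ω : Cfg d | EE ((({0} : Finset (V d)) : Set (V d))) ω 0 x} = _
        rw [Finset.coe_singleton]
      have h3 : tau d p x ≤ jc p (gt d p) (0 - x) := by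
        rw [zero_sub, jc_even p (gt_neg p h0 h1)]
        exact (tau_step p h0 h1 x hx).trans (jc_mono p (tau_le_gt p) x)
      calc (w2 x : ENNReal) * Xi p 0 {0} 0 x ≤ (w2 x : ENNReal) * (tau d p x * tau d p x) :=
            mul_le_mul' le_rfl h2
        _ = gt d p x * tau d p x := by rw [gt, mul_assoc]
        _ ≤ _ := mul_le_mul' le_rfl h3
  refine (ENNReal.tsum_le_tsum e1).trans ?_
  refine le_trans ?_ (hbe 0)
  change cv (gt d p) (jc p (gt d p)) 0 ≤ jc p (cv (gt d p) (cv (gt d p) (gt d p))) 0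
  rw [← jc_cv]
  exact jc_mono p (fun x => le_cv (gt_zero p h0 h1).ge x) 0

end H95LE
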