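import Pool.Agent.H95.LE.PrDef

/-!
PROJECT LE, JOB LE-HT2. Diagram step for the diagram `T2` (section 2).
PROOF. Write `F y <= sum'_c g (y - c) b c` with `sum b <= M`. `St p (T2 g) F y = sum over u, s, z', t, a of p g t g (a-t) g (y-a) g (z'-a) g (u-y) g (u-t) F (z'-u-step s)`. Put
`b' (m) := sum over u, s, z', a, c of p g a g (m-a) g (z'-a) g (u-m) g u g (z'-u-step s-c) b c` (`t = 0`, `m = y - t`). Mass: sum over `m`:
`cv g g (u-a)`; over `z'` and `s`: `jc p (cv g g) (u+c-a) <= be` (as `cv g g <= cv g (cv g g)`, `le_cv`, `jc_mono`);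
left: `sum'_a sum'_u g a cv g g (u-a) g u = cv g (cv g (cv g g)) 0` up to evenness.
-/

namespace H95LE

open H5DF H95LBD MeasureTheory

variable {d : ℕ}

/-- The reflection of the directions. -/
def HT2_oppE : Dir d ≃ Dir d where
  toFun := opp
  invFun := opp
  left_inv := fun s => by
    obtain ⟨i, b⟩ := s
    simp [opp]
  right_inv := fun s => by
    obtain ⟨i, b⟩ := s
    simp [opp]

lemma HT2_jc (p : ℝ) (f : V d → ENNReal) (x : V d) :
    ∑' s : Dir d, ENNReal.ofReal p * f (x + step s) = jc p f x := by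
  rw [tsum_fintype]
  unfold jc
  refine Fintype.sum_equiv HT2_oppE _ _ fun s => ?_
  show ENNReal.ofReal p * f (x + step s) = ENNReal.ofReal p * f (x - step (opp s))
  rw [step_opp, sub_neg_eq_add]

lemma HT2_comm4 {α β γ δ : Type*} (f : α → β → γ → δ → ENNReal) :
    ∑' a, ∑' b, ∑' c, ∑' e, f a b c e = ∑' e, ∑' a, ∑' b, ∑' c, f a b c e := by
  calc ∑' a, ∑' b, ∑' c, ∑' e, f a b c e
      = ∑' a, ∑' b, ∑' e, ∑' c, f a b c e :=
        tsum_congr fun a => tsum_congr fun b => ENNReal.tsum_comm
    _ = ∑' a, ∑' e, ∑' b, ∑' c, f a b c e := tsum_congr fun a => ENNReal.tsum_comm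
    _ = ∑' e, ∑' a, ∑' b, ∑' c, f a b c e := ENNReal.tsum_comm

lemma HT2_shift {β : Type*} (t : V d) (f : V d → β → V d → V d → ENNReal) :
    ∑' u, ∑' s, ∑' z, ∑' a, f u s z a = ∑' u, ∑' s, ∑' z, ∑' a, f (u + t) s (z + t) (a + t) := by
  rw [← (Equiv.addRight t).tsum_eq]
  refine tsum_congr fun u => tsum_congr fun s => ?_
  rw [← (Equiv.addRight t).tsum_eq]
  refine tsum_congr fun z => ?_
  rw [← (Equiv.addRight t).tsum_eq]
  rfl

/-- The leg and the edge. -/
lemma HT2_leg (p : ℝ) (g F b : V d → ENNReal) (M be : ENNReal) (hg : ∀ x, g (-x) = g x)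
    (hg0 : 1 ≤ g 0) (hbe : ∀ x, jc p (cv g (cv g g)) x ≤ be)
    (hF : ∀ y, F y ≤ ∑' c, g (y - c) * b c) (hM : ∑' c, b c ≤ M) (u a : V d) :
    ∑' s : Dir d, ∑' z, ENNReal.ofReal p * (g (z - a) * F (z - (u + step s))) ≤ be * M := by
  have h1 : ∀ s : Dir d, ∑' z, ENNReal.ofReal p * (g (z - a) * F (z - (u + step s))) ≤
      ∑' c, ENNReal.ofReal p * cv g g (u + c - a + step s) * b c := by
    intro s
    calc ∑' z, ENNReal.ofReal p * (g (z - a) * F (z - (u + step s)))
        ≤ ∑' z, ENNReal.ofReal p * (g (z - a) * ∑' c, g (z - (u + step s) - c) * b c) := by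
          refine ENNReal.tsum_le_tsum fun z => ?_
          gcongr
          exact hF _
      _ = ∑' z, ∑' c, ENNReal.ofReal p * (g (z - a) * (g (z - (u + step s) - c) * b c)) := by
          refine tsum_congr fun z => ?_
          rw [← ENNReal.tsum_mul_left, ← ENNReal.tsum_mul_left]
      _ = ∑' c, ∑' z, ENNReal.ofReal p * (g (z - a) * (g (z - (u + step s) - c) * b c)) :=
          ENNReal.tsum_comm
      _ = ∑' c, ENNReal.ofReal p * cv g g (u + c - a + step s) * b c := by
          refine tsum_congr fun c => ?_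
          have h2 := sum_two (f := g) hg a (u + step s + c)
          have h3 : u + step s + c - a = u + c - a + step s := by abel
          rw [h3] at h2
          rw [← h2, ← ENNReal.tsum_mul_left, ← ENNReal.tsum_mul_right]
          refine tsum_congr fun z => ?_
          have h4 : z - (u + step s) - c = z - (u + step s + c) := by abel
          rw [h4]
          ring
  calc ∑' s : Dir d, ∑' z, ENNReal.ofReal p * (g (z - a) * F (z - (u + step s)))
      ≤ ∑' s : Dir d, ∑' c, ENNReal.ofReal p * cv g g (u + c - a + step s) * b c :=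
        ENNReal.tsum_le_tsum h1
    _ = ∑' c, ∑' s : Dir d, ENNReal.ofReal p * cv g g (u + c - a + step s) * b c :=
        ENNReal.tsum_comm
    _ = ∑' c, jc p (cv g g) (u + c - a) * b c := by
        refine tsum_congr fun c => ?_
        rw [ENNReal.tsum_mul_right, HT2_jc]
    _ ≤ ∑' c, be * b c := by
        refine ENNReal.tsum_le_tsum fun c => ?_
        gcongr
        exact (jc_mono p (fun x => le_cv hg0 x) _).trans (hbe _)
    _ = be * ∑' c, b c := ENNReal.tsum_mul_left
    _ ≤ be * M := by gcongr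

/-- The mass of a diagram with a leg from `a`. -/
lemma HT2_mass (p : ℝ) (g F b : V d → ENNReal) (M be : ENNReal) (hg : ∀ x, g (-x) = g x)
    (hg0 : 1 ≤ g 0) (hbe : ∀ x, jc p (cv g (cv g g)) x ≤ be)
    (hF : ∀ y, F y ≤ ∑' c, g (y - c) * b c) (hM : ∑' c, b c ≤ M) (K : V d → V d → ENNReal) :
    ∑' u, ∑' s : Dir d, ∑' z, ∑' a, K u a *
      (ENNReal.ofReal p * (g (z - a) * F (z - (u + step s)))) ≤
      (∑' u, ∑' a, K u a) * (be * M) := by
  rw [← ENNReal.tsum_mul_right]
  refine ENNReal.tsum_le_tsum fun u => ?_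
  rw [← ENNReal.tsum_mul_right]
  calc ∑' s : Dir d, ∑' z, ∑' a, K u a *
        (ENNReal.ofReal p * (g (z - a) * F (z - (u + step s))))
      = ∑' s : Dir d, ∑' a, ∑' z, K u a *
        (ENNReal.ofReal p * (g (z - a) * F (z - (u + step s)))) :=
        tsum_congr fun s => ENNReal.tsum_comm
    _ = ∑' a, ∑' s : Dir d, ∑' z, K u a *
        (ENNReal.ofReal p * (g (z - a) * F (z - (u + step s)))) := ENNReal.tsum_comm
    _ ≤ ∑' a, K u a * (be * M) := by
        refine ENNReal.tsum_le_tsum fun a => ?_
        have h1 : ∑' s : Dir d, ∑' z, K u a *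
            (ENNReal.ofReal p * (g (z - a) * F (z - (u + step s)))) =
            K u a * ∑' s : Dir d, ∑' z,
              ENNReal.ofReal p * (g (z - a) * F (z - (u + step s))) := by
          rw [← ENNReal.tsum_mul_left]
          refine tsum_congr fun s => ?_
          rw [← ENNReal.tsum_mul_left]
        rw [h1]
        gcongr
        exact HT2_leg p g F b M be hg hg0 hbe hF hM u a

lemma HT2_sq (g : V d → ENNReal) (hg : ∀ x, g (-x) = g x) :
    ∑' u, ∑' a, g a * (cv g g (u - a) * g u) = cv g (cv g (cv g g)) 0 := by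
  rw [ENNReal.tsum_comm]
  show ∑' a, ∑' u, g a * (cv g g (u - a) * g u) = ∑' a, g a * cv g (cv g g) (0 - a)
  refine tsum_congr fun a => ?_
  rw [ENNReal.tsum_mul_left]
  show g a * ∑' u, cv g g (u - a) * g u = g a * ∑' u, g u * cv g g (0 - a - u)
  rw [← (Equiv.neg (V d)).tsum_eq (fun u => g u * cv g g (0 - a - u))]
  refine congrArg (fun r => g a * r) (tsum_congr fun u => ?_)
  show cv g g (u - a) * g u = g (-u) * cv g g (0 - a - (-u))
  have h1 : 0 - a - (-u) = u - a := by abel
  rw [h1, hg, mul_comm]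

lemma HT2_two (g : V d → ENNReal) (hg : ∀ x, g (-x) = g x) (a u : V d) :
    ∑' m, g (m - a) * g (u - m) = cv g g (u - a) := by
  rw [← sum_two (f := g) hg a u]
  refine tsum_congr fun m => ?_
  have h1 : u - m = -(m - u) := by abel
  rw [h1, hg]

theorem ht2 (p : ℝ) (g F : V d → ENNReal) (M be : ENNReal) (hg : ∀ x, g (-x) = g x) (hg0 : 1 ≤ g 0)
    (hbe : ∀ x, jc p (cv g (cv g g)) x ≤ be) (hF : Dm g F M) :
    Dm g (St p (T2 g) F) (cv g (cv g (cv g g)) 0 * (be * M)) := by
  obtain ⟨b, hb, hM⟩ := hF
  refine ⟨fun m => ∑' u, ∑' s : Dir d, ∑' z, ∑' a, (g a * (g (m - a) * (g (u - m) * g u))) *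
      (ENNReal.ofReal p * (g (z - a) * F (z - (u + step s)))), ?_, ?_⟩
  · intro y
    refine le_of_eq ?_
    calc St p (T2 g) F y
        = ∑' u, ∑' s : Dir d, ∑' z, ∑' t, ∑' a, ENNReal.ofReal p *
          ((g (t - 0) * (g (a - t) * (g (y - a) * (g (z - a) * (g (u - y) * g (u - t)))))) *
            F (z - (u + step s))) := by
          unfold St T2
          rw [ENNReal.tsum_prod']
          refine tsum_congr fun u => tsum_congr fun s => tsum_congr fun z => ?_
          simp only [← ENNReal.tsum_mul_left, ← ENNReal.tsum_mul_right]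
      _ = ∑' t, ∑' u, ∑' s : Dir d, ∑' z, ∑' a, ENNReal.ofReal p *
          ((g (t - 0) * (g (a - t) * (g (y - a) * (g (z - a) * (g (u - y) * g (u - t)))))) *
            F (z - (u + step s))) := HT2_comm4 _
      _ = ∑' t, g t * ∑' u, ∑' s : Dir d, ∑' z, ∑' a,
          (g a * (g (y - t - a) * (g (u - (y - t)) * g u))) *
          (ENNReal.ofReal p * (g (z - a) * F (z - (u + step s)))) := by
          refine tsum_congr fun t => ?_
          rw [HT2_shift t]
          simp only [← ENNReal.tsum_mul_left]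
          refine tsum_congr fun u => tsum_congr fun s => tsum_congr fun z => tsum_congr fun a => ?_
          have e1 : t - 0 = t := sub_zero t
          have e2 : a + t - t = a := by abel
          have e3 : y - (a + t) = y - t - a := by abel
          have e4 : z + t - (a + t) = z - a := by abel
          have e5 : u + t - y = u - (y - t) := by abel
          have e6 : u + t - t = u := by abel
          have e7 : z + t - (u + t + step s) = z - (u + step s) := by abel
          rw [e1, e2, e3, e4, e5, e6, e7]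
          ring
      _ = ∑' c, g (y - c) * ∑' u, ∑' s : Dir d, ∑' z, ∑' a,
          (g a * (g (c - a) * (g (u - c) * g u))) *
          (ENNReal.ofReal p * (g (z - a) * F (z - (u + step s)))) := by
          rw [← (Equiv.subLeft y).tsum_eq]
          refine tsum_congr fun c => ?_
          show g (y - c) * _ = g (y - c) * _
          have e1 : y - (Equiv.subLeft y) c = c := by
            show y - (y - c) = c
            abel
          simp only [e1]
  · calc ∑' m, ∑' u, ∑' s : Dir d, ∑' z, ∑' a, (g a * (g (m - a) * (g (u - m) * g u))) *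
          (ENNReal.ofReal p * (g (z - a) * F (z - (u + step s))))
        = ∑' u, ∑' m, ∑' s : Dir d, ∑' z, ∑' a, (g a * (g (m - a) * (g (u - m) * g u))) *
          (ENNReal.ofReal p * (g (z - a) * F (z - (u + step s)))) := ENNReal.tsum_comm
      _ = ∑' u, ∑' s : Dir d, ∑' z, ∑' a, ∑' m, (g a * (g (m - a) * (g (u - m) * g u))) *
          (ENNReal.ofReal p * (g (z - a) * F (z - (u + step s)))) :=
          tsum_congr fun u => (HT2_comm4 _).symm
      _ = ∑' u, ∑' s : Dir d, ∑' z, ∑' a, (g a * (cv g g (u - a) * g u)) *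
          (ENNReal.ofReal p * (g (z - a) * F (z - (u + step s)))) := by
          refine tsum_congr fun u => tsum_congr fun s => tsum_congr fun z => tsum_congr fun a => ?_
          rw [ENNReal.tsum_mul_right, ENNReal.tsum_mul_left, ← HT2_two g hg a u,
            ← ENNReal.tsum_mul_right]
          congr 3
          funext m
          ring
      _ ≤ (∑' u, ∑' a, g a * (cv g g (u - a) * g u)) * (be * M) :=
          HT2_mass p g F b M be hg hg0 hbe hb hM _
      _ = cv g (cv g (cv g g)) 0 * (be * M) := by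
          rw [HT2_sq g hg]

end H95LE
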