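import Pool.Agent.H95.LE.PrDef

/-!
PROJECT LE, JOB LE-HT4. Diagram step for the diagram `T4` (section 2).
PROOF. Write `F y <= sum'_c g (y - c) b c` with `sum b <= M`. `St p (T4 g) F y = sum over u, s, z', t, a of p g t g (y-t) g (u-y) g (a-t) g (u-a) g (z'-a) F (z'-u-step s)`. Put
`b' (m) := sum over u, s, z', a, c of p g m g (u-m) g a g (u-a) g (z'-a) g (z'-u-step s-c) b c` (`t = 0`, `m = y - t`). Mass: sum over `m`:
`cv g g u`; over `z'` and `s`: `jc p (cv g g) (u+c-a) <= be` (as `cv g g <= cv g (cv g g)`, `le_cv`, `jc_mono`);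
left: `sum'_a sum'_u cv g g u g a g (u-a) = cv g (cv g (cv g g)) 0` up to evenness.
-/

namespace H95LE

open H5DF H95LBD MeasureTheory

variable {d : ℕ}

lemma HT4_tr (t : V d) (f : V d → ENNReal) : ∑' x, f x = ∑' x, f (x + t) :=
  ((Equiv.addRight t).tsum_eq f).symm

lemma HT4_sub (y : V d) (f : V d → ENNReal) : ∑' x, f x = ∑' x, f (y - x) :=
  ((Equiv.subLeft y).tsum_eq f).symm

/-- The inner sum over the step and the end of the leg. -/
lemma HT4_K (p : ℝ) (g F b : V d → ENNReal) (M be : ENNReal) (hg : ∀ x, g (-x) = g x)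
    (hg0 : 1 ≤ g 0) (hbe : ∀ x, jc p (cv g (cv g g)) x ≤ be)
    (hb : ∀ y, F y ≤ ∑' c, g (y - c) * b c) (hM : ∑' c, b c ≤ M) (u a : V d) :
    ∑' s : Dir d, ∑' z', ENNReal.ofReal p * (g (z' - a) * F (z' - (u + step s))) ≤ be * M := by
  have h1 : ∀ s : Dir d, ∑' z', ENNReal.ofReal p * (g (z' - a) * F (z' - (u + step s))) ≤
      ∑' c, b c * (ENNReal.ofReal p * cv g g (a - u - c - step s)) := by
    intro s
    calc ∑' z', ENNReal.ofReal p * (g (z' - a) * F (z' - (u + step s)))
        ≤ ∑' z', ENNReal.ofReal p * (g (z' - a) * ∑' c, g (z' - (u + step s) - c) * b c) := by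
          refine ENNReal.tsum_le_tsum fun z' => ?_
          gcongr
          exact hb _
      _ = ∑' z', ∑' c, b c * (ENNReal.ofReal p * (g (z' - a) * g (z' - (u + step s + c)))) := by
          refine tsum_congr fun z' => ?_
          rw [← ENNReal.tsum_mul_left, ← ENNReal.tsum_mul_left]
          refine tsum_congr fun c => ?_
          rw [show z' - (u + step s) - c = z' - (u + step s + c) by abel]
          ring
      _ = ∑' c, ∑' z', b c * (ENNReal.ofReal p * (g (z' - a) * g (z' - (u + step s + c)))) :=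
          ENNReal.tsum_comm
      _ = ∑' c, b c * (ENNReal.ofReal p * cv g g (a - u - c - step s)) := by
          refine tsum_congr fun c => ?_
          rw [ENNReal.tsum_mul_left, ENNReal.tsum_mul_left, sum_two hg a (u + step s + c),
            ← cv_even hg hg]
          congr 3
          abel
  calc ∑' s : Dir d, ∑' z', ENNReal.ofReal p * (g (z' - a) * F (z' - (u + step s)))
      ≤ ∑' s : Dir d, ∑' c, b c * (ENNReal.ofReal p * cv g g (a - u - c - step s)) :=
        ENNReal.tsum_le_tsum h1
    _ = ∑' c, ∑' s : Dir d, b c * (ENNReal.ofReal p * cv g g (a - u - c - step s)) :=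
        ENNReal.tsum_comm
    _ ≤ ∑' c, b c * be := by
        refine ENNReal.tsum_le_tsum fun c => ?_
        rw [ENNReal.tsum_mul_left]
        gcongr
        rw [tsum_fintype]
        calc ∑ s : Dir d, ENNReal.ofReal p * cv g g (a - u - c - step s)
            = jc p (cv g g) (a - u - c) := rfl
          _ ≤ jc p (cv g (cv g g)) (a - u - c) := jc_mono p (fun x => le_cv hg0 x) _
          _ ≤ be := hbe _
    _ = be * ∑' c, b c := by rw [ENNReal.tsum_mul_right, mul_comm]
    _ ≤ be * M := by gcongr

lemma HT4_c3 {α β γ : Type*} (f : α → β → γ → ENNReal) :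
    ∑' a, ∑' s, ∑' z, f a s z = ∑' s, ∑' z, ∑' a, f a s z := by
  rw [ENNReal.tsum_comm]
  exact tsum_congr fun s => ENNReal.tsum_comm

lemma HT4_c4 {α β γ δ : Type*} (f : α → β → γ → δ → ENNReal) :
    ∑' a, ∑' s, ∑' z, ∑' w, f a s z w = ∑' s, ∑' z, ∑' w, ∑' a, f a s z w := by
  rw [ENNReal.tsum_comm]
  exact tsum_congr fun s => HT4_c3 _

/-- The function `b'`. -/
noncomputable def HT4_B (p : ℝ) (g F : V d → ENNReal) (m : V d) : ENNReal :=
  ∑' u, ∑' s : Dir d, ∑' z', ∑' a, ENNReal.ofReal p * (g m * (g (u - m) *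
    (g a * (g (u - a) * (g (z' - a) * F (z' - (u + step s)))))))

lemma HT4_tr1 (p : ℝ) (g F : V d → ENNReal) (y t : V d) :
    ∑' u, ∑' s : Dir d, ∑' z', ∑' a, ENNReal.ofReal p *
        (g t * (g (y - t) * (g (u - y) * (g (a - t) * (g (u - a) * (g (z' - a) *
          F (z' - (u + step s)))))))) = g t * HT4_B p g F (y - t) := by
  unfold HT4_B
  rw [← ENNReal.tsum_mul_left, HT4_tr t]
  refine tsum_congr fun u => ?_
  rw [← ENNReal.tsum_mul_left]
  refine tsum_congr fun s => ?_
  rw [← ENNReal.tsum_mul_left, HT4_tr t]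
  refine tsum_congr fun z' => ?_
  rw [← ENNReal.tsum_mul_left, HT4_tr t]
  refine tsum_congr fun a => ?_
  rw [show u + t - y = u - (y - t) by abel, show a + t - t = a by abel,
    show u + t - (a + t) = u - a by abel, show z' + t - (a + t) = z' - a by abel,
    show z' + t - (u + t + step s) = z' - (u + step s) by abel]
  ring

theorem ht4 (p : ℝ) (g F : V d → ENNReal) (M be : ENNReal) (hg : ∀ x, g (-x) = g x) (hg0 : 1 ≤ g 0)
    (hbe : ∀ x, jc p (cv g (cv g g)) x ≤ be) (hF : Dm g F M) :
    Dm g (St p (T4 g) F) (cv g (cv g (cv g g)) 0 * (be * M)) := by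
  obtain ⟨b, hb, hM⟩ := hF
  refine ⟨HT4_B p g F, fun y => ?_, ?_⟩
  · -- the decomposition
    have h1 : St p (T4 g) F y = ∑' t, ∑' u, ∑' s : Dir d, ∑' z', ∑' a, ENNReal.ofReal p *
        (g t * (g (y - t) * (g (u - y) * (g (a - t) * (g (u - a) * (g (z' - a) *
          F (z' - (u + step s)))))))) := by
      unfold St T4
      rw [ENNReal.tsum_prod (f := fun u s => ∑' z', ENNReal.ofReal p *
        ((∑' t, ∑' a, g (t - 0) * (g (y - t) * (g (u - y) * (g (a - t) * (g (u - a) *
          g (z' - a)))))) * F (z' - (u + step s)))), HT4_c4]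
      refine tsum_congr fun u => tsum_congr fun s => tsum_congr fun z' => ?_
      rw [← ENNReal.tsum_mul_right, ← ENNReal.tsum_mul_left]
      refine tsum_congr fun t => ?_
      rw [← ENNReal.tsum_mul_right, ← ENNReal.tsum_mul_left]
      refine tsum_congr fun a => ?_
      rw [sub_zero]
      ring
    rw [h1, HT4_sub y (fun c => g (y - c) * HT4_B p g F c)]
    refine (tsum_congr fun t => ?_).le
    rw [HT4_tr1, sub_sub_cancel]
  · -- the mass
    have hK := HT4_K p g F b M be hg hg0 hbe hb hM
    calc ∑' m, HT4_B p g F m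
        = ∑' u, ∑' a, cv g g u * (g a * g (u - a)) *
            ∑' s : Dir d, ∑' z', ENNReal.ofReal p * (g (z' - a) * F (z' - (u + step s))) := by
          unfold HT4_B
          rw [ENNReal.tsum_comm]
          refine tsum_congr fun u => ?_
          have e1 : ∀ a, cv g g u * (g a * g (u - a)) *
              ∑' s : Dir d, ∑' z', ENNReal.ofReal p * (g (z' - a) * F (z' - (u + step s))) =
              ∑' m, ∑' s : Dir d, ∑' z', ENNReal.ofReal p * (g m * (g (u - m) *
                (g a * (g (u - a) * (g (z' - a) * F (z' - (u + step s))))))) := by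
            intro a
            unfold cv
            rw [mul_assoc, ← ENNReal.tsum_mul_right]
            refine tsum_congr fun m => ?_
            rw [← mul_assoc, ← ENNReal.tsum_mul_left]
            refine tsum_congr fun s => ?_
            rw [← ENNReal.tsum_mul_left]
            refine tsum_congr fun z' => ?_
            ring
          rw [tsum_congr e1]
          exact (tsum_congr fun m => (HT4_c3 _).symm).trans ENNReal.tsum_comm
      _ ≤ ∑' u, ∑' a, cv g g u * (g a * g (u - a)) * (be * M) := by
          refine ENNReal.tsum_le_tsum fun u => ENNReal.tsum_le_tsum fun a => ?_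
          gcongr
          exact hK u a
      _ = cv g (cv g (cv g g)) 0 * (be * M) := by
          simp_rw [ENNReal.tsum_mul_right, ENNReal.tsum_mul_left]
          congr 1
          rw [← cv_assoc]
          change _ = ∑' u, cv g g u * cv g g (0 - u)
          refine tsum_congr fun u => ?_
          rw [zero_sub, cv_even hg hg]
          rfl

end H95LE
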