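import Pool.Agent.H95.LE.PrDef
import Pool.Agent.H95.LE.HT4

/-!
PROJECT LE, JOB LE-HT3. Diagram step for the diagram `T3` (section 2).
PROOF. Write `F y <= sum'_c g (y - c) b c` with `sum b <= M`. `St p (T3 g) F y = sum over u, s, z', t, a of p g t g (y-t) g (a-y) g (u-a) g (z'-a) g (u-t) F (z'-u-step s)`. Put
`b' (m) := sum over u, s, z', a, c of p g m g (a-m) g (u-a) g (z'-a) g u g (z'-u-step s-c) b c` (`t = 0`, `m = y - t`). Mass: sum over `m`:
`cv g g a`; over `z'` and `s`: `jc p (cv g g) (u+c-a) <= be` (as `cv g g <= cv g (cv g g)`, `le_cv`, `jc_mono`);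
left: `sum'_a sum'_u cv g g a g (u-a) g u = cv g (cv g (cv g g)) 0` up to evenness.
-/

namespace H95LE

open H5DF H95LBD MeasureTheory

variable {d : ℕ}

/-- The function `b'`. -/
noncomputable def HT3_B (p : ℝ) (g F : V d → ENNReal) (m : V d) : ENNReal :=
  ∑' u, ∑' s : Dir d, ∑' z', ∑' a, ENNReal.ofReal p * (g m * (g (a - m) *
    (g (u - a) * (g u * (g (z' - a) * F (z' - (u + step s)))))))

lemma HT3_tr1 (p : ℝ) (g F : V d → ENNReal) (y t : V d) :
    ∑' u, ∑' s : Dir d, ∑' z', ∑' a, ENNReal.ofReal p *
        (g t * (g (y - t) * (g (a - y) * (g (u - a) * (g (z' - a) * (g (u - t) *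
          F (z' - (u + step s)))))))) = g t * HT3_B p g F (y - t) := by
  unfold HT3_B
  rw [← ENNReal.tsum_mul_left, HT4_tr t]
  refine tsum_congr fun u => ?_
  rw [← ENNReal.tsum_mul_left]
  refine tsum_congr fun s => ?_
  rw [← ENNReal.tsum_mul_left, HT4_tr t]
  refine tsum_congr fun z' => ?_
  rw [← ENNReal.tsum_mul_left, HT4_tr t]
  refine tsum_congr fun a => ?_
  rw [show a + t - y = a - (y - t) by abel, show u + t - t = u by abel,
    show u + t - (a + t) = u - a by abel, show z' + t - (a + t) = z' - a by abel,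
    show z' + t - (u + t + step s) = z' - (u + step s) by abel]
  ring

theorem ht3 (p : ℝ) (g F : V d → ENNReal) (M be : ENNReal) (hg : ∀ x, g (-x) = g x) (hg0 : 1 ≤ g 0)
    (hbe : ∀ x, jc p (cv g (cv g g)) x ≤ be) (hF : Dm g F M) :
    Dm g (St p (T3 g) F) (cv g (cv g (cv g g)) 0 * (be * M)) := by
  obtain ⟨b, hb, hM⟩ := hF
  refine ⟨HT3_B p g F, fun y => ?_, ?_⟩
  · -- the decomposition
    have h1 : St p (T3 g) F y = ∑' t, ∑' u, ∑' s : Dir d, ∑' z', ∑' a, ENNReal.ofReal p *
        (g t * (g (y - t) * (g (a - y) * (g (u - a) * (g (z' - a) * (g (u - t) *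
          F (z' - (u + step s)))))))) := by
      unfold St T3
      rw [ENNReal.tsum_prod (f := fun u s => ∑' z', ENNReal.ofReal p *
        ((∑' t, ∑' a, g (t - 0) * (g (y - t) * (g (a - y) * (g (u - a) * (g (z' - a) *
          g (u - t)))))) * F (z' - (u + step s)))), HT4_c4]
      refine tsum_congr fun u => tsum_congr fun s => tsum_congr fun z' => ?_
      rw [← ENNReal.tsum_mul_right, ← ENNReal.tsum_mul_left]
      refine tsum_congr fun t => ?_
      rw [← ENNReal.tsum_mul_right, ← ENNReal.tsum_mul_left]
      refine tsum_congr fun a => ?_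
      rw [sub_zero]
      ring
    rw [h1, HT4_sub y (fun c => g (y - c) * HT3_B p g F c)]
    refine (tsum_congr fun t => ?_).le
    rw [HT3_tr1, sub_sub_cancel]
  · -- the mass
    have hK := HT4_K p g F b M be hg hg0 hbe hb hM
    calc ∑' m, HT3_B p g F m
        = ∑' u, ∑' a, cv g g a * (g u * g (u - a)) *
            ∑' s : Dir d, ∑' z', ENNReal.ofReal p * (g (z' - a) * F (z' - (u + step s))) := by
          unfold HT3_B
          rw [ENNReal.tsum_comm]
          refine tsum_congr fun u => ?_
          have e1 : ∀ a, cv g g a * (g u * g (u - a)) *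
              ∑' s : Dir d, ∑' z', ENNReal.ofReal p * (g (z' - a) * F (z' - (u + step s))) =
              ∑' m, ∑' s : Dir d, ∑' z', ENNReal.ofReal p * (g m * (g (a - m) *
                (g (u - a) * (g u * (g (z' - a) * F (z' - (u + step s))))))) := by
            intro a
            unfold cv
            rw [mul_assoc, ← ENNReal.tsum_mul_right]
            refine tsum_congr fun m => ?_
            rw [← mul_assoc, ← ENNReal.tsum_mul_left]
            refine tsum_congr fun s => ?_
            rw [← ENNReal.tsum_mul_left]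
            refine tsum_congr fun z' => ?_
            ring
          rw [tsum_congr e1]
          exact (tsum_congr fun m => (HT4_c3 _).symm).trans ENNReal.tsum_comm
      _ ≤ ∑' u, ∑' a, cv g g a * (g u * g (u - a)) * (be * M) := by
          refine ENNReal.tsum_le_tsum fun u => ENNReal.tsum_le_tsum fun a => ?_
          gcongr
          exact hK u a
      _ = cv g (cv g (cv g g)) 0 * (be * M) := by
          simp_rw [ENNReal.tsum_mul_right]
          congr 1
          rw [← cv_assoc, ENNReal.tsum_comm]
          change _ = ∑' a, cv g g a * cv g g (0 - a)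
          refine tsum_congr fun a => ?_
          rw [ENNReal.tsum_mul_left, zero_sub, cv_even hg hg]
          congr 1
          have h2 := sum_two (f := g) hg 0 a
          simp only [sub_zero] at h2
          exact h2

end H95LE
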