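import Pool.Agent.H95.LE.PrA
import Pool.Agent.H95.LE.WtDef

/-!
PROJECT LE, JOB LE-WRecW. Weighted sums of `Xi p n A v x` over `x` (section 2), general weight `w` with constant `c`
(replaces the file WRec).
PROOF. `g := gw w p`. `n = 0`: `xi0_le`, `w (x - v) <= c w (t - v) w (x - t)`, so the summand is
`<= c g (t-v) g (z-t) g (x-z) g (x-t)`; sum over `x`: `sum_two`; then `t - v` as new variable and `Hw p c g 0 (z - v)`.
`n + 1`: `sum'_x w (x-v) Xi (n+1) A v x = sum'_b p sum'_B PE p A v b B sum'_x w (x-v) Xi n B w' x`, `w' = b.1 + step b.2`;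
`w (x-v) <= c w (w'-v) w (x-w')`, induction: `<= c w (w'-v) sum_{z' in B} Hw n (z'-w')`; `sum'_B PE p A v b B sum_{z' in B} f z'
<= sum'_z' f z' perc {EE A v b.1 ∧ z' ∈ cluster ω v}` (disjoint events in `B`, `cluster_del_sub`); `leg_le`; `w (w'-v) <= 2 c w (b.1 - v)` and
`w (u - v) L4 (tau) v z u z' <= c^2 L4 g v z u z'` (`w (u-v) <= c^2 w w w` along `v,a,t,u` in `T1`, along `v,t,a,u` in `T4`, and `<= c w w`
along `v,t,u` in `T2`, `T3`; the other lines `tau <= g`). Translation invariance: `L4 g v z u z' = L4 g 0 (z-v) (u-v) (z'-v)` and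
reindex `b`, `z'` by `v`. Total constant `c * 2 c * c^2 = 2 c^4`.
-/

namespace H95LE

open H5DF H95LBD MeasureTheory

variable {d : ℕ}

/-- Translation of a double sum. -/
lemma wRecW_shift2 (v : V d) (F : V d → V d → ENNReal) :
    ∑' t, ∑' a, F t a = ∑' t, ∑' a, F (t + v) (a + v) := by
  rw [← (Equiv.addRight v).tsum_eq]
  refine tsum_congr fun t => ?_
  rw [← (Equiv.addRight v).tsum_eq]
  rfl

theorem l4_shiftW (g : V d → ENNReal) (v z u y : V d) :
    L4 g v z u y = L4 g 0 (z - v) (u - v) (y - v) := by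
  have e1 : ∀ a : V d, a + v - v = a - 0 := fun a => by abel
  have e2 : ∀ a b : V d, a + v - (b + v) = a - b := fun a b => by abel
  have e3 : ∀ a b : V d, b - (a + v) = b - v - a := fun a b => by abel
  have e4 : ∀ a b : V d, a + v - b = a - (b - v) := fun a b => by abel
  have e5 : u - z = u - v - (z - v) := by abel
  have h1 : T1 g v z u y = T1 g 0 (z - v) (u - v) (y - v) := by
    unfold T1
    rw [wRecW_shift2 v]
    refine tsum_congr fun t => tsum_congr fun a => ?_
    rw [e1, e2, e3, e3, e3, e5]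
  have h2 : T2 g v z u y = T2 g 0 (z - v) (u - v) (y - v) := by
    unfold T2
    rw [wRecW_shift2 v]
    refine tsum_congr fun t => tsum_congr fun a => ?_
    rw [e1, e2, e3, e3, e3, e5]
  have h3 : T3 g v z u y = T3 g 0 (z - v) (u - v) (y - v) := by
    unfold T3
    rw [wRecW_shift2 v]
    refine tsum_congr fun t => tsum_congr fun a => ?_
    rw [e1, e3, e4, e3, e3, e3]
  have h4 : T4 g v z u y = T4 g 0 (z - v) (u - v) (y - v) := by
    unfold T4
    rw [wRecW_shift2 v]
    refine tsum_congr fun t => tsum_congr fun a => ?_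
    rw [e1, e3, e5, e2, e3, e3]
  unfold L4
  rw [h1, h2, h3, h4]

lemma wRecW_two {w : V d → ℕ} {c : ℕ} (hw : Wt w c) (v t u : V d) :
    (w (u - v) : ENNReal) ≤ (c : ENNReal) * w (t - v) * w (u - t) := by
  have h := hw.add (t - v) (u - t)
  have e : t - v + (u - t) = u - v := by abel
  rw [e] at h
  exact_mod_cast h

lemma wRecW_three {w : V d → ℕ} {c : ℕ} (hw : Wt w c) (v a t u : V d) :
    (w (u - v) : ENNReal) ≤ (c : ENNReal) ^ 2 * w (a - v) * w (t - a) * w (u - t) := by
  have h1 := wRecW_two hw v t u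
  have h2 := wRecW_two hw v a t
  calc (w (u - v) : ENNReal) ≤ (c : ENNReal) * w (t - v) * w (u - t) := h1
    _ ≤ (c : ENNReal) * ((c : ENNReal) * w (a - v) * w (t - a)) * w (u - t) := by gcongr
    _ = (c : ENNReal) ^ 2 * w (a - v) * w (t - a) * w (u - t) := by ring

lemma wRecW_two' {w : V d → ℕ} {c : ℕ} (hw : Wt w c) (v t u : V d) :
    (w (u - v) : ENNReal) ≤ (c : ENNReal) ^ 2 * w (t - v) * w (u - t) := by
  have h1 := wRecW_two hw v t u
  have hc : (1 : ENNReal) ≤ (c : ENNReal) := by exact_mod_cast wt_c hw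
  calc (w (u - v) : ENNReal) ≤ 1 * (c : ENNReal) * w (t - v) * w (u - t) := by rw [one_mul]; exact h1
    _ ≤ (c : ENNReal) * (c : ENNReal) * w (t - v) * w (u - t) := by gcongr
    _ = (c : ENNReal) ^ 2 * w (t - v) * w (u - t) := by ring

theorem l4_ww {w : V d → ℕ} {c : ℕ} (hw : Wt w c) (p : ℝ) (v z u y : V d) :
    (w (u - v) : ENNReal) * L4 (tau d p) v z u y ≤ (c : ENNReal) ^ 2 * L4 (gw w p) v z u y := by
  have hg : ∀ x : V d, tau d p x ≤ gw w p x := tau_le_gw hw p
  have hd : ∀ x : V d, gw w p x = (w x : ENNReal) * tau d p x := fun x => rfl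
  have h1 : (w (u - v) : ENNReal) * T1 (tau d p) v z u y ≤
      (c : ENNReal) ^ 2 * T1 (gw w p) v z u y := by
    unfold T1
    rw [← ENNReal.tsum_mul_left, ← ENNReal.tsum_mul_left]
    refine ENNReal.tsum_le_tsum fun t => ?_
    rw [← ENNReal.tsum_mul_left, ← ENNReal.tsum_mul_left]
    refine ENNReal.tsum_le_tsum fun a => ?_
    calc (w (u - v) : ENNReal) * (tau d p (a - v) * (tau d p (t - a) * (tau d p (y - a) *
          (tau d p (z - t) * (tau d p (u - z) * tau d p (u - t))))))
        ≤ ((c : ENNReal) ^ 2 * w (a - v) * w (t - a) * w (u - t)) * (tau d p (a - v) *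
          (tau d p (t - a) * (tau d p (y - a) *
          (tau d p (z - t) * (tau d p (u - z) * tau d p (u - t)))))) :=
          mul_le_mul' (wRecW_three hw v a t u) le_rfl
      _ = (c : ENNReal) ^ 2 * (gw w p (a - v) * (gw w p (t - a) * (tau d p (y - a) *
          (tau d p (z - t) * (tau d p (u - z) * gw w p (u - t)))))) := by
          rw [hd, hd, hd]
          ring
      _ ≤ _ := by
          gcongr
          · exact hg _
          · exact hg _
          · exact hg _
  have h2 : (w (u - v) : ENNReal) * T2 (tau d p) v z u y ≤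
      (c : ENNReal) ^ 2 * T2 (gw w p) v z u y := by
    unfold T2
    rw [← ENNReal.tsum_mul_left, ← ENNReal.tsum_mul_left]
    refine ENNReal.tsum_le_tsum fun t => ?_
    rw [← ENNReal.tsum_mul_left, ← ENNReal.tsum_mul_left]
    refine ENNReal.tsum_le_tsum fun a => ?_
    calc (w (u - v) : ENNReal) * (tau d p (t - v) * (tau d p (a - t) * (tau d p (z - a) *
          (tau d p (y - a) * (tau d p (u - z) * tau d p (u - t))))))
        ≤ ((c : ENNReal) ^ 2 * w (t - v) * w (u - t)) * (tau d p (t - v) * (tau d p (a - t) *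
          (tau d p (z - a) * (tau d p (y - a) * (tau d p (u - z) * tau d p (u - t)))))) :=
          mul_le_mul' (wRecW_two' hw v t u) le_rfl
      _ = (c : ENNReal) ^ 2 * (gw w p (t - v) * (tau d p (a - t) * (tau d p (z - a) *
          (tau d p (y - a) * (tau d p (u - z) * gw w p (u - t)))))) := by
          rw [hd, hd]
          ring
      _ ≤ _ := by
          gcongr
          · exact hg _
          · exact hg _
          · exact hg _
          · exact hg _
  have h3 : (w (u - v) : ENNReal) * T3 (tau d p) v z u y ≤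
      (c : ENNReal) ^ 2 * T3 (gw w p) v z u y := by
    unfold T3
    rw [← ENNReal.tsum_mul_left, ← ENNReal.tsum_mul_left]
    refine ENNReal.tsum_le_tsum fun t => ?_
    rw [← ENNReal.tsum_mul_left, ← ENNReal.tsum_mul_left]
    refine ENNReal.tsum_le_tsum fun a => ?_
    calc (w (u - v) : ENNReal) * (tau d p (t - v) * (tau d p (z - t) * (tau d p (a - z) *
          (tau d p (u - a) * (tau d p (y - a) * tau d p (u - t))))))
        ≤ ((c : ENNReal) ^ 2 * w (t - v) * w (u - t)) * (tau d p (t - v) * (tau d p (z - t) *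
          (tau d p (a - z) * (tau d p (u - a) * (tau d p (y - a) * tau d p (u - t)))))) :=
          mul_le_mul' (wRecW_two' hw v t u) le_rfl
      _ = (c : ENNReal) ^ 2 * (gw w p (t - v) * (tau d p (z - t) * (tau d p (a - z) *
          (tau d p (u - a) * (tau d p (y - a) * gw w p (u - t)))))) := by
          rw [hd, hd]
          ring
      _ ≤ _ := by
          gcongr
          · exact hg _
          · exact hg _
          · exact hg _
          · exact hg _
  have h4 : (w (u - v) : ENNReal) * T4 (tau d p) v z u y ≤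
      (c : ENNReal) ^ 2 * T4 (gw w p) v z u y := by
    unfold T4
    rw [← ENNReal.tsum_mul_left, ← ENNReal.tsum_mul_left]
    refine ENNReal.tsum_le_tsum fun t => ?_
    rw [← ENNReal.tsum_mul_left, ← ENNReal.tsum_mul_left]
    refine ENNReal.tsum_le_tsum fun a => ?_
    calc (w (u - v) : ENNReal) * (tau d p (t - v) * (tau d p (z - t) * (tau d p (u - z) *
          (tau d p (a - t) * (tau d p (u - a) * tau d p (y - a))))))
        ≤ ((c : ENNReal) ^ 2 * w (t - v) * w (a - t) * w (u - a)) * (tau d p (t - v) *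
          (tau d p (z - t) * (tau d p (u - z) *
          (tau d p (a - t) * (tau d p (u - a) * tau d p (y - a)))))) :=
          mul_le_mul' (wRecW_three hw v t a u) le_rfl
      _ = (c : ENNReal) ^ 2 * (gw w p (t - v) * (tau d p (z - t) * (tau d p (u - z) *
          (gw w p (a - t) * (gw w p (u - a) * tau d p (y - a)))))) := by
          rw [hd, hd, hd]
          ring
      _ ≤ _ := by
          gcongr
          · exact hg _
          · exact hg _
          · exact hg _
  unfold L4
  rw [mul_add, mul_add, mul_add, mul_add, mul_add, mul_add]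
  exact add_le_add (add_le_add (add_le_add h1 h2) h3) h4

lemma wRecW_zero {w : V d → ℕ} {c : ℕ} (hw : Wt w c) (p : ℝ) (h0 : 0 ≤ p) (h1 : p ≤ 1)
    (A : Finset (V d)) (v : V d) :
    ∑' x, (w (x - v) : ENNReal) * Xi p 0 A v x ≤ ∑ z ∈ A, Hw p c (gw w p) 0 (z - v) := by
  have hg : ∀ x : V d, tau d p x ≤ gw w p x := tau_le_gw hw p
  have hd : ∀ x : V d, gw w p x = (w x : ENNReal) * tau d p x := fun x => rfl
  have hev : ∀ x : V d, gw w p (-x) = gw w p x := gw_neg hw p h0 h1
  have e1 : ∀ x, (w (x - v) : ENNReal) * Xi p 0 A v x ≤ ∑ z ∈ A, ∑' t, (c : ENNReal) *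
      (gw w p (t - v) * (gw w p (z - t) * (gw w p (x - t) * gw w p (x - z)))) := by
    intro x
    calc (w (x - v) : ENNReal) * Xi p 0 A v x
        ≤ (w (x - v) : ENNReal) * ∑ z ∈ A, ∑' t, tau d p (t - v) *
          (tau d p (z - t) * (tau d p (x - z) * tau d p (x - t))) :=
          mul_le_mul' le_rfl (xi0_le p h0 h1 A v x)
      _ = ∑ z ∈ A, ∑' t, (w (x - v) : ENNReal) * (tau d p (t - v) *
          (tau d p (z - t) * (tau d p (x - z) * tau d p (x - t)))) := by
          rw [Finset.mul_sum]
          exact Finset.sum_congr rfl fun z _ => ENNReal.tsum_mul_left.symm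
      _ ≤ _ := by
          refine Finset.sum_le_sum fun z _ => ENNReal.tsum_le_tsum fun t => ?_
          calc (w (x - v) : ENNReal) * (tau d p (t - v) *
                (tau d p (z - t) * (tau d p (x - z) * tau d p (x - t))))
              ≤ ((c : ENNReal) * w (t - v) * w (x - t)) * (tau d p (t - v) *
                (tau d p (z - t) * (tau d p (x - z) * tau d p (x - t)))) :=
                mul_le_mul' (wRecW_two hw v t x) le_rfl
            _ = (c : ENNReal) * (gw w p (t - v) * (tau d p (z - t) *
                (gw w p (x - t) * tau d p (x - z)))) := by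
                rw [hd, hd]
                ring
            _ ≤ _ := by
                gcongr
                · exact hg _
                · exact hg _
  refine (ENNReal.tsum_le_tsum e1).trans (le_of_eq ?_)
  rw [Summable.tsum_finsetSum (fun z _ => ENNReal.summable)]
  refine Finset.sum_congr rfl fun z _ => ?_
  rw [ENNReal.tsum_comm]
  have e2 : ∀ t : V d, ∑' x, (c : ENNReal) * (gw w p (t - v) * (gw w p (z - t) *
      (gw w p (x - t) * gw w p (x - z)))) =
      (c : ENNReal) * (gw w p (t - v) * (gw w p (z - t) * cv (gw w p) (gw w p) (z - t))) := by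
    intro t
    rw [ENNReal.tsum_mul_left, ENNReal.tsum_mul_left, ENNReal.tsum_mul_left, sum_two hev]
  simp_rw [e2]
  rw [← (Equiv.addRight v).tsum_eq, ENNReal.tsum_mul_left]
  change _ = (c : ENNReal) * ∑' t, gw w p t *
    (gw w p (z - v - t) * cv (gw w p) (gw w p) (z - v - t))
  congr 1
  refine tsum_congr fun t => ?_
  have e3 : t + v - v = t := by abel
  have e4 : z - (t + v) = z - v - t := by abel
  rw [Equiv.coe_addRight, e3, e4]

lemma wRecW_leg (p : ℝ) (A : Finset (V d)) (v : V d)
    (b : V d × Dir d) (f : V d → ENNReal) :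
    ∑' B : Finset (V d), PE p A v b B * ∑ z ∈ B, f z ≤
      ∑' z, f z * perc d p {ω | EE (A : Set (V d)) ω v b.1 ∧ z ∈ cluster ω v} := by
  classical
  have e1 : ∀ B : Finset (V d), PE p A v b B * ∑ z ∈ B, f z =
      ∑' z, f z * (if z ∈ B then PE p A v b B else 0) := by
    intro B
    rw [Finset.mul_sum, tsum_eq_sum (s := B)]
    · refine Finset.sum_congr rfl fun z hz => ?_
      rw [if_pos hz, mul_comm]
    · intro z hz
      rw [if_neg hz, mul_zero]
  simp_rw [e1]
  rw [ENNReal.tsum_comm]
  refine ENNReal.tsum_le_tsum fun z => ?_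
  rw [ENNReal.tsum_mul_left]
  refine mul_le_mul' le_rfl ?_
  have e2 : ∀ B : Finset (V d), (if z ∈ B then PE p A v b B else 0) =
      perc d p {ω | z ∈ B ∧ cluster (del (edge b.1 b.2) ω) v = (B : Set (V d)) ∧
        EE (A : Set (V d)) ω v b.1} := by
    intro B
    by_cases hz : z ∈ B
    · rw [if_pos hz]
      unfold PE
      congr 1
      ext ω
      simp [hz]
    · rw [if_neg hz]
      have e3 : {ω : Cfg d | z ∈ B ∧ cluster (del (edge b.1 b.2) ω) v = (B : Set (V d)) ∧
        EE (A : Set (V d)) ω v b.1} = ∅ := by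
        ext ω
        simp [hz]
      rw [e3, measure_empty]
  simp_rw [e2]
  rw [← measure_iUnion]
  · refine measure_mono ?_
    intro ω hω
    rw [Set.mem_iUnion] at hω
    obtain ⟨B, h1, h2, h3⟩ := hω
    refine ⟨h3, cluster_del_sub b ω v ?_⟩
    rw [h2]
    exact h1
  · intro B B' hBB
    rw [Function.onFun, Set.disjoint_left]
    rintro ω ⟨-, h2, -⟩ ⟨-, h3, -⟩
    apply hBB
    rw [h2] at h3
    exact_mod_cast h3
  · intro B
    by_cases hz : z ∈ B
    · have e3 : {ω : Cfg d | z ∈ B ∧ cluster (del (edge b.1 b.2) ω) v = (B : Set (V d)) ∧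
        EE (A : Set (V d)) ω v b.1} = {ω | cluster (del (edge b.1 b.2) ω) v = (B : Set (V d))} ∩
        {ω | EE (A : Set (V d)) ω v b.1} := by
        ext ω
        simp [hz]
      rw [e3]
      exact (meas_delc b v _).inter (meas_EE _ v b.1)
    · have e3 : {ω : Cfg d | z ∈ B ∧ cluster (del (edge b.1 b.2) ω) v = (B : Set (V d)) ∧
        EE (A : Set (V d)) ω v b.1} = ∅ := by
        ext ω
        simp [hz]
      rw [e3]
      exact MeasurableSet.empty

lemma wRecW_step {w : V d → ℕ} {c : ℕ} (hw : Wt w c) (v : V d) (b : V d × Dir d) :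
    (w (b.1 + step b.2 - v) : ENNReal) ≤ 2 * c * w (b.1 - v) := by
  have h := hw.add (b.1 - v) (step b.2)
  have e : b.1 - v + step b.2 = b.1 + step b.2 - v := by abel
  rw [e] at h
  have h2 := hw.step b.2
  have h3 : w (b.1 + step b.2 - v) ≤ 2 * c * w (b.1 - v) := by
    calc w (b.1 + step b.2 - v) ≤ c * w (b.1 - v) * w (step b.2) := h
      _ ≤ c * w (b.1 - v) * 2 := Nat.mul_le_mul_left _ h2
      _ = 2 * c * w (b.1 - v) := by ring
  exact_mod_cast h3

theorem w_recW {w : V d → ℕ} {c : ℕ} (hw : Wt w c) (p : ℝ) (h0 : 0 ≤ p) (h1 : p ≤ 1) (n : ℕ)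
    (A : Finset (V d)) (v : V d) :
    ∑' x, (w (x - v) : ENNReal) * Xi p n A v x ≤ ∑ z ∈ A, Hw p c (gw w p) n (z - v) := by
  induction n generalizing A v with
  | zero => exact wRecW_zero hw p h0 h1 A v
  | succ n ih =>
    set H := Hw p c (gw w p) n with hH
    have e1 : ∀ x, (w (x - v) : ENNReal) * Xi p (n + 1) A v x ≤
        ∑' b : V d × Dir d, ENNReal.ofReal p * ∑' B : Finset (V d), PE p A v b B *
          ((c : ENNReal) * w (b.1 + step b.2 - v) *
            ((w (x - (b.1 + step b.2)) : ENNReal) * Xi p n B (b.1 + step b.2) x)) := by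
      intro x
      change (w (x - v) : ENNReal) * (∑' b : V d × Dir d, ENNReal.ofReal p *
        ∑' B : Finset (V d), PE p A v b B * Xi p n B (b.1 + step b.2) x) ≤ _
      rw [← ENNReal.tsum_mul_left]
      refine ENNReal.tsum_le_tsum fun b => ?_
      rw [mul_left_comm, ← ENNReal.tsum_mul_left]
      refine mul_le_mul' le_rfl (ENNReal.tsum_le_tsum fun B => ?_)
      rw [mul_left_comm]
      refine mul_le_mul' le_rfl ?_
      calc (w (x - v) : ENNReal) * Xi p n B (b.1 + step b.2) x
          ≤ ((c : ENNReal) * w (b.1 + step b.2 - v) * w (x - (b.1 + step b.2))) *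
            Xi p n B (b.1 + step b.2) x := mul_le_mul' (wRecW_two hw v _ x) le_rfl
        _ = _ := by ring
    have e2 : ∑' x, (w (x - v) : ENNReal) * Xi p (n + 1) A v x ≤
        ∑' b : V d × Dir d, ENNReal.ofReal p * ((c : ENNReal) * w (b.1 + step b.2 - v) *
          ∑' B : Finset (V d), PE p A v b B * ∑ z ∈ B, H (z - (b.1 + step b.2))) := by
      refine (ENNReal.tsum_le_tsum e1).trans ?_
      rw [ENNReal.tsum_comm]
      refine ENNReal.tsum_le_tsum fun b => ?_
      rw [ENNReal.tsum_mul_left]
      refine mul_le_mul' le_rfl ?_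
      rw [ENNReal.tsum_comm, ← ENNReal.tsum_mul_left]
      refine ENNReal.tsum_le_tsum fun B => ?_
      rw [ENNReal.tsum_mul_left, ENNReal.tsum_mul_left, mul_left_comm]
      exact mul_le_mul' le_rfl (mul_le_mul' le_rfl (ih B (b.1 + step b.2)))
    refine e2.trans ?_
    have e3 : ∀ b : V d × Dir d, ENNReal.ofReal p * ((c : ENNReal) * w (b.1 + step b.2 - v) *
          ∑' B : Finset (V d), PE p A v b B * ∑ z ∈ B, H (z - (b.1 + step b.2))) ≤
        ∑ z ∈ A, (2 * c ^ 4 : ENNReal) * ∑' z', ENNReal.ofReal p *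
          (L4 (gw w p) v z b.1 z' * H (z' - (b.1 + step b.2))) := by
      intro b
      calc ENNReal.ofReal p * ((c : ENNReal) * w (b.1 + step b.2 - v) *
            ∑' B : Finset (V d), PE p A v b B * ∑ z ∈ B, H (z - (b.1 + step b.2)))
          ≤ ENNReal.ofReal p * ((c : ENNReal) * (2 * c * w (b.1 - v)) *
            ∑' z', H (z' - (b.1 + step b.2)) * ∑ z ∈ A, L4 (tau d p) v z b.1 z') := by
            refine mul_le_mul' le_rfl (mul_le_mul' (mul_le_mul' le_rfl (wRecW_step hw v b)) ?_)
            refine (wRecW_leg p A v b _).trans (ENNReal.tsum_le_tsum fun z' => ?_)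
            exact mul_le_mul' le_rfl (leg_le p h0 h1 A v b.1 z')
        _ = ∑ z ∈ A, ∑' z', (2 * c ^ 2 : ENNReal) * (ENNReal.ofReal p *
            (((w (b.1 - v) : ENNReal) * L4 (tau d p) v z b.1 z') *
              H (z' - (b.1 + step b.2)))) := by
            have e4 : ∀ z' : V d, H (z' - (b.1 + step b.2)) * ∑ z ∈ A, L4 (tau d p) v z b.1 z' =
                ∑ z ∈ A, H (z' - (b.1 + step b.2)) * L4 (tau d p) v z b.1 z' :=
              fun z' => Finset.mul_sum _ _ _
            simp_rw [e4]
            rw [Summable.tsum_finsetSum (fun z _ => ENNReal.summable), Finset.mul_sum,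
              Finset.mul_sum]
            refine Finset.sum_congr rfl fun z _ => ?_
            rw [← ENNReal.tsum_mul_left, ← ENNReal.tsum_mul_left]
            refine tsum_congr fun z' => ?_
            ring
        _ ≤ ∑ z ∈ A, ∑' z', (2 * c ^ 2 : ENNReal) * (ENNReal.ofReal p *
            (((c : ENNReal) ^ 2 * L4 (gw w p) v z b.1 z') * H (z' - (b.1 + step b.2)))) := by
            refine Finset.sum_le_sum fun z _ => ENNReal.tsum_le_tsum fun z' => ?_
            exact mul_le_mul' le_rfl (mul_le_mul' le_rfl (mul_le_mul' (l4_ww hw p v z b.1 z')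
              le_rfl))
        _ = _ := by
            refine Finset.sum_congr rfl fun z _ => ?_
            rw [← ENNReal.tsum_mul_left]
            refine tsum_congr fun z' => ?_
            ring
    refine (ENNReal.tsum_le_tsum e3).trans (le_of_eq ?_)
    rw [Summable.tsum_finsetSum (fun z _ => ENNReal.summable)]
    refine Finset.sum_congr rfl fun z _ => ?_
    rw [ENNReal.tsum_mul_left]
    change _ = (2 * c ^ 4 : ENNReal) * St p (L4 (gw w p)) H (z - v)
    congr 1
    unfold St
    rw [← (Equiv.prodCongr (Equiv.addRight v) (Equiv.refl (Dir d))).tsum_eq]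
    refine tsum_congr fun b => ?_
    rw [← (Equiv.addRight v).tsum_eq]
    refine tsum_congr fun z' => ?_
    have e5 : b.1 + v - v = b.1 := by abel
    have e6 : z' + v - v = z' := by abel
    have e7 : z' + v - (b.1 + v + step b.2) = z' - (b.1 + step b.2) := by abel
    change ENNReal.ofReal p * (L4 (gw w p) v z (b.1 + v) (z' + v) *
      H (z' + v - (b.1 + v + step b.2))) = _
    rw [l4_shiftW, e5, e6, e7]

end H95LE
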