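import Pool.Agent.H95.LE.HT1
import Pool.Agent.H95.LE.HT2
import Pool.Agent.H95.LE.HT3
import Pool.Agent.H95.LE.HT4
import Pool.Agent.H95.LE.WRecW
import Pool.Agent.H95.LBD.BkB
import Pool.Agent.H95.LBD.DecA

/-!
PROJECT LE, JOB LE-HNW. The sums of the coefficients (section 2), general weight (replaces the file HN).
PROOF. `dm_zeroW`: `Hw p c g 0 y = c sum'_c' g (y-c') (g c' * cv g g c')` (reindex), mass `c cv g (cv g g) 0 <= c sq g` (`le_cv`). `dm_nW`: induction with
`ht1..ht4`, `dm_add`, `dm_mul` (`St` is additive in the diagram), `2 c^4 * 4 = 8 c^4`. `xi_sumW`: `w_recW` with `A = {0}`, `v = 0`, then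
`Hw p c g n 0 <= sum'_c g c b c <= (sup g) (sum b)` and `g x <= sq g`: `g x <= cv g g x <= cv g g 0` (`sum'_y g y g (x-y) <= sum'_y (g y ^2 + g (x-y)^2)/2`)
`<= sq g`.
-/

namespace H95LE

open H5DF H95LBD MeasureTheory

variable {d : ℕ}

theorem dm_zeroW (p : ℝ) (c : ℕ) (g : V d → ENNReal) (hg : ∀ x, g (-x) = g x) (hg0 : 1 ≤ g 0) :
    Dm g (Hw p c g 0) ((c : ENNReal) * sq g) := by
  refine ⟨fun x => (c : ENNReal) * (g x * cv g g x), fun y => ?_, ?_⟩
  · change (c : ENNReal) * ∑' t, g t * (g (y - t) * cv g g (y - t)) ≤ _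
    rw [← (Equiv.subLeft y).tsum_eq (fun u => g (y - u) * ((c : ENNReal) * (g u * cv g g u))),
      ← ENNReal.tsum_mul_left]
    refine (tsum_congr fun t => ?_).le
    rw [Equiv.subLeft_apply, sub_sub_cancel]
    ring
  · rw [ENNReal.tsum_mul_left]
    refine mul_le_mul' le_rfl ?_
    calc ∑' x, g x * cv g g x = cv g (cv g g) 0 := by
          change _ = ∑' x, g x * cv g g (0 - x)
          refine tsum_congr fun x => ?_
          rw [zero_sub, cv_even hg hg]
      _ ≤ cv g (cv g (cv g g)) 0 := le_cv hg0 0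

lemma hnW_St (p : ℝ) (g F : V d → ENNReal) (y : V d) :
    St p (L4 g) F y = St p (T1 g) F y + St p (T2 g) F y + St p (T3 g) F y + St p (T4 g) F y := by
  unfold St L4
  rw [← ENNReal.tsum_add, ← ENNReal.tsum_add, ← ENNReal.tsum_add]
  refine tsum_congr fun b => ?_
  rw [← ENNReal.tsum_add, ← ENNReal.tsum_add, ← ENNReal.tsum_add]
  refine tsum_congr fun z => ?_
  ring

theorem dm_nW (p : ℝ) (c : ℕ) (g : V d → ENNReal) (be : ENNReal) (hg : ∀ x, g (-x) = g x)
    (hg0 : 1 ≤ g 0) (hbe : ∀ x, jg p g x ≤ be) (n : ℕ) :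
    Dm g (Hw p c g n) ((c : ENNReal) * sq g * (8 * (c : ENNReal) ^ 4 * (sq g * be)) ^ n) := by
  induction n with
  | zero =>
    rw [pow_zero, mul_one]
    exact dm_zeroW p c g hg hg0
  | succ n ih =>
    have h := dm_mul (2 * (c : ENNReal) ^ 4) (dm_add (dm_add (dm_add
      (ht1 p g _ _ be hg hg0 hbe ih) (ht2 p g _ _ be hg hg0 hbe ih))
      (ht3 p g _ _ be hg hg0 hbe ih)) (ht4 p g _ _ be hg hg0 hbe ih))
    refine dm_mono h (fun y => ?_) (le_of_eq ?_)
    · change (2 * (c : ENNReal) ^ 4) * St p (L4 g) (Hw p c g n) y ≤ _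
      rw [hnW_St]
    · rw [pow_succ]
      unfold sq
      ring

lemma hnW_mul (a b : ENNReal) : 2 * (a * b) ≤ a * a + b * b := by
  rcases le_total a b with h | h
  · obtain ⟨t, rfl⟩ := exists_add_of_le h
    calc 2 * (a * (a + t)) ≤ 2 * (a * (a + t)) + t * t := le_self_add
      _ = _ := by ring
  · obtain ⟨t, rfl⟩ := exists_add_of_le h
    calc 2 * ((b + t) * b) ≤ 2 * ((b + t) * b) + t * t := le_self_add
      _ = _ := by ring

lemma hnW_cv0 (g : V d → ENNReal) (hg : ∀ x, g (-x) = g x) (x : V d) : cv g g x ≤ cv g g 0 := by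
  have h1 : 2 * cv g g x ≤ 2 * cv g g 0 := by
    calc 2 * cv g g x = ∑' y, 2 * (g y * g (x - y)) := by
          unfold cv
          rw [ENNReal.tsum_mul_left]
      _ ≤ ∑' y, (g y * g y + g (x - y) * g (x - y)) :=
          ENNReal.tsum_le_tsum fun y => hnW_mul _ _
      _ = ∑' y, g y * g y + ∑' y, g (x - y) * g (x - y) := ENNReal.tsum_add
      _ = ∑' y, g y * g y + ∑' y, g y * g y := by
          congr 1
          exact (Equiv.subLeft x).tsum_eq (fun y => g y * g y)
      _ = 2 * cv g g 0 := by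
          rw [two_mul]
          unfold cv
          simp only [zero_sub, hg]
  exact (ENNReal.mul_le_mul_iff_right (by norm_num) (by norm_num)).1 h1

lemma hnW_sup (g : V d → ENNReal) (hg : ∀ x, g (-x) = g x) (hg0 : 1 ≤ g 0) (x : V d) :
    g x ≤ sq g := by
  calc g x ≤ cv g g x := le_cv hg0 x
    _ ≤ cv g g 0 := hnW_cv0 g hg x
    _ ≤ cv g (cv g g) 0 := le_cv hg0 0
    _ ≤ cv g (cv g (cv g g)) 0 := le_cv hg0 0

theorem xi_sumW {w : V d → ℕ} {c : ℕ} (hw : Wt w c) (p : ℝ) (h0 : 0 ≤ p) (h1 : p ≤ 1)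
    (K be : ENNReal) (hK : sq (gw w p) ≤ K) (hbe : ∀ x, jg p (gw w p) x ≤ be) (n : ℕ) :
    ∑' x : V d, (w x : ENNReal) * Xi p n {0} 0 x ≤
      (c : ENNReal) * K ^ 2 * (8 * (c : ENNReal) ^ 4 * (K * be)) ^ n := by
  have hg : ∀ x, gw w p (-x) = gw w p x := gw_neg hw p h0 h1
  have hg0 : 1 ≤ gw w p (0 : V d) := (gw_zero hw p h0 h1).ge
  obtain ⟨b, hb1, hb2⟩ := dm_nW p c (gw w p) be hg hg0 hbe n
  have h2 := w_recW hw p h0 h1 n {0} (0 : V d)
  simp only [sub_zero, Finset.sum_singleton] at h2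
  refine h2.trans ((hb1 0).trans ?_)
  calc ∑' x, gw w p (0 - x) * b x ≤ ∑' x, K * b x :=
        ENNReal.tsum_le_tsum fun x => mul_le_mul' ((hnW_sup _ hg hg0 _).trans hK) le_rfl
    _ = K * ∑' x, b x := ENNReal.tsum_mul_left
    _ ≤ K * ((c : ENNReal) * K * (8 * (c : ENNReal) ^ 4 * (K * be)) ^ n) := by
        refine mul_le_mul' le_rfl (hb2.trans ?_)
        gcongr
    _ = _ := by ring

end H95LE

/-!
PROJECT LE, JOB LE-XiZW. The coefficient of order zero, general weight (replaces the file XiZ).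
PROOF. `EE {0} ω 0 0` always holds: `Thr {0} ω 0 0`, and `Piv ω 0 0 b` is impossible (`0 ∈ cluster of 0` without the edge: `piv_not`). For
`x ≠ 0`: `two_le`, and `tau x <= jc p tau x` (`tau_stepW`: the first edge of a walk from `x` to `0`; e.g. `exit_dec` of LBD/DecB with `S = {x}`, BK with one
edge). So `w x Xi0 x <= g x (jc p tau) x` and the sum is `<= cv g (jc p g) 0 = jc p (cv g g) 0 <= jg p g 0 <= be`.
-/

namespace H95LE

open H5DF H95LBD MeasureTheory

variable {d : ℕ}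

theorem xi_zeroW (p : ℝ) (h0 : 0 ≤ p) (h1 : p ≤ 1) : Xi p 0 {0} 0 (0 : V d) = 1 := by
  have := isProb_perc (d := d) p h0 h1
  have hE : {ω : Cfg d | EE ((({0} : Finset (V d)) : Set (V d))) ω 0 0} = Set.univ := by
    ext ω
    simp only [Set.mem_ofPred_eq, Set.mem_univ, iff_true]
    refine ⟨⟨SimpleGraph.Reachable.refl _, fun h => h.1 (by simp)⟩, fun b hb _ => ?_⟩
    exact piv_not hb (SimpleGraph.Reachable.refl _)
  change perc d p {ω : Cfg d | EE ((({0} : Finset (V d)) : Set (V d))) ω 0 0} = 1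
  rw [hE]
  exact measure_univ

lemma XiZW_inc (e : Ed d) : Inc {ω : Cfg d | ω e = true} := by
  intro ω ω' h h1
  exact h e h1

lemma XiZW_fw (x : V d) (s : Dir d) : Fw {ω : Cfg d | ω (edge x s) = true} := by
  intro ω h
  refine ⟨max (nm x) (nm (x + step s)), ?_⟩
  change cut _ ω (edge x s) = true
  rw [cut_edge]
  exact ⟨h, mem_Bx0.2 (le_max_left _ _), mem_Bx0.2 (le_max_right _ _)⟩

lemma XiZW_dec (x : V d) (hx : x ≠ 0) :
    SCn {x} Set.univ (0 : V d) ⊆
      ⋃ s : Dir d, disj {ω : Cfg d | ω (edge x s) = true} (SCn {x + step s} Set.univ 0) := by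
  classical
  rintro ω ⟨u, hu, h⟩
  rw [Finset.mem_singleton] at hu
  subst hu
  rw [Cn_univ] at h
  obtain ⟨P, hP⟩ := (show (G ω).Reachable u 0 from h).exists_isPath
  cases P with
  | nil => exact absurd rfl hx
  | @cons _ z _ ha P' =>
    rw [SimpleGraph.Walk.cons_isPath_iff] at hP
    obtain ⟨s, rfl, hs⟩ := ha
    rw [Set.mem_iUnion]
    refine ⟨s, fun e => decide (e = edge u s), ?_, u + step s, Finset.mem_singleton_self _, ?_⟩
    · simp [hs]
    · rw [Cn_univ]
      refine decA_tr P' ?_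
      intro e h1 h2
      have h3 : e ≠ edge u s := by
        rintro rfl
        rw [decA_sym, sym_edge] at h2
        exact hP.2 (SimpleGraph.Walk.fst_mem_support_of_mem_edges P' h2)
      simp [h1, h3]

lemma XiZW_opp (s : Dir d) : opp (opp s) = s := by
  obtain ⟨i, b⟩ := s
  simp [opp]

theorem tau_stepW (p : ℝ) (h0 : 0 ≤ p) (h1 : p ≤ 1) (x : V d) (hx : x ≠ 0) :
    tau d p x ≤ jc p (tau d p) x := by
  have e1 : tau d p x = perc d p (SCn {x} Set.univ (0 : V d)) := by
    rw [perc_conn p h0 h1, zero_sub, tau_neg p h0 h1]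
  have e2 : ∀ s : Dir d, perc d p (disj {ω : Cfg d | ω (edge x s) = true}
      (SCn {x + step s} Set.univ 0)) ≤ ENNReal.ofReal p * tau d p (x - step (opp s)) := by
    intro s
    refine (bk_inf p h0 h1 _ _ (XiZW_inc _) (SCn_inc _ _ _) (XiZW_fw x s) (SCn_fw _ _ _)).trans ?_
    rw [perc_conn p h0 h1, zero_sub, tau_neg p h0 h1, step_opp, sub_neg_eq_add]
    refine mul_le_mul' (le_of_eq ?_) le_rfl
    have h := bern_coord h0 h1 (edge x s) true
    rw [bern_true] at h
    exact h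
  rw [e1]
  refine (measure_mono (XiZW_dec x hx)).trans ((measure_iUnion_fintype_le _ _).trans ?_)
  refine (Finset.sum_le_sum fun s _ => e2 s).trans (le_of_eq ?_)
  unfold jc
  exact Function.Bijective.sum_comp (e := opp)
    (Function.Involutive.bijective XiZW_opp)
    (fun s : Dir d => ENNReal.ofReal p * tau d p (x - step s))

theorem xi_zero_sumW {w : V d → ℕ} {c : ℕ} (hw : Wt w c) (p : ℝ) (h0 : 0 ≤ p) (h1 : p ≤ 1)
    (be : ENNReal) (hbe : ∀ x, jg p (gw w p) x ≤ be) :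
    ∑' x : V d, (if x = 0 then 0 else (w x : ENNReal) * Xi p 0 {0} 0 x) ≤ be := by
  have e1 : ∀ x : V d, (if x = 0 then 0 else (w x : ENNReal) * Xi p 0 {0} 0 x) ≤
      gw w p x * jc p (gw w p) (0 - x) := by
    intro x
    split_ifs with hx
    · exact zero_le
    · have h2 : Xi p 0 {0} 0 x ≤ tau d p x * tau d p x := by
        have h := two_le p h0 h1 (0 : V d) x
        rw [sub_zero, pow_two] at h
        refine le_trans (le_of_eq ?_) h
        change perc d p {ω : Cfg d | EE ((({0} : Finset (V d)) : Set (V d))) ω 0 x} = _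
        rw [Finset.coe_singleton]
      have h3 : tau d p x ≤ jc p (gw w p) (0 - x) := by
        rw [zero_sub, jc_even p (gw_neg hw p h0 h1)]
        exact (tau_stepW p h0 h1 x hx).trans (jc_mono p (tau_le_gw hw p) x)
      calc (w x : ENNReal) * Xi p 0 {0} 0 x ≤ (w x : ENNReal) * (tau d p x * tau d p x) :=
            mul_le_mul' le_rfl h2
        _ = gw w p x * tau d p x := by rw [gw, mul_assoc]
        _ ≤ _ := mul_le_mul' le_rfl h3
  refine (ENNReal.tsum_le_tsum e1).trans ?_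
  refine le_trans ?_ (hbe 0)
  change cv (gw w p) (jc p (gw w p)) 0 ≤ jc p (cv (gw w p) (cv (gw w p) (gw w p))) 0
  rw [← jc_cv]
  exact jc_mono p (fun x => le_cv (gw_zero hw p h0 h1).ge x) 0

end H95LE
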