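import Pool.Agent.H95.LE.ExpZ

/-!
PROJECT LE, JOB LE-ExpN. All steps of the expansion (section 1, (I_n)).
PROOF. Induction on `n`. `Op` is additive (`ENNReal.tsum_add`), so
`Rn (n+1) + Rn (n+2) = Op (Rn n + Rn (n+1)) = Op (Xi n) + Op (F)`, `F B w x = sum'_b' p (Xi n B w b'.1 tau (x - w'))`, and
`Op F A v x = sum'_b' p (Op (Xi n) A v b'.1) tau (x - w')` by commuting the sums (`ENNReal.tsum_comm`, `ENNReal.tsum_mul_left/right`).
`rn_zero`: `Rn p 0 {0} 0 x = tau d p x` by `thr_self`.
-/

namespace H95LE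

open H5DF H95LBD MeasureTheory

variable {d : ℕ}

/-- `Op` is additive. -/
lemma expN_add (p : ℝ) (F H : Finset (V d) → V d → V d → ENNReal) (A : Finset (V d)) (v x : V d) :
    Op p F A v x + Op p H A v x = Op p (fun B w y => F B w y + H B w y) A v x := by
  unfold Op
  rw [← ENNReal.tsum_add]
  refine tsum_congr fun b => ?_
  rw [← mul_add, ← ENNReal.tsum_add]
  congr 1
  refine tsum_congr fun B => ?_
  rw [mul_add]

/-- Commuting `Op` with the convolution on the right. -/
lemma expN_comm (p : ℝ) (F : Finset (V d) → V d → V d → ENNReal) (T : V d × Dir d → ENNReal)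
    (A : Finset (V d)) (v x : V d) :
    Op p (fun B w _ => ∑' b' : V d × Dir d, ENNReal.ofReal p * (F B w b'.1 * T b')) A v x =
      ∑' b' : V d × Dir d, ENNReal.ofReal p * (Op p F A v b'.1 * T b') := by
  unfold Op
  have h1 : ∀ b : V d × Dir d, ENNReal.ofReal p * ∑' B : Finset (V d), PE p A v b B *
      ∑' b' : V d × Dir d, ENNReal.ofReal p * (F B (b.1 + step b.2) b'.1 * T b') =
      ∑' b' : V d × Dir d, ENNReal.ofReal p * ((ENNReal.ofReal p * ∑' B : Finset (V d),
        PE p A v b B * F B (b.1 + step b.2) b'.1) * T b') := by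
    intro b
    have h2 : ∀ B : Finset (V d), PE p A v b B *
        ∑' b' : V d × Dir d, ENNReal.ofReal p * (F B (b.1 + step b.2) b'.1 * T b') =
        ∑' b' : V d × Dir d, ENNReal.ofReal p *
          ((PE p A v b B * F B (b.1 + step b.2) b'.1) * T b') := by
      intro B
      rw [← ENNReal.tsum_mul_left]
      refine tsum_congr fun b' => ?_
      ring
    rw [tsum_congr h2, ENNReal.tsum_comm, ← ENNReal.tsum_mul_left]
    refine tsum_congr fun b' => ?_
    rw [ENNReal.tsum_mul_left, ENNReal.tsum_mul_right]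
    ring
  rw [tsum_congr h1, ENNReal.tsum_comm]
  refine tsum_congr fun b' => ?_
  rw [ENNReal.tsum_mul_left, ENNReal.tsum_mul_right]

theorem exp_n (p : ℝ) (h0 : 0 ≤ p) (h1 : p ≤ 1) (hfin : ∑' x, tau d p x ≠ ⊤) (n : ℕ)
    (A : Finset (V d)) (v x : V d) :
    Rn p n A v x + Rn p (n + 1) A v x = Xi p n A v x +
      ∑' b : V d × Dir d, ENNReal.ofReal p * (Xi p n A v b.1 * tau d p (x - (b.1 + step b.2))) := by
  induction n generalizing A v x with
  | zero => exact exp_zero p h0 h1 hfin A v x
  | succ n ih =>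
    change Op p (Rn p n) A v x + Op p (Rn p (n + 1)) A v x = Op p (Xi p n) A v x +
      ∑' b : V d × Dir d, ENNReal.ofReal p *
        (Op p (Xi p n) A v b.1 * tau d p (x - (b.1 + step b.2)))
    rw [← expN_comm p (Xi p n) (fun b' => tau d p (x - (b'.1 + step b'.2))) A v x, expN_add,
      expN_add]
    unfold Op
    refine tsum_congr fun b => ?_
    congr 1
    refine tsum_congr fun B => ?_
    beta_reduce
    rw [ih B (b.1 + step b.2) x]

theorem rn_zero (p : ℝ) (x : V d) : Rn p 0 {0} 0 x = tau d p x := by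
  change perc d p {ω | Thr (({0} : Finset (V d)) : Set (V d)) ω 0 x} = perc d p {ω | x ∈ cluster ω 0}
  congr 1
  ext ω
  exact thr_self _ ω 0 x (by simp)

end H95LE
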