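import Pool.Agent.H95.LE.XiZ
import Pool.Agent.H95.LE.ExpN

/-!
PROJECT LE, JOB LE-Lace. The lace expansion: final theorem of sections 1, 2.
PROOF. `q := 128 K be <= 1/2`. `xi_sum`: `sum w2 Xi_n <= 2 K^2 q^n` (`ENNReal.ofReal`). Put `X x := sum'_n (-1)^n (Xi p n {0} 0 x).toReal` (absolutely summable,
also with the weights). `sum w2 |X - delta| <= sum_{x ne 0} w2 Xi_0 + sum_{n >= 1} sum w2 Xi_n <= be + 4 K^2 q = (1 + 512 K^3) be` (`xi_zero`, `xi_zero_sum`).
Equation: in real numbers `exp_n` with `A = {0}`, `v = 0` gives, for every `N`,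
`tau x = sum_{n<N} (-1)^n (Xi_n x + sum'_b p Xi_n b.1 tau (x - b.1 - step b.2)) + (-1)^N Rn_N x` (all terms finite: the sums are bounded since `tau <= 1`,
`sum Xi_n < oo`), and `Rn_N x <= Xi_(N-1) x + sum'_b p Xi_(N-1) b.1 tau (..) -> 0`. Interchange of the sums: dominated (`sum_n sum_b p Xi_n b.1 < oo`).
`hfin` gives `sum tau < oo` (`tau_le_gt`).
-/

namespace H95LE

open H5DF H95LBD MeasureTheory

variable {d : ℕ}

/-- A signed series with summable absolute values. -/
lemma Lace_abs (a : ℕ → ENNReal) (ha : ∑' n, a n ≠ ⊤) (s : ℕ → ℝ) (hs : ∀ n, |s n| ≤ 1) :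
    Summable (fun n => s n * (a n).toReal) ∧
      |∑' n, s n * (a n).toReal| ≤ (∑' n, a n).toReal := by
  have h1 : ∀ n, a n ≠ ⊤ := fun n => ENNReal.ne_top_of_tsum_ne_top ha n
  have h2 : HasSum (fun n => (a n).toReal) (∑' n, a n).toReal := by
    rw [ENNReal.tsum_toReal_eq h1]
    exact ENNReal.hasSum_toReal ha
  have h3 : ∀ n, ‖s n * (a n).toReal‖ ≤ (a n).toReal := by
    intro n
    rw [norm_mul, Real.norm_eq_abs, Real.norm_eq_abs, abs_of_nonneg ENNReal.toReal_nonneg]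
    calc |s n| * (a n).toReal ≤ 1 * (a n).toReal :=
          mul_le_mul_of_nonneg_right (hs n) ENNReal.toReal_nonneg
      _ = _ := one_mul _
  refine ⟨Summable.of_norm_bounded h2.summable h3, ?_⟩
  have := tsum_of_norm_bounded h2 h3
  rwa [Real.norm_eq_abs] at this

lemma Lace_neg (n : ℕ) : |(-1 : ℝ) ^ n| ≤ 1 := by
  rw [abs_pow, abs_neg, abs_one, one_pow]

lemma Lace_tau (p : ℝ) (h0 : 0 ≤ p) (h1 : p ≤ 1) (x : V d) : tau d p x ≤ 1 := by
  have := isProb_perc (d := d) p h0 h1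
  exact prob_le_one

/-- Sum over the directed edges. -/
lemma Lace_dir (f : V d → ENNReal) :
    ∑' b : V d × Dir d, f b.1 = (Fintype.card (Dir d) : ENNReal) * ∑' y, f y := by
  rw [ENNReal.tsum_prod' (f := fun b : V d × Dir d => f b.1), ← ENNReal.tsum_mul_left]
  refine tsum_congr fun y => ?_
  rw [tsum_fintype]
  show ∑ _s : Dir d, f y = _
  rw [Finset.sum_const, nsmul_eq_mul, Finset.card_univ]

/-- Telescoping with alternating signs. -/
lemma Lace_tele (r e : ℕ → ℝ) (h : ∀ n, r n + r (n + 1) = e n) (N : ℕ) :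
    r 0 = ∑ n ∈ Finset.range N, (-1) ^ n * e n + (-1) ^ N * r N := by
  induction N with
  | zero => simp
  | succ N ih =>
    rw [Finset.sum_range_succ, ih, ← h N, pow_succ]
    ring

/-- The limit of the telescoping. -/
lemma Lace_lim (r e : ℕ → ℝ) (C q : ℝ) (hq0 : 0 ≤ q) (hq1 : q < 1) (hr : ∀ n, 0 ≤ r n)
    (h : ∀ n, r n + r (n + 1) = e n) (he : ∀ n, e n ≤ C * q ^ n) :
    r 0 = ∑' n, (-1) ^ n * e n := by
  have hre : ∀ n, r n ≤ C * q ^ n := fun n => by
    have h1 := h n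
    have h2 := hr (n + 1)
    have h3 := he n
    linarith
  have he0 : ∀ n, 0 ≤ e n := fun n => by
    have h1 := h n
    have h2 := hr (n + 1)
    have h3 := hr n
    linarith
  have hgeo : Summable fun n => C * q ^ n := (summable_geometric_of_lt_one hq0 hq1).mul_left C
  have hse : Summable fun n => (-1) ^ n * e n := by
    refine Summable.of_norm_bounded hgeo fun n => ?_
    rw [norm_mul, Real.norm_eq_abs, Real.norm_eq_abs, abs_of_nonneg (he0 n)]
    calc |(-1 : ℝ) ^ n| * e n ≤ 1 * e n := mul_le_mul_of_nonneg_right (Lace_neg n) (he0 n)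
      _ ≤ _ := by rw [one_mul]; exact he n
  have hl1 : Filter.Tendsto (fun N => ∑ n ∈ Finset.range N, (-1) ^ n * e n) Filter.atTop
      (nhds (∑' n, (-1) ^ n * e n)) := hse.hasSum.tendsto_sum_nat
  have hl2 : Filter.Tendsto (fun N => (-1) ^ N * r N) Filter.atTop (nhds 0) := by
    refine squeeze_zero_norm (a := fun N => C * q ^ N) (fun n => ?_) hgeo.tendsto_atTop_zero
    rw [norm_mul, Real.norm_eq_abs, Real.norm_eq_abs, abs_of_nonneg (hr n)]
    calc |(-1 : ℝ) ^ n| * r n ≤ 1 * r n := mul_le_mul_of_nonneg_right (Lace_neg n) (hr n)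
      _ ≤ _ := by rw [one_mul]; exact hre n
  have hl3 : Filter.Tendsto (fun _ : ℕ => r 0) Filter.atTop
      (nhds (∑' n, (-1) ^ n * e n + 0)) := by
    refine (hl1.add hl2).congr fun N => ?_
    exact (Lace_tele r e h N).symm
  rw [add_zero] at hl3
  exact tendsto_nhds_unique tendsto_const_nhds hl3

theorem lace (p : ℝ) (h0 : 0 ≤ p) (h1 : p ≤ 1) (hfin : ∑' x, gt d p x ≠ ⊤) (K be : ℝ) (hK0 : 0 ≤ K)
    (hbe0 : 0 ≤ be) (hK : g4 d p ≤ ENNReal.ofReal K)
    (hbe : ∀ x, jggg d p x ≤ ENNReal.ofReal be) (hs : 256 * K * be ≤ 1) :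
    ∃ X : V d → ℝ, Summable (fun x => (w2 x : ℝ) * |X x|) ∧
      ∑' x, (w2 x : ℝ) * |X x - if x = 0 then 1 else 0| ≤ (1 + 512 * K ^ 3) * be ∧
      ∀ x, (tau d p x).toReal = X x + ∑' b : V d × Dir d,
        X b.1 * p * (tau d p (x - b.1 - step b.2)).toReal := by
  classical
  have hcK : 0 ≤ K * be := mul_nonneg hK0 hbe0
  set q : ℝ := 128 * (K * be) with hq
  have hq0 : 0 ≤ q := by positivity
  have hq1 : q ≤ 1 / 2 := by
    rw [hq]
    linarith
  -- the weighted sums
  have hS : ∀ n, ∑' x : V d, (w2 x : ENNReal) * Xi p n {0} 0 x ≤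
      ENNReal.ofReal (2 * K ^ 2 * q ^ n) := by
    intro n
    refine (xi_sum p h0 h1 _ _ hK hbe n).trans (le_of_eq ?_)
    rw [ENNReal.ofReal_mul (by positivity), ENNReal.ofReal_mul (by norm_num),
      ENNReal.ofReal_pow hK0, ENNReal.ofReal_pow hq0, hq, ENNReal.ofReal_mul (by norm_num),
      ENNReal.ofReal_mul hK0]
    norm_num
  have hw1 : ∀ x : V d, (1 : ENNReal) ≤ (w2 x : ENNReal) := by
    intro x
    have : 1 ≤ w2 x := Nat.le_add_right _ _
    exact_mod_cast this
  have hle : ∀ n (x : V d), Xi p n {0} 0 x ≤ (w2 x : ENNReal) * Xi p n {0} 0 x := by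
    intro n x
    calc Xi p n {0} 0 x = 1 * Xi p n {0} 0 x := (one_mul _).symm
      _ ≤ _ := mul_le_mul_left (hw1 x) _
  have hS1 : ∀ n, ∑' x : V d, Xi p n {0} 0 x ≤ ENNReal.ofReal (2 * K ^ 2 * q ^ n) :=
    fun n => (ENNReal.tsum_le_tsum (hle n)).trans (hS n)
  have hXn : ∀ n (x : V d), Xi p n {0} 0 x ≤ ENNReal.ofReal (2 * K ^ 2 * q ^ n) :=
    fun n x => (ENNReal.le_tsum x).trans (hS1 n)
  have hXf : ∀ n (x : V d), Xi p n {0} 0 x ≠ ⊤ :=
    fun n x => ((hXn n x).trans_lt ENNReal.ofReal_lt_top).ne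
  have hgeo : Summable fun n : ℕ => 2 * K ^ 2 * q ^ n :=
    (summable_geometric_of_lt_one hq0 (by linarith)).mul_left _
  have hgeo1 : Summable fun n : ℕ => 2 * K ^ 2 * q ^ (n + 1) :=
    (summable_nat_add_iff 1).2 hgeo
  have hT : ∑' n, ENNReal.ofReal (2 * K ^ 2 * q ^ n) ≠ ⊤ := by
    rw [← ENNReal.ofReal_tsum_of_nonneg (fun n => by positivity) hgeo]
    exact ENNReal.ofReal_ne_top
  have hsw : ∑' n, ENNReal.ofReal (2 * K ^ 2 * q ^ (n + 1)) ≤
      ENNReal.ofReal (4 * K ^ 2 * q) := by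
    rw [← ENNReal.ofReal_tsum_of_nonneg (fun n => by positivity) hgeo1]
    refine ENNReal.ofReal_le_ofReal ?_
    have e : ∀ n : ℕ, 2 * K ^ 2 * q ^ (n + 1) = 2 * K ^ 2 * q * q ^ n := fun n => by ring
    simp only [e]
    rw [tsum_mul_left, tsum_geometric_of_lt_one hq0 (by linarith)]
    have h2 : (1 - q)⁻¹ ≤ 2 := by
      rw [inv_le_comm₀ (by linarith) (by norm_num)]
      linarith
    have h3 : 0 ≤ 2 * K ^ 2 * q := by positivity
    calc 2 * K ^ 2 * q * (1 - q)⁻¹ ≤ 2 * K ^ 2 * q * 2 := mul_le_mul_of_nonneg_left h2 h3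
      _ = _ := by ring
  -- the sums over the order
  have hxs : ∀ x : V d, ∑' n, Xi p n {0} 0 x ≠ ⊤ := by
    intro x
    exact ((ENNReal.tsum_le_tsum fun n => hXn n x).trans_lt (lt_top_iff_ne_top.2 hT)).ne
  set X : V d → ℝ := fun x => ∑' n, (-1) ^ n * (Xi p n {0} 0 x).toReal with hX
  have hXs : ∀ x : V d, Summable fun n => (-1 : ℝ) ^ n * (Xi p n {0} 0 x).toReal :=
    fun x => (Lace_abs _ (hxs x) _ Lace_neg).1
  -- the main bound
  set g : V d → ENNReal := fun x => (if x = 0 then 0 else (w2 x : ENNReal) * Xi p 0 {0} 0 x) +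
    ∑' n, (w2 x : ENNReal) * Xi p (n + 1) {0} 0 x with hg
  have hgs : ∑' x, g x ≤ ENNReal.ofReal ((1 + 512 * K ^ 3) * be) := by
    rw [hg, ENNReal.tsum_add]
    have e1 : ∑' x : V d, ∑' n, (w2 x : ENNReal) * Xi p (n + 1) {0} 0 x ≤
        ENNReal.ofReal (4 * K ^ 2 * q) := by
      rw [ENNReal.tsum_comm]
      exact (ENNReal.tsum_le_tsum fun n => hS (n + 1)).trans hsw
    refine (add_le_add (xi_zero_sum p h0 h1 _ hbe) e1).trans (le_of_eq ?_)
    rw [← ENNReal.ofReal_add hbe0 (by positivity), hq]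
    congr 1
    ring
  have hgt : ∑' x, g x ≠ ⊤ := (hgs.trans_lt ENNReal.ofReal_lt_top).ne
  have hgx : ∀ x, g x ≠ ⊤ := fun x => ENNReal.ne_top_of_tsum_ne_top hgt x
  have hb : ∀ x, (w2 x : ℝ) * |X x - if x = 0 then 1 else 0| ≤ (g x).toReal := by
    intro x
    have e1 : X x = (Xi p 0 {0} 0 x).toReal +
        ∑' n, (-1) ^ (n + 1) * (Xi p (n + 1) {0} 0 x).toReal := by
      rw [hX]
      simp only
      rw [(hXs x).tsum_eq_zero_add, pow_zero, one_mul]
    have hx1 : ∑' n, Xi p (n + 1) {0} 0 x ≠ ⊤ := by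
      have h3 : ∑' n, Xi p (n + 1) {0} 0 x ≤ ∑' n, Xi p n {0} 0 x := by
        exact ENNReal.tsum_comp_le_tsum_of_injective (add_left_injective 1) _
      exact (h3.trans_lt (lt_top_iff_ne_top.2 (hxs x))).ne
    have e2 := (Lace_abs _ hx1 (fun n => (-1) ^ (n + 1)) (fun n => Lace_neg (n + 1))).2
    have e3 : |(Xi p 0 {0} 0 x).toReal - if x = 0 then 1 else 0| =
        if x = 0 then 0 else (Xi p 0 {0} 0 x).toReal := by
      split_ifs with h
      · subst h
        rw [xi_zero p h0 h1]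
        simp
      · rw [sub_zero, abs_of_nonneg ENNReal.toReal_nonneg]
    have e4 : |X x - if x = 0 then 1 else 0| ≤ (if x = 0 then 0 else (Xi p 0 {0} 0 x).toReal) +
        (∑' n, Xi p (n + 1) {0} 0 x).toReal := by
      rw [← e3, e1]
      have e5 : (Xi p 0 {0} 0 x).toReal + ∑' n, (-1) ^ (n + 1) * (Xi p (n + 1) {0} 0 x).toReal -
          (if x = 0 then 1 else 0) = ((Xi p 0 {0} 0 x).toReal - (if x = 0 then 1 else 0)) +
          ∑' n, (-1) ^ (n + 1) * (Xi p (n + 1) {0} 0 x).toReal := by ring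
      rw [e5]
      exact (abs_add_le _ _).trans (add_le_add le_rfl e2)
    have e6 : (g x).toReal = (w2 x : ℝ) * ((if x = 0 then 0 else (Xi p 0 {0} 0 x).toReal) +
        (∑' n, Xi p (n + 1) {0} 0 x).toReal) := by
      rw [hg]
      simp only
      rw [ENNReal.tsum_mul_left, ENNReal.toReal_add, ENNReal.toReal_mul, mul_add]
      · congr 1
        split_ifs
        · simp
        · rw [ENNReal.toReal_mul, ENNReal.toReal_natCast]
      · split_ifs
        · exact ENNReal.zero_ne_top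
        · exact ENNReal.mul_ne_top (ENNReal.natCast_ne_top _) (hXf 0 x)
      · exact ENNReal.mul_ne_top (ENNReal.natCast_ne_top _) hx1
    rw [e6]
    exact mul_le_mul_of_nonneg_left e4 (Nat.cast_nonneg _)
  have hgsum : HasSum (fun x => (g x).toReal) (∑' x, g x).toReal := by
    rw [ENNReal.tsum_toReal_eq hgx]
    exact ENNReal.hasSum_toReal hgt
  have hsd : Summable fun x : V d => (w2 x : ℝ) * |X x - if x = 0 then 1 else 0| :=
    Summable.of_nonneg_of_le (fun x => by positivity) hb hgsum.summable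
  refine ⟨X, ?_, ?_, ?_⟩
  · -- summability
    have hs0 : Summable fun x : V d => (w2 x : ℝ) * |if x = 0 then (1 : ℝ) else 0| := by
      refine summable_of_ne_finset_zero (s := {0}) fun x hx => ?_
      rw [Finset.mem_singleton] at hx
      simp [hx]
    refine Summable.of_nonneg_of_le (fun x => by positivity) (fun x => ?_) (hsd.add hs0)
    rw [← mul_add]
    refine mul_le_mul_of_nonneg_left ?_ (Nat.cast_nonneg _)
    have h3 := abs_add_le (X x - if x = 0 then 1 else 0) (if x = 0 then (1 : ℝ) else 0)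
    rwa [sub_add_cancel] at h3
  · -- the bound
    refine (hsd.tsum_le_tsum hb hgsum.summable).trans ?_
    rw [hgsum.tsum_eq]
    exact ENNReal.toReal_le_of_le_ofReal (by positivity) hgs
  · -- the equation
    intro x
    have htf : ∀ y : V d, tau d p y ≠ ⊤ := fun y =>
      ((Lace_tau p h0 h1 y).trans_lt ENNReal.one_lt_top).ne
    have htfin : ∑' x, tau d p x ≠ ⊤ := by
      refine ((ENNReal.tsum_le_tsum fun y => ?_).trans_lt (lt_top_iff_ne_top.2 hfin)).ne
      calc tau d p y = 1 * tau d p y := (one_mul _).symm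
        _ ≤ gt d p y := mul_le_mul_left (hw1 y) _
    set cD : ℝ := (Fintype.card (Dir d) : ℝ) with hcD
    have hcD0 : 0 ≤ cD := Nat.cast_nonneg _
    -- terms of the sum over the edges
    set F : ℕ → V d × Dir d → ENNReal := fun n b =>
      ENNReal.ofReal p * (Xi p n {0} 0 b.1 * tau d p (x - (b.1 + step b.2))) with hF
    have hFle : ∀ n b, F n b ≤ Xi p n {0} 0 b.1 := by
      intro n b
      calc F n b ≤ 1 * (Xi p n {0} 0 b.1 * 1) := by
            refine mul_le_mul' ?_ (mul_le_mul' le_rfl (Lace_tau p h0 h1 _))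
            rw [← ENNReal.ofReal_one]
            exact ENNReal.ofReal_le_ofReal h1
        _ = _ := by rw [one_mul, mul_one]
    have hFs : ∀ n, ∑' b, F n b ≤ ENNReal.ofReal (cD * (2 * K ^ 2 * q ^ n)) := by
      intro n
      refine (ENNReal.tsum_le_tsum (hFle n)).trans ?_
      rw [Lace_dir (fun y => Xi p n {0} 0 y), ENNReal.ofReal_mul hcD0, hcD,
        ENNReal.ofReal_natCast]
      exact mul_le_mul_right (hS1 n) _
    have hFt : ∀ n, ∑' b, F n b ≠ ⊤ := fun n => ((hFs n).trans_lt ENNReal.ofReal_lt_top).ne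
    have hFb : ∀ n b, F n b ≠ ⊤ := fun n b => ENNReal.ne_top_of_tsum_ne_top (hFt n) b
    have hrec : ∀ n, Rn p n {0} 0 x + Rn p (n + 1) {0} 0 x = Xi p n {0} 0 x + ∑' b, F n b :=
      fun n => exp_n p h0 h1 htfin n {0} 0 x
    have hRf : ∀ n, Rn p n {0} 0 x ≠ ⊤ := by
      intro n
      have h3 : Rn p n {0} 0 x ≤ Xi p n {0} 0 x + ∑' b, F n b := by
        rw [← hrec n]
        exact le_self_add
      exact (h3.trans_lt (lt_top_iff_ne_top.2 (ENNReal.add_ne_top.2 ⟨hXf n x, hFt n⟩))).ne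
    have hrecR : ∀ n, (Rn p n {0} 0 x).toReal + (Rn p (n + 1) {0} 0 x).toReal =
        (Xi p n {0} 0 x).toReal + (∑' b, F n b).toReal := by
      intro n
      rw [← ENNReal.toReal_add (hRf n) (hRf (n + 1)), ← ENNReal.toReal_add (hXf n x) (hFt n),
        hrec n]
    have hlim := Lace_lim (fun n => (Rn p n {0} 0 x).toReal)
      (fun n => (Xi p n {0} 0 x).toReal + (∑' b, F n b).toReal) ((1 + cD) * (2 * K ^ 2)) q hq0
      (by linarith) (fun n => ENNReal.toReal_nonneg) hrecR (fun n => by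
        have h3 : (Xi p n {0} 0 x).toReal ≤ 2 * K ^ 2 * q ^ n :=
          ENNReal.toReal_le_of_le_ofReal (by positivity) (hXn n x)
        have h4 : (∑' b, F n b).toReal ≤ cD * (2 * K ^ 2 * q ^ n) :=
          ENNReal.toReal_le_of_le_ofReal (by positivity) (hFs n)
        calc _ ≤ 2 * K ^ 2 * q ^ n + cD * (2 * K ^ 2 * q ^ n) := add_le_add h3 h4
          _ = _ := by ring)
    simp only [rn_zero] at hlim
    rw [hlim]
    -- the double family
    have hFF : ∑' n, ∑' b, F n b ≠ ⊤ := by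
      refine ((ENNReal.tsum_le_tsum hFs).trans_lt ?_).ne
      rw [← ENNReal.ofReal_tsum_of_nonneg (fun n => by positivity) (hgeo.mul_left cD)]
      exact ENNReal.ofReal_lt_top
    have hS2 : Summable fun n => (-1 : ℝ) ^ n * (∑' b, F n b).toReal :=
      (Lace_abs _ hFF _ Lace_neg).1
    have e1 : ∑' n, (-1 : ℝ) ^ n * ((Xi p n {0} 0 x).toReal + (∑' b, F n b).toReal) =
        X x + ∑' n, (-1 : ℝ) ^ n * (∑' b, F n b).toReal := by
      rw [hX]
      simp only [mul_add]
      exact (hXs x).tsum_add hS2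
    rw [e1]
    congr 1
    have e2 : ∀ n, (-1 : ℝ) ^ n * (∑' b, F n b).toReal = ∑' b, (-1 : ℝ) ^ n * (F n b).toReal := by
      intro n
      rw [ENNReal.tsum_toReal_eq (hFb n), tsum_mul_left]
    rw [tsum_congr e2]
    have hunc : Summable (Function.uncurry fun (n : ℕ) (b : V d × Dir d) =>
        (-1 : ℝ) ^ n * (F n b).toReal) := by
      have h3 : ∑' z : ℕ × (V d × Dir d), F z.1 z.2 ≠ ⊤ := by
        rw [ENNReal.tsum_prod' (f := fun z : ℕ × (V d × Dir d) => F z.1 z.2)]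
        exact hFF
      refine Summable.of_norm_bounded (ENNReal.summable_toReal h3) fun z => ?_
      obtain ⟨n, b⟩ := z
      simp only [Function.uncurry]
      rw [norm_mul, Real.norm_eq_abs, Real.norm_eq_abs, abs_of_nonneg ENNReal.toReal_nonneg]
      calc |(-1 : ℝ) ^ n| * (F n b).toReal ≤ 1 * (F n b).toReal :=
            mul_le_mul_of_nonneg_right (Lace_neg n) ENNReal.toReal_nonneg
        _ = _ := one_mul _
    rw [← hunc.tsum_comm]
    refine tsum_congr fun b => ?_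
    have e3 : ∀ n, (-1 : ℝ) ^ n * (F n b).toReal = (-1 : ℝ) ^ n * (Xi p n {0} 0 b.1).toReal *
        (p * (tau d p (x - b.1 - step b.2)).toReal) := by
      intro n
      rw [hF]
      simp only
      rw [ENNReal.toReal_mul, ENNReal.toReal_mul, ENNReal.toReal_ofReal h0, sub_sub]
      ring
    rw [tsum_congr e3, tsum_mul_right, hX]
    ring

end H95LE
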