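import Pool.Agent.H29.SH.Main
import Pool.Agent.H95.LE.XiZ
import Pool.Agent.H5.DG.BFinal

/-!
PROJECT LE (MP_0d9ad5_pr), JOB LE-EndU. The upper half from the critical estimates: assembly.
PROOF. `T3_cv`: definitions (the inner sum is `tau a * sum'_b tau (b-a) tau (y-b)`, reindex `b - a`). `T3_le_j`: `y ≠ 0`, so in every term one of
`a`, `b - a`, `y - b` is not `0`, and `tau <= jc p tau` off `0` (`tau_step`): the term is at most the sum of the three terms with one `tau` replaced by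
`jc p tau`; each of the three sums is `jc p (tau*tau*tau) y` (`jc_cv`, `cv_comm`, `cv_assoc`) `<= jggg d p y` (`cv_mono`, `jc_mono`, `tau_le_gt`).
`upper_of_crit`: `pcc >= 1/(2d) > 0` (`pcc_ge`); `2dp <= 12/11` for all `p < pcc` gives `pcc <= 6/(11 d)`, so `pcc < 1`, `pcc <= 1/d`; `theta_zero`, `theta_pos`;
`T3 <= 3/10000` off `0`: `an_bound` (`step s ≠ 0`), `ba_theta`; for `0 < ε < 1/(4d)`: `p = pcc - ε >= 1/(4d)`, `chi <= 4/(d ε)`, `mom d p <= sum' gt d p`
(`1 + ‖x‖^2 <= w2 x`, sup norm) `<= 3 * 16 / (d ε)^2`. Then `H5DF.sharp_mean_field` (H5/DG/BFinal).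
-/

namespace H95LE

open H5DF H95LBD MeasureTheory SH
open scoped ENNReal

variable {d : ℕ}

lemma EndU_inner (p : ℝ) (a y : V d) :
    ∑' b : V d, tau d p a * tau d p (b - a) * tau d p (y - b) =
      ∑' c : V d, tau d p a * (tau d p c * tau d p (y - a - c)) := by
  rw [← (Equiv.addRight a).tsum_eq (fun b : V d => tau d p a * tau d p (b - a) * tau d p (y - b))]
  refine tsum_congr fun c => ?_
  rw [Equiv.coe_addRight, add_sub_cancel_right, mul_assoc, sub_sub, add_comm a c]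

lemma T3_cv (p : ℝ) (y : V d) : SH.T3 d p y = cv (tau d p) (cv (tau d p) (tau d p)) y := by
  unfold SH.T3 cv
  refine tsum_congr fun a => ?_
  rw [EndU_inner, ENNReal.tsum_mul_left]

lemma EndU_cv (f g h : V d → ENNReal) (y : V d) :
    cv f (cv g h) y = ∑' a : V d, ∑' c : V d, f a * (g c * h (y - a - c)) := by
  unfold cv
  refine tsum_congr fun a => ?_
  rw [ENNReal.tsum_mul_left]

lemma T3_le_j (p : ℝ) (h0 : 0 ≤ p) (h1 : p ≤ 1) (y : V d) (hy : y ≠ 0) :
    SH.T3 d p y ≤ 3 * jggg d p y := by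
  have hst := tau_step (d := d) p h0 h1
  have hterm : ∀ a c : V d, tau d p a * (tau d p c * tau d p (y - a - c)) ≤
      jc p (tau d p) a * (tau d p c * tau d p (y - a - c)) +
      (tau d p a * (jc p (tau d p) c * tau d p (y - a - c)) +
        tau d p a * (tau d p c * jc p (tau d p) (y - a - c))) := by
    intro a c
    by_cases ha : a = 0
    · by_cases hc : c = 0
      · have h : y - a - c ≠ 0 := by
          rw [ha, hc, sub_zero, sub_zero]
          exact hy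
        refine le_trans ?_ (le_add_left (le_add_left le_rfl))
        exact mul_le_mul' le_rfl (mul_le_mul' le_rfl (hst _ h))
      · refine le_trans ?_ (le_add_left (le_add_right le_rfl))
        exact mul_le_mul' le_rfl (mul_le_mul' (hst c hc) le_rfl)
    · refine le_trans ?_ (le_add_right le_rfl)
      exact mul_le_mul' (hst a ha) le_rfl
  have hsum : SH.T3 d p y ≤ cv (jc p (tau d p)) (cv (tau d p) (tau d p)) y +
      (cv (tau d p) (cv (jc p (tau d p)) (tau d p)) y +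
        cv (tau d p) (cv (tau d p) (jc p (tau d p))) y) := by
    rw [T3_cv, EndU_cv, EndU_cv, EndU_cv, EndU_cv, ← ENNReal.tsum_add, ← ENNReal.tsum_add]
    refine ENNReal.tsum_le_tsum fun a => ?_
    rw [← ENNReal.tsum_add, ← ENNReal.tsum_add]
    exact ENNReal.tsum_le_tsum fun c => hterm a c
  have e3 : cv (tau d p) (cv (tau d p) (jc p (tau d p))) =
      jc p (cv (tau d p) (cv (tau d p) (tau d p))) := by
    rw [jc_cv, jc_cv]
  have e2 : cv (tau d p) (cv (jc p (tau d p)) (tau d p)) =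
      jc p (cv (tau d p) (cv (tau d p) (tau d p))) := by
    rw [cv_comm (jc p (tau d p)) (tau d p), e3]
  have e1 : cv (jc p (tau d p)) (cv (tau d p) (tau d p)) =
      jc p (cv (tau d p) (cv (tau d p) (tau d p))) := by
    rw [cv_comm, cv_assoc, e3]
  have hj : jc p (cv (tau d p) (cv (tau d p) (tau d p))) y ≤ jggg d p y :=
    jc_mono p (fun x => cv_mono (tau_le_gt p) (fun z => cv_mono (tau_le_gt p) (tau_le_gt p) z) x) y
  rw [e1, e2, e3] at hsum
  refine hsum.trans ?_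
  calc jc p (cv (tau d p) (cv (tau d p) (tau d p))) y +
        (jc p (cv (tau d p) (cv (tau d p) (tau d p))) y +
          jc p (cv (tau d p) (cv (tau d p) (tau d p))) y)
      ≤ jggg d p y + (jggg d p y + jggg d p y) := add_le_add hj (add_le_add hj hj)
    _ = 3 * jggg d p y := by ring

lemma EndU_w2 (z : V d) : ENNReal.ofReal (1 + ‖z‖ ^ 2) ≤ (w2 z : ENNReal) := by
  have h : 1 + ‖z‖ ^ 2 ≤ ((w2 z : ℕ) : ℝ) := by
    have h1 : ‖z‖ ^ 2 ≤ ∑ i, ((z i).natAbs : ℝ) ^ 2 := by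
      have h2 : ‖z‖ ≤ Real.sqrt (∑ i, ((z i).natAbs : ℝ) ^ 2) := by
        rw [pi_norm_le_iff_of_nonneg (Real.sqrt_nonneg _)]
        intro i
        refine Real.le_sqrt_of_sq_le ?_
        have h3 : ‖z i‖ = ((z i).natAbs : ℝ) := by
          rw [Int.norm_eq_abs, Nat.cast_natAbs, Int.cast_abs]
        rw [h3]
        exact Finset.single_le_sum (f := fun i => ((z i).natAbs : ℝ) ^ 2)
          (fun j _ => by positivity) (Finset.mem_univ i)
      calc ‖z‖ ^ 2 ≤ Real.sqrt (∑ i, ((z i).natAbs : ℝ) ^ 2) ^ 2 := by gcongr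
        _ = ∑ i, ((z i).natAbs : ℝ) ^ 2 := Real.sq_sqrt (Finset.sum_nonneg fun i _ => by positivity)
    unfold w2
    push_cast
    linarith
  calc ENNReal.ofReal (1 + ‖z‖ ^ 2) ≤ ENNReal.ofReal ((w2 z : ℕ) : ℝ) :=
        ENNReal.ofReal_le_ofReal h
    _ = (w2 z : ENNReal) := ENNReal.ofReal_natCast _

lemma EndU_mom (p : ℝ) : mom d p ≤ ∑' x : V d, gt d p x :=
  ENNReal.tsum_le_tsum fun z => mul_le_mul' (EndU_w2 z) le_rfl

/-- The upper half from the critical estimates. -/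
theorem upper_of_crit (hd : 2 ≤ d)
    (hc : ∀ p : ℝ, 0 ≤ p → p < pcc d → (∀ x, jggg d p x ≤ ENNReal.ofReal (1 / 10000)) ∧
      2 * d * p ≤ 12 / 11 ∧
      ∑' x, gt d p x ≤ ENNReal.ofReal 3 * (∑' x, tau d p x) ^ 2) :
    0 < pcc d ∧ pcc d < 1 ∧ (∀ p : ℝ, 0 ≤ p → p < pcc d → theta d p = 0) ∧
    (∃ A δ : ℝ, 0 < A ∧ 0 < δ ∧ (∀ ε : ℝ, 0 < ε → ε < δ →
      0 < theta d (pcc d + ε) ∧ theta d (pcc d + ε) ≤ A * ε) ∧
      ∀ ε : ℝ, 0 < ε → ε < δ → mom d (pcc d - ε) ≤ ENNReal.ofReal (A / ε ^ 2)) ∧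
    ∃ C δ : ℝ, 0 < C ∧ 0 < δ ∧ ∀ ε : ℝ, 0 < ε → ε < δ → ∀ D : NNReal,
      HasDiffusivity d (pcc d + ε) D → (D : ℝ) ≤ C * ε ^ 2 := by
  have hd1 : 1 ≤ d := by omega
  have hdr : (2 : ℝ) ≤ (d : ℝ) := by exact_mod_cast hd
  have hd0 : (0 : ℝ) < (d : ℝ) := by linarith
  have hge := pcc_ge hd1
  have hpc0 : 0 < pcc d := lt_of_lt_of_le (by positivity) hge
  have hup : pcc d ≤ 6 / (11 * (d : ℝ)) := by
    by_contra hcon
    rw [not_le] at hcon
    have h6 : (0 : ℝ) < 6 / (11 * (d : ℝ)) := by positivity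
    have h2 := (hc ((pcc d + 6 / (11 * (d : ℝ))) / 2) (by linarith) (by linarith)).2.1
    have h3 : 2 * (d : ℝ) * (6 / (11 * (d : ℝ))) = 12 / 11 := by
      field_simp
      norm_num
    have h4 : 2 * (d : ℝ) * (6 / (11 * (d : ℝ))) <
        2 * (d : ℝ) * ((pcc d + 6 / (11 * (d : ℝ))) / 2) :=
      mul_lt_mul_of_pos_left (by linarith) (by positivity)
    linarith
  have hpd : pcc d ≤ 1 / (d : ℝ) := by
    refine hup.trans ?_
    rw [div_le_div_iff₀ (by positivity) hd0]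
    linarith
  have hpc1 : pcc d < 1 := by
    refine lt_of_le_of_lt hpd ?_
    rw [div_lt_one hd0]
    linarith
  have hT : ∀ p : ℝ, 0 ≤ p → p < pcc d → ∀ y : V d, y ≠ 0 →
      SH.T3 d p y ≤ ENNReal.ofReal (3 / 10000) := by
    intro p hp0 hp y hy
    refine (T3_le_j p hp0 (by linarith) y hy).trans ?_
    calc 3 * jggg d p y ≤ 3 * ENNReal.ofReal (1 / 10000) := by
          gcongr
          exact (hc p hp0 hp).1 y
      _ = ENNReal.ofReal (3 / 10000) := by
          have h3 : (3 : ENNReal) = ENNReal.ofReal 3 := by simp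
          rw [h3, ← ENNReal.ofReal_mul (by norm_num)]
          norm_num
  have h40 : 0 < 1 / (4 * (d : ℝ)) := by positivity
  have h14 : 1 / (2 * (d : ℝ)) = 1 / (4 * (d : ℝ)) + 1 / (4 * (d : ℝ)) := by
    field_simp
    norm_num
  obtain ⟨A1, δ1, hA1, hδ1, hθ⟩ := ba_theta hd hpc1 hpd fun p hp4 hp y hy =>
    (hT p (h40.le.trans hp4) hp y hy).trans (ENNReal.ofReal_le_ofReal (by norm_num))
  have hs0 : ∀ s : Dir d, (step s : V d) ≠ 0 := step_ne_zero
  have han := an_bound hd1 fun p hp4 hp s =>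
    (hT p (h40.le.trans hp4) hp (step s) (hs0 s)).trans (ENNReal.ofReal_le_ofReal (by norm_num))
  have hmom : ∀ ε : ℝ, 0 < ε → ε < 1 / (4 * (d : ℝ)) →
      mom d (pcc d - ε) ≤ ENNReal.ofReal (48 / ε ^ 2) := by
    intro ε hε0 hε
    have hp4 : 1 / (4 * (d : ℝ)) ≤ pcc d - ε := by linarith
    have hp0 : 0 ≤ pcc d - ε := h40.le.trans hp4
    have hpp : pcc d - ε < pcc d := by linarith
    have hchi := han (pcc d - ε) hp4 hpp
    rw [sub_sub_cancel] at hchi
    have hx : 4 / ((d : ℝ) * ε) ≤ 4 / ε := by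
      refine div_le_div_of_nonneg_left (by norm_num) hε0 ?_
      nlinarith
    calc mom d (pcc d - ε) ≤ ∑' x : V d, gt d (pcc d - ε) x := EndU_mom _
      _ ≤ ENNReal.ofReal 3 * (∑' x, tau d (pcc d - ε) x) ^ 2 := (hc _ hp0 hpp).2.2
      _ ≤ ENNReal.ofReal 3 * (ENNReal.ofReal (4 / ε)) ^ 2 := by
          gcongr
          exact hchi.trans (ENNReal.ofReal_le_ofReal hx)
      _ = ENNReal.ofReal (48 / ε ^ 2) := by
          rw [← ENNReal.ofReal_pow (by positivity), ← ENNReal.ofReal_mul (by norm_num)]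
          congr 1
          field_simp
          norm_num
  obtain ⟨A, hAdef⟩ : ∃ A : ℝ, A = max A1 48 := ⟨_, rfl⟩
  obtain ⟨δ, hδdef⟩ : ∃ δ : ℝ, δ = min (min δ1 (1 / (4 * (d : ℝ)))) (1 - pcc d) := ⟨_, rfl⟩
  have hA : 0 < A := by
    rw [hAdef]
    exact lt_of_lt_of_le hA1 (le_max_left _ _)
  have hδ : 0 < δ := by
    rw [hδdef]
    exact lt_min (lt_min hδ1 h40) (by linarith)
  have hth : ∀ ε : ℝ, 0 < ε → ε < δ →
      0 < theta d (pcc d + ε) ∧ theta d (pcc d + ε) ≤ A * ε := by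
    intro ε hε0 hε
    rw [hδdef, lt_min_iff, lt_min_iff] at hε
    refine ⟨theta_pos hd1 (by linarith) (by linarith [hε.2]), (hθ ε hε0 hε.1.1).trans ?_⟩
    rw [hAdef]
    gcongr
    exact le_max_left _ _
  have hmm : ∀ ε : ℝ, 0 < ε → ε < δ → mom d (pcc d - ε) ≤ ENNReal.ofReal (A / ε ^ 2) := by
    intro ε hε0 hε
    rw [hδdef, lt_min_iff, lt_min_iff] at hε
    refine (hmom ε hε0 hε.1.2).trans (ENNReal.ofReal_le_ofReal ?_)
    rw [hAdef]
    gcongr
    exact le_max_right _ _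
  exact ⟨hpc0, hpc1, fun p hp0 hp => theta_zero hd1 hp0 hp, ⟨A, δ, hA, hδ, hth, hmm⟩,
    sharp_mean_field d hd1 (pcc d) A δ hpc0 hpc1 hA hδ hth hmm⟩

end H95LE
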