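import Pool.Agent.H95.LE.Def
import Pool.Agent.H95.LBD.BkB
import Pool.Agent.H95.LBD.DecA

/-!
PROJECT LE, JOB LE-MDs. Several edge-disjoint connections: events `MD l`, criterion `WD`, BK bound.
PROOFS. `md_inc`, `md_fw`: `disj_inc`, `disj_fw`, `SCn_inc`, `SCn_fw`. `md_prob`: induction, `bk_inf`, `perc_conn`.
`md_of_wd`: prove by induction on `l`, for all `S`: `WD ω l S` implies that the configuration `ω` with the edges in `S` closed
is in `MD l`; for the step use the colouring `c e := decide (decA_sym e ∈ P.edges)` of the closed configuration and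
`decA_tr` (LBD/DecA: `decA_sym`, `decA_tr`).
-/

namespace H95LE

open H5DF H95LBD MeasureTheory

variable {d : ℕ}

/-- `MD l`: there are edge-disjoint connections for all pairs of the list. -/
def MD : List (V d × V d) → Set (Cfg d)
  | [] => Set.univ
  | q :: l => disj (SCn {q.1} Set.univ q.2) (MD l)

/-- Edge-disjoint open walks for all pairs of the list, avoiding the edges in `S`. -/
def WD (ω : Cfg d) : List (V d × V d) → Set (Sym2 (V d)) → Prop
  | [], _ => True
  | q :: l, S => ∃ P : (G ω).Walk q.1 q.2, (∀ e ∈ P.edges, e ∉ S) ∧ WD ω l (S ∪ {e | e ∈ P.edges})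

lemma md_inc (l : List (V d × V d)) : Inc (MD l) := by
  induction l with
  | nil =>
    intro ω ω' _ _
    exact Set.mem_univ _
  | cons q l ih => exact disj_inc (SCn_inc _ _ _) ih

lemma md_fw (l : List (V d × V d)) : Fw (MD l) := by
  induction l with
  | nil =>
    intro ω _
    exact ⟨0, Set.mem_univ _⟩
  | cons q l ih => exact disj_fw (SCn_inc _ _ _) (md_inc l) (SCn_fw _ _ _) ih

theorem md_prob (p : ℝ) (h0 : 0 ≤ p) (h1 : p ≤ 1) (l : List (V d × V d)) :
    perc d p (MD l) ≤ (l.map fun q => tau d p (q.2 - q.1)).prod := by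
  have hpr := isProb_perc (d := d) p h0 h1
  induction l with
  | nil =>
    rw [List.map_nil, List.prod_nil]
    exact prob_le_one
  | cons q l ih =>
    rw [List.map_cons, List.prod_cons, ← perc_conn p h0 h1 q.1 q.2]
    refine (bk_inf p h0 h1 _ _ (SCn_inc _ _ _) (md_inc l) (SCn_fw _ _ _) (md_fw l)).trans ?_
    exact mul_le_mul' le_rfl ih

open Classical in
/-- The configuration with the edges in `S` closed. -/
noncomputable def MDs_cl (S : Set (Sym2 (V d))) (ω : Cfg d) : Cfg d :=
  fun e => ω e && decide (decA_sym e ∉ S)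

lemma MDs_aux {ω : Cfg d} {l : List (V d × V d)} :
    ∀ {S : Set (Sym2 (V d))}, WD ω l S → MDs_cl S ω ∈ MD l := by
  classical
  induction l with
  | nil =>
    intro S _
    exact Set.mem_univ _
  | cons q l ih =>
    rintro S ⟨P, hP, hl⟩
    refine ⟨fun e => decide (decA_sym e ∈ P.edges), ?_, ?_⟩
    · refine ⟨q.1, Finset.mem_singleton_self _, ?_⟩
      rw [Cn_univ]
      refine decA_tr P ?_
      intro e h1 h2
      simp [MDs_cl, h1, h2, hP _ h2]
    · have h := ih hl
      have he : (fun e => MDs_cl S ω e && !decide (decA_sym e ∈ P.edges)) =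
          MDs_cl (S ∪ {e | e ∈ P.edges}) ω := by
        funext e
        simp only [MDs_cl, Set.mem_union, Set.mem_ofPred_eq, not_or, Bool.decide_and, decide_not,
          Bool.and_assoc]
      rw [he]
      exact h

theorem md_of_wd {ω : Cfg d} {l : List (V d × V d)} (h : WD ω l ∅) : ω ∈ MD l := by
  have h1 := MDs_aux h
  have h2 : MDs_cl ∅ ω = ω := by
    funext e
    simp [MDs_cl]
  rwa [h2] at h1

lemma wd_anti {ω : Cfg d} {l : List (V d × V d)} {S S' : Set (Sym2 (V d))} (hS : S' ⊆ S)
    (h : WD ω l S) : WD ω l S' := by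
  induction l generalizing S S' with
  | nil => trivial
  | cons q l ih =>
    obtain ⟨P, hP, hl⟩ := h
    exact ⟨P, fun e he h => hP e he (hS h), ih (Set.union_subset_union_left _ hS) hl⟩

end H95LE
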