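import Pool.Agent.H95.LE.DetL
import Pool.Agent.H95.LE.MDs
import Pool.Agent.H5.DF.Menger

/-!
PROJECT LE, JOB LE-DetA. The structure of `EE A ω v x` (section 2): a point `t` and a point `z ∈ A` with edge-disjoint walks
`v -> t`, `t -> z`, `z -> x`, `t -> x`.
PROOF. Let `b` be the LAST pivotal edge of `v -> x`, if there is one (the pivotal edge with the largest `(G ω).dist v b.1`, which is
`< dist v x` by `piv_dist`; by `piv_total` every other pivotal edge `b'` then satisfies `Piv ω v b.1 b'`). Put `e = edge b.1 b.2`,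
`t = w = b.1 + step b.2`. In the graph `H = G (del e ω)`: for every edge `g` the point `x` is still reachable from `w` in
`H.deleteEdges {g}`: otherwise `g` is an open edge on all walks `w -> x` of `H`, oriented as `b'` with `b'.1` in the cluster of `w`
without `g`, and then `Piv ω v x b'` and not `Piv ω v b.1 b'`, `b' ≠ b`: contradiction (note that `v -> b.1 -> w` does not use `g`, since the
clusters of `v` and of `w` in `H` are disjoint). `menger_two` with `S = {x}` gives two edge-disjoint walks `Q1`, `Q2` from `w` to `x` in `H`,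
both in the cluster of `w` in `H`. `v -> b.1` inside the cluster of `v` in `H`, then `e`: edge-disjoint from `Q1`, `Q2`. Since `EE`: not
`Thr A ω v b.1`, so `Off A ω v b.1`; if `Q1` avoided `A`, then `Off A ω v x`, contradiction with `Thr A ω v x`. So `Q1` meets `A` in some `z`;
split `Q1` (first made a path, `bypass`) at `z`. If there is no pivotal edge: the same with `t = v` and `H = G ω` (if `x` is not reachable from `v`
without `g`, then `g` is open and pivotal in one orientation). `xi0_two`: for `A = {v}`: a pivotal edge is impossible (`thr_self`), so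
the two walks from `v` to `x`.
-/

namespace H95LE

open H5DF H95LBD MeasureTheory

variable {d : ℕ}

lemma detA_G (ω : Cfg d) (b : V d × Dir d) :
    G (del (edge b.1 b.2) ω) = (G ω).deleteEdges {s(b.1, b.1 + step b.2)} := by
  ext x y
  rw [del_adj, SimpleGraph.deleteEdges_adj, Set.mem_singleton_iff]

/-- If an edge separates, it is pivotal (in one orientation). -/
lemma detA_piv {ω : Cfg d} {u x : V d} (hx : x ∈ cluster ω u) {g : Sym2 (V d)}
    (hg : ¬ ((G ω).deleteEdges {g}).Reachable u x) :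
    ∃ b : V d × Dir d, Piv ω u x b ∧ g = s(b.1, b.1 + step b.2) := by
  obtain ⟨P⟩ : (G ω).Reachable u x := hx
  obtain ⟨d1, -, h1, h2⟩ := P.exists_boundary_dart {y | ((G ω).deleteEdges {g}).Reachable u y}
    (SimpleGraph.Reachable.refl _) hg
  obtain ⟨d2, -, h3, h4⟩ := P.exists_boundary_dart {y | ¬ ((G ω).deleteEdges {g}).Reachable y x} hg
    (fun h => h (SimpleGraph.Reachable.refl _))
  replace h1 : ((G ω).deleteEdges {g}).Reachable u d1.fst := h1
  replace h2 : ¬ ((G ω).deleteEdges {g}).Reachable u d1.snd := h2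
  replace h3 : ¬ ((G ω).deleteEdges {g}).Reachable d2.fst x := h3
  replace h4 : ((G ω).deleteEdges {g}).Reachable d2.snd x := not_not.1 h4
  have e1 : s(d1.fst, d1.snd) = g := by
    by_contra hne
    exact h2 (h1.trans (SimpleGraph.Adj.reachable (SimpleGraph.deleteEdges_adj.2 ⟨d1.adj, hne⟩)))
  have e2 : s(d2.fst, d2.snd) = g := by
    by_contra hne
    exact h3 ((SimpleGraph.Adj.reachable (SimpleGraph.deleteEdges_adj.2 ⟨d2.adj, hne⟩)).trans h4)
  have h5 : ((G ω).deleteEdges {g}).Reachable d1.snd x := by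
    rcases Sym2.eq_iff.1 (e1.trans e2.symm) with ⟨-, h6⟩ | ⟨h6, -⟩
    · rw [h6]
      exact h4
    · exact absurd (h1.trans (by rw [h6]; exact h4)) hg
  obtain ⟨s, hs, ho⟩ := d1.adj
  have e3 : g = s(d1.fst, d1.fst + step s) := by rw [← hs]; exact e1.symm
  have e4 : G (del (edge d1.fst s) ω) = (G ω).deleteEdges {g} := by
    rw [e3]
    exact detA_G ω (d1.fst, s)
  refine ⟨(d1.fst, s), ⟨ho, ?_, ?_, ?_⟩, e3⟩
  · show (G (del (edge d1.fst s) ω)).Reachable u d1.fst
    rw [e4]
    exact h1
  · show ¬ (G (del (edge d1.fst s) ω)).Reachable u (d1.fst + step s)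
    rw [e4, ← hs]
    exact h2
  · show (G (del (edge d1.fst s) ω)).Reachable (d1.fst + step s) x
    rw [e4, ← hs]
    exact h5

lemma detA_two {H : SimpleGraph (V d)} {t x : V d}
    (h : ∀ g : Sym2 (V d), (H.deleteEdges {g}).Reachable t x) :
    ∃ (Q1 Q2 : H.Walk t x), ∀ e ∈ Q1.edges, e ∉ Q2.edges := by
  obtain ⟨s, hs, s', hs', P, Q, hPQ⟩ := menger_two H t {x} (fun g => ⟨x, rfl, h g⟩)
  rw [Set.mem_singleton_iff] at hs hs'
  subst hs
  subst hs'
  exact ⟨P, Q, hPQ⟩

lemma detA_cn {A : Set (V d)} {ω : Cfg d} {t x : V d} (Q : (G ω).Walk t x)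
    (hQ : ∀ z ∈ Q.support, z ∉ A) : Cn Aᶜ ω t x := by
  induction Q with
  | nil => exact Cn.refl _ _ _
  | @cons a b c h Q ih =>
    have h1 : Cn Aᶜ ω b c := ih fun z hz => hQ z (by
      rw [SimpleGraph.Walk.support_cons]
      exact List.mem_cons_of_mem _ hz)
    have ha : a ∈ Aᶜ := hQ a (SimpleGraph.Walk.start_mem_support _)
    have hb : b ∈ Aᶜ := hQ b (by
      rw [SimpleGraph.Walk.support_cons]
      exact List.mem_cons_of_mem _ (SimpleGraph.Walk.start_mem_support _))
    obtain ⟨s, hs, ho⟩ := h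
    rw [hs] at hb h1
    exact (Cn.one ho ha hb).trans h1

/-- The vertices of the edges of a walk belong to the cluster of its start. -/
lemma detA_supp {H : SimpleGraph (V d)} {a c : V d} (Q : H.Walk a c) {e : Sym2 (V d)}
    (he : e ∈ Q.edges) {y : V d} (hy : y ∈ e) : H.Reachable a y := by
  classical
  have h1 : y ∈ Q.support := by
    induction e with
    | h y1 y2 =>
      rcases Sym2.mem_iff.1 hy with rfl | rfl
      · exact Q.fst_mem_support_of_mem_edges he
      · exact Q.snd_mem_support_of_mem_edges he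
  exact (Q.takeUntil y h1).reachable

/-- Splitting the first of two edge-disjoint walks at a point of `A`. -/
lemma detA_core {A : Set (V d)} {ω : Cfg d} {v t x : V d} (P : (G ω).Walk v t)
    (Q1 Q2 : (G ω).Walk t x) (h12 : ∀ e ∈ Q1.edges, e ∉ Q2.edges)
    (hP1 : ∀ e ∈ P.edges, e ∉ Q1.edges) (hP2 : ∀ e ∈ P.edges, e ∉ Q2.edges)
    (hA : ∀ Q : (G ω).Walk t x, ∃ z ∈ Q.support, z ∈ A) :
    ∃ z ∈ A, ∃ t, WD ω [(v, t), (t, z), (z, x), (t, x)] ∅ := by
  classical
  obtain ⟨z, hz, hzA⟩ := hA Q1.bypass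
  have hnd : Q1.bypass.edges.Nodup := (Q1.bypass_isPath).isTrail.edges_nodup
  have hsp : (Q1.bypass.takeUntil z hz).edges ++ (Q1.bypass.dropUntil z hz).edges =
      Q1.bypass.edges := by
    rw [← SimpleGraph.Walk.edges_append, SimpleGraph.Walk.take_spec]
  rw [← hsp] at hnd
  have hdj := (List.nodup_append.1 hnd).2.2
  have hs1 : ∀ e ∈ (Q1.bypass.takeUntil z hz).edges, e ∈ Q1.edges := fun e he =>
    Q1.edges_bypass_subset (by
      rw [← hsp]
      exact List.mem_append_left _ he)
  have hs2 : ∀ e ∈ (Q1.bypass.dropUntil z hz).edges, e ∈ Q1.edges := fun e he =>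
    Q1.edges_bypass_subset (by
      rw [← hsp]
      exact List.mem_append_right _ he)
  refine ⟨z, hzA, t, P, fun e _ he => he, Q1.bypass.takeUntil z hz, ?_,
    Q1.bypass.dropUntil z hz, ?_, Q2, ?_, trivial⟩
  · intro e he he2
    rcases he2 with he2 | he2
    · exact he2
    · exact hP1 e he2 (hs1 e he)
  · intro e he he2
    rcases he2 with (he2 | he2) | he2
    · exact he2
    · exact hP1 e he2 (hs2 e he)
    · exact hdj e he2 e he rfl
  · intro e he he2
    rcases he2 with ((he2 | he2) | he2) | he2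
    · exact he2
    · exact hP2 e he2 he
    · exact h12 e (hs1 e he2) he
    · exact h12 e (hs2 e he2) he

lemma detA_del_le (e : Ed d) (ω : Cfg d) : G (del e ω) ≤ G ω := by
  intro x y h
  obtain ⟨s, h1, h2⟩ := h
  refine ⟨s, h1, ?_⟩
  unfold del at h2
  by_cases h3 : edge x s = e
  · rw [h3, Function.update_self] at h2
    exact absurd h2 (by simp)
  · rwa [Function.update_of_ne h3] at h2

lemma detA_del_mono (e : Ed d) {ω ω' : Cfg d} (h : ∀ g, ω g = true → ω' g = true) :
    G (del e ω) ≤ G (del e ω') := by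
  intro x y h0
  obtain ⟨s, h1, h2⟩ := h0
  refine ⟨s, h1, ?_⟩
  unfold del at h2 ⊢
  by_cases h3 : edge x s = e
  · rw [h3, Function.update_self] at h2
    exact absurd h2 (by simp)
  · rw [Function.update_of_ne h3] at h2 ⊢
    exact h _ h2

/-- The last pivotal edge. -/
lemma detA_last {ω : Cfg d} {v x : V d} (h : ∃ b, Piv ω v x b) :
    ∃ b, Piv ω v x b ∧ ∀ b', Piv ω v x b' → b' = b ∨ Piv ω v b.1 b' := by
  obtain ⟨b0, hb0⟩ := h
  have hne : {b : V d × Dir d | Piv ω v x b}.Nonempty := ⟨b0, hb0⟩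
  set f : V d × Dir d → ℕ := fun b => (G ω).dist v x - (G ω).dist v b.1 with hf
  set b := Function.argminOn f {b | Piv ω v x b} hne with hb
  have hbm : Piv ω v x b := Function.argminOn_mem f {b | Piv ω v x b} hne
  refine ⟨b, hbm, fun b' hb' => ?_⟩
  have hle : f b ≤ f b' := Function.argminOn_le f {b | Piv ω v x b} hb'
  have d1 := piv_dist hbm
  have d2 := piv_dist hb'
  rcases piv_total hbm hb' with h1 | h1 | h1
  · exact Or.inl h1.symm
  · have d3 := piv_dist h1
    simp only [hf] at hle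
    omega
  · exact Or.inr h1

/-- After the last pivotal edge no edge separates. -/
lemma detA_sep {ω : Cfg d} {v x : V d} {b : V d × Dir d} (hb : Piv ω v x b)
    (hl : ∀ b', Piv ω v x b' → b' = b ∨ Piv ω v b.1 b') (g : Sym2 (V d)) :
    ((G (del (edge b.1 b.2) ω)).deleteEdges {g}).Reachable (b.1 + step b.2) x := by
  by_contra hg
  obtain ⟨ho, h1, h2, h3⟩ := hb
  obtain ⟨b', ⟨ho', h1', h2', h3'⟩, -⟩ := detA_piv h3 hg
  set ω1 : Cfg d := del (edge b.1 b.2) ω with hω1
  have hne : edge b'.1 b'.2 ≠ edge b.1 b.2 := by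
    intro h
    rw [h, hω1, del, Function.update_self] at ho'
    exact absurd ho' (by simp)
  have hoω : ω (edge b'.1 b'.2) = true := by
    rw [hω1, del, Function.update_of_ne hne] at ho'
    exact ho'
  have hoe : del (edge b'.1 b'.2) ω (edge b.1 b.2) = true := by
    rw [del, Function.update_of_ne hne.symm]
    exact ho
  have hmono : ∀ g, ω1 g = true → ω g = true := by
    intro g hg
    rw [hω1, del] at hg
    by_cases h4 : g = edge b.1 b.2
    · rw [h4, Function.update_self] at hg
      exact absurd hg (by simp)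
    · rwa [Function.update_of_ne h4] at hg
  have hle : G (del (edge b'.1 b'.2) ω1) ≤ G (del (edge b'.1 b'.2) ω) := detA_del_mono _ hmono
  -- `b'.1` and `w'` are in the cluster of `w` in `ω1`
  have hw1 : (G ω1).Reachable (b.1 + step b.2) b'.1 := h1'.mono (detA_del_le _ _)
  have hw2 : (G ω1).Reachable (b.1 + step b.2) (b'.1 + step b'.2) :=
    hw1.trans (SimpleGraph.Adj.reachable ⟨b'.2, rfl, ho'⟩)
  have h1r : (G ω1).Reachable v b.1 := h1
  have h2r : ¬ (G ω1).Reachable v (b.1 + step b.2) := h2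
  -- `v -> b.1` without `e'`
  have hv1 : (G (del (edge b'.1 b'.2) ω)).Reachable v b.1 := by
    obtain ⟨P⟩ := h1r
    have hPe : s(b'.1, b'.1 + step b'.2) ∉ P.edges := by
      intro he
      have h5 := detA_supp P he (Sym2.mem_mk_left _ _)
      exact h2r (h5.trans hw1.symm)
    refine SimpleGraph.Reachable.mono hle ?_
    rw [detA_G]
    exact ⟨P.toDeleteEdge _ hPe⟩
  have hv2 : (G (del (edge b'.1 b'.2) ω)).Reachable v (b.1 + step b.2) :=
    hv1.trans (SimpleGraph.Adj.reachable ⟨b.2, rfl, hoe⟩)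
  have hv3 : (G (del (edge b'.1 b'.2) ω)).Reachable v b'.1 :=
    hv2.trans (SimpleGraph.Reachable.mono hle h1')
  have hx3 : (G (del (edge b'.1 b'.2) ω)).Reachable (b'.1 + step b'.2) x :=
    SimpleGraph.Reachable.mono hle h3'
  -- the cluster of `v` without `e'`
  have hcl : ∀ y, (G (del (edge b'.1 b'.2) ω)).Reachable v y →
      (G ω1).Reachable v y ∨ (G (del (edge b'.1 b'.2) ω1)).Reachable (b.1 + step b.2) y := by
    intro y hy
    have h' := (SimpleGraph.reachable_iff_reflTransGen v y).1 hy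
    induction h' with
    | refl => exact Or.inl (SimpleGraph.Reachable.refl _)
    | @tail y z h5 h6 ih =>
      have hyr := (SimpleGraph.reachable_iff_reflTransGen v y).2 h5
      have ih := ih hyr
      by_cases he : s(y, z) = s(b.1, b.1 + step b.2)
      · rcases Sym2.eq_iff.1 he with ⟨-, h7⟩ | ⟨-, h7⟩
        · rw [h7]
          exact Or.inr (SimpleGraph.Reachable.refl _)
        · rw [h7]
          exact Or.inl h1r
      · rw [del_adj] at h6
        have h8 : (G ω1).Adj y z := by
          rw [hω1, del_adj]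
          exact ⟨h6.1, he⟩
        rcases ih with ih | ih
        · exact Or.inl (ih.trans (SimpleGraph.Adj.reachable h8))
        · exact Or.inr (ih.trans (SimpleGraph.Adj.reachable (del_adj.2 ⟨h8, h6.2⟩)))
  have hnw : ¬ (G (del (edge b'.1 b'.2) ω)).Reachable v (b'.1 + step b'.2) := by
    intro h5
    rcases hcl _ h5 with h6 | h6
    · exact h2r (h6.trans hw2.symm)
    · exact h2' h6
  have hpiv : Piv ω v x b' := ⟨hoω, hv3, hnw, hx3⟩
  rcases hl b' hpiv with h5 | h5
  · exact hne (by rw [h5])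
  · exact hnw (hv1.trans (SimpleGraph.Reachable.symm h5.2.2.2))

lemma detA_nopiv {ω : Cfg d} {v x : V d} (hx : x ∈ cluster ω v) (h : ¬ ∃ b, Piv ω v x b)
    (g : Sym2 (V d)) : ((G ω).deleteEdges {g}).Reachable v x := by
  by_contra hg
  obtain ⟨b, hb, -⟩ := detA_piv hx hg
  exact h ⟨b, hb⟩

theorem ee_dec {A : Set (V d)} {ω : Cfg d} {v x : V d} (h : EE A ω v x) :
    ∃ z ∈ A, ∃ t, WD ω [(v, t), (t, z), (z, x), (t, x)] ∅ := by
  obtain ⟨⟨hx, hoff⟩, hE⟩ := h
  by_cases hp : ∃ b, Piv ω v x b
  · obtain ⟨b, hb, hl⟩ := detA_last hp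
    obtain ⟨Q1, Q2, hQ⟩ := detA_two (detA_sep hb hl)
    have hb0 := hb
    obtain ⟨ho, h1, h2, h3⟩ := hb
    have hle := detA_del_le (edge b.1 b.2) ω
    obtain ⟨P0⟩ : (G (del (edge b.1 b.2) ω)).Reachable v b.1 := h1
    have hadj : (G ω).Adj b.1 (b.1 + step b.2) := ⟨b.2, rfl, ho⟩
    set P : (G ω).Walk v (b.1 + step b.2) :=
      (P0.mapLe hle).append (SimpleGraph.Walk.cons hadj SimpleGraph.Walk.nil) with hP
    have hPe : ∀ e ∈ P.edges, e ∈ P0.edges ∨ e = s(b.1, b.1 + step b.2) := by
      intro e he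
      rw [hP, SimpleGraph.Walk.edges_append, SimpleGraph.Walk.edges_mapLe_eq_edges,
        SimpleGraph.Walk.edges_cons, SimpleGraph.Walk.edges_nil, List.mem_append,
        List.mem_singleton] at he
      exact he
    have hPQ : ∀ (Q : (G (del (edge b.1 b.2) ω)).Walk (b.1 + step b.2) x), ∀ e ∈ P.edges,
        e ∉ (Q.mapLe hle).edges := by
      intro Q e he he2
      rw [SimpleGraph.Walk.edges_mapLe_eq_edges] at he2
      rcases hPe e he with h5 | h5
      · induction e with
        | h y1 y2 =>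
          have h6 := detA_supp P0 h5 (Sym2.mem_mk_left y1 y2)
          have h7 := detA_supp Q he2 (Sym2.mem_mk_left y1 y2)
          exact h2 (h6.trans h7.symm)
      · have h6 := Q.edges_subset_edgeSet he2
        rw [h5, SimpleGraph.mem_edgeSet, del_adj] at h6
        exact h6.2 rfl
    refine detA_core P (Q1.mapLe hle) (Q2.mapLe hle) ?_ (hPQ Q1) (hPQ Q2) ?_
    · intro e he he2
      rw [SimpleGraph.Walk.edges_mapLe_eq_edges] at he he2
      exact hQ e he he2
    · intro Q
      by_contra hno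
      push Not at hno
      have hbc : b.1 ∈ cluster ω v := SimpleGraph.Reachable.mono hle P0.reachable
      have hOb : Off A ω v b.1 := by
        by_contra h5
        exact hE b hb0 ⟨hbc, h5⟩
      have hbA : b.1 ∈ Aᶜ := hOb.2.mem hOb.1
      have hwA : b.1 + step b.2 ∈ Aᶜ := hno _ Q.start_mem_support
      exact hoff ⟨hOb.1, (hOb.2.trans (Cn.one ho hbA hwA)).trans (detA_cn Q hno)⟩
  · obtain ⟨Q1, Q2, hQ⟩ := detA_two (detA_nopiv hx hp)
    refine detA_core (SimpleGraph.Walk.nil : (G ω).Walk v v) Q1 Q2 hQ (by simp) (by simp) ?_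
    intro Q
    by_contra hno
    push Not at hno
    exact hoff ⟨hno _ Q.start_mem_support, detA_cn Q hno⟩

theorem ee_two {ω : Cfg d} {v x : V d} (h : EE {v} ω v x) : WD ω [(v, x), (v, x)] ∅ := by
  obtain ⟨⟨hx, -⟩, hE⟩ := h
  have hp : ¬ ∃ b, Piv ω v x b := by
    rintro ⟨b, hb⟩
    exact hE b hb ⟨SimpleGraph.Reachable.mono (detA_del_le _ _) hb.2.1, fun h => h.1 rfl⟩
  obtain ⟨Q1, Q2, hQ⟩ := detA_two (detA_nopiv hx hp)
  refine ⟨Q1, fun e _ he => he, Q2, ?_, trivial⟩
  intro e he he2
  rcases he2 with he2 | he2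
  · exact he2
  · exact hQ e he2 he

end H95LE
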