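import Pool.Agent.H95.LE.DetA
import Pool.Agent.H95.LBD.DecA

/-!
PROJECT LE, JOB LE-DetB. The structure of `EE A ω v x` with one more point `y` in the cluster of `v` (section 2).
PROOF. Take the four walks of `ee_dec`, made into paths (`bypass`; edges of the bypass are edges of the walk). A walk from `y` to `v` has a first
vertex `a` in the union `U` of the four supports (`decA_first` in LBD/DecA): the part `y -> a` has no edge with both ends in `U`, so it is
edge-disjoint from the four paths. `a` is on one of the four paths; split this path at `a` (`takeUntil`, `dropUntil`; the two parts of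
a path are edge-disjoint).
-/

namespace H95LE

open H5DF H95LBD MeasureTheory

variable {d : ℕ}

/-- A path splits at a vertex into two edge-disjoint walks. -/
lemma DetB_split {α : Type*} {H : SimpleGraph α} {u w a : α} (P : H.Walk u w) (hP : P.IsPath)
    (ha : a ∈ P.support) : ∃ (T : H.Walk u a) (D : H.Walk a w),
      (∀ e ∈ T.edges, e ∈ P.edges) ∧ (∀ e ∈ D.edges, e ∈ P.edges) ∧
        (∀ e ∈ D.edges, e ∉ T.edges) := by
  classical
  have hspec := P.take_spec ha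
  have hnd : ((P.takeUntil a ha).edges ++ (P.dropUntil a ha).edges).Nodup := by
    rw [← SimpleGraph.Walk.edges_append, hspec]
    exact hP.isTrail.edges_nodup
  refine ⟨P.takeUntil a ha, P.dropUntil a ha, ?_, ?_, ?_⟩
  · intro e he
    rw [← hspec, SimpleGraph.Walk.edges_append]
    exact List.mem_append_left _ he
  · intro e he
    rw [← hspec, SimpleGraph.Walk.edges_append]
    exact List.mem_append_right _ he
  · intro e he he'
    exact (List.disjoint_of_nodup_append hnd) he' he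

/-- Four edge-disjoint paths. -/
lemma DetB_paths {ω : Cfg d} {v x t z : V d} (h : WD ω [(v, t), (t, z), (z, x), (t, x)] ∅) :
    ∃ (P1 : (G ω).Walk v t) (P2 : (G ω).Walk t z) (P3 : (G ω).Walk z x) (P4 : (G ω).Walk t x),
      P1.IsPath ∧ P2.IsPath ∧ P3.IsPath ∧ P4.IsPath ∧
      (∀ e ∈ P2.edges, e ∉ P1.edges) ∧ (∀ e ∈ P3.edges, e ∉ P1.edges) ∧
      (∀ e ∈ P4.edges, e ∉ P1.edges) ∧ (∀ e ∈ P3.edges, e ∉ P2.edges) ∧
      (∀ e ∈ P4.edges, e ∉ P2.edges) ∧ (∀ e ∈ P4.edges, e ∉ P3.edges) := by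
  classical
  obtain ⟨P1, -, P2, h2, P3, h3, P4, h4, -⟩ := h
  have b1 : ∀ e ∈ P1.bypass.edges, e ∈ P1.edges := fun e he => P1.edges_bypass_subset_edges he
  have b2 : ∀ e ∈ P2.bypass.edges, e ∈ P2.edges := fun e he => P2.edges_bypass_subset_edges he
  have b3 : ∀ e ∈ P3.bypass.edges, e ∈ P3.edges := fun e he => P3.edges_bypass_subset_edges he
  have b4 : ∀ e ∈ P4.bypass.edges, e ∈ P4.edges := fun e he => P4.edges_bypass_subset_edges he
  refine ⟨P1.bypass, P2.bypass, P3.bypass, P4.bypass, P1.bypass_isPath, P2.bypass_isPath,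
    P3.bypass_isPath, P4.bypass_isPath, ?_, ?_, ?_, ?_, ?_, ?_⟩
  · intro e he he'
    exact h2 e (b2 e he) (Or.inr (b1 e he'))
  · intro e he he'
    exact h3 e (b3 e he) (Or.inl (Or.inr (b1 e he')))
  · intro e he he'
    exact h4 e (b4 e he) (Or.inl (Or.inl (Or.inr (b1 e he'))))
  · intro e he he'
    exact h3 e (b3 e he) (Or.inr (b2 e he'))
  · intro e he he'
    exact h4 e (b4 e he) (Or.inl (Or.inr (b2 e he')))
  · intro e he he'
    exact h4 e (b4 e he) (Or.inr (b3 e he'))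

/-- Six edge-disjoint walks. -/
lemma DetB_six {ω : Cfg d} {u1 w1 u2 w2 u3 w3 u4 w4 u5 w5 u6 w6 : V d}
    (Q1 : (G ω).Walk u1 w1) (Q2 : (G ω).Walk u2 w2) (Q3 : (G ω).Walk u3 w3)
    (Q4 : (G ω).Walk u4 w4) (Q5 : (G ω).Walk u5 w5) (Q6 : (G ω).Walk u6 w6)
    (h2 : ∀ e ∈ Q2.edges, e ∉ Q1.edges)
    (h3 : ∀ e ∈ Q3.edges, e ∉ Q1.edges ∧ e ∉ Q2.edges)
    (h4 : ∀ e ∈ Q4.edges, e ∉ Q1.edges ∧ e ∉ Q2.edges ∧ e ∉ Q3.edges)
    (h5 : ∀ e ∈ Q5.edges, e ∉ Q1.edges ∧ e ∉ Q2.edges ∧ e ∉ Q3.edges ∧ e ∉ Q4.edges)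
    (h6 : ∀ e ∈ Q6.edges, e ∉ Q1.edges ∧ e ∉ Q2.edges ∧ e ∉ Q3.edges ∧ e ∉ Q4.edges ∧
      e ∉ Q5.edges) :
    WD ω [(u1, w1), (u2, w2), (u3, w3), (u4, w4), (u5, w5), (u6, w6)] ∅ := by
  refine ⟨Q1, ?_, Q2, ?_, Q3, ?_, Q4, ?_, Q5, ?_, Q6, ?_, trivial⟩
  · intro e _ he
    exact he
  · rintro e he (h | h)
    · exact h
    · exact h2 e he h
  · rintro e he ((h | h) | h)
    · exact h
    · exact (h3 e he).1 h
    · exact (h3 e he).2 h
  · rintro e he (((h | h) | h) | h)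
    · exact h
    · exact (h4 e he).1 h
    · exact (h4 e he).2.1 h
    · exact (h4 e he).2.2 h
  · rintro e he ((((h | h) | h) | h) | h)
    · exact h
    · exact (h5 e he).1 h
    · exact (h5 e he).2.1 h
    · exact (h5 e he).2.2.1 h
    · exact (h5 e he).2.2.2 h
  · rintro e he (((((h | h) | h) | h) | h) | h)
    · exact h
    · exact (h6 e he).1 h
    · exact (h6 e he).2.1 h
    · exact (h6 e he).2.2.1 h
    · exact (h6 e he).2.2.2.1 h
    · exact (h6 e he).2.2.2.2 h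

theorem ee_leg {A : Set (V d)} {ω : Cfg d} {v x y : V d} (h : EE A ω v x)
    (hy : y ∈ cluster ω v) : ∃ z ∈ A, ∃ t a,
      WD ω [(v, a), (a, t), (a, y), (t, z), (z, x), (t, x)] ∅ ∨
      WD ω [(v, t), (t, a), (a, z), (a, y), (z, x), (t, x)] ∅ ∨
      WD ω [(v, t), (t, z), (z, a), (a, x), (a, y), (t, x)] ∅ ∨
      WD ω [(v, t), (t, z), (z, x), (t, a), (a, x), (a, y)] ∅ := by
  classical
  obtain ⟨z, hz, t, hW⟩ := ee_dec h
  obtain ⟨P1, P2, P3, P4, i1, i2, i3, i4, h21, h31, h41, h32, h42, h43⟩ := DetB_paths hW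
  have hR0 : (G ω).Reachable v y := hy
  obtain ⟨Q⟩ := SimpleGraph.Reachable.symm hR0
  obtain ⟨a, ha, R', hR'⟩ := decA_first {c | c ∈ P1.support ∨ c ∈ P2.support ∨ c ∈ P3.support ∨
    c ∈ P4.support} Q (Or.inl P1.start_mem_support)
  obtain ⟨R, hRe⟩ : ∃ R : (G ω).Walk a y, ∀ e ∈ R.edges, ∃ c ∈ e, ¬ (c ∈ P1.support ∨
      c ∈ P2.support ∨ c ∈ P3.support ∨ c ∈ P4.support) := by
    refine ⟨R'.reverse, fun e he => ?_⟩
    rw [SimpleGraph.Walk.edges_reverse, List.mem_reverse] at he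
    exact hR' e he
  have r1 : ∀ e ∈ R.edges, e ∉ P1.edges := by
    intro e he he'
    obtain ⟨c, hc, hcS⟩ := hRe e he
    exact hcS (Or.inl (SimpleGraph.Walk.mem_support_of_mem_edges he' hc))
  have r2 : ∀ e ∈ R.edges, e ∉ P2.edges := by
    intro e he he'
    obtain ⟨c, hc, hcS⟩ := hRe e he
    exact hcS (Or.inr (Or.inl (SimpleGraph.Walk.mem_support_of_mem_edges he' hc)))
  have r3 : ∀ e ∈ R.edges, e ∉ P3.edges := by
    intro e he he'
    obtain ⟨c, hc, hcS⟩ := hRe e he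
    exact hcS (Or.inr (Or.inr (Or.inl (SimpleGraph.Walk.mem_support_of_mem_edges he' hc))))
  have r4 : ∀ e ∈ R.edges, e ∉ P4.edges := by
    intro e he he'
    obtain ⟨c, hc, hcS⟩ := hRe e he
    exact hcS (Or.inr (Or.inr (Or.inr (SimpleGraph.Walk.mem_support_of_mem_edges he' hc))))
  refine ⟨z, hz, t, a, ?_⟩
  rcases ha with ha | ha | ha | ha
  · obtain ⟨T, D, hT, hD, hTD⟩ := DetB_split P1 i1 ha
    refine Or.inl (DetB_six T D R P2 P3 P4 hTD ?_ ?_ ?_ ?_)
    · exact fun e he => ⟨fun h => r1 e he (hT e h), fun h => r1 e he (hD e h)⟩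
    · exact fun e he => ⟨fun h => h21 e he (hT e h), fun h => h21 e he (hD e h),
        fun h => r2 e h he⟩
    · exact fun e he => ⟨fun h => h31 e he (hT e h), fun h => h31 e he (hD e h),
        fun h => r3 e h he, h32 e he⟩
    · exact fun e he => ⟨fun h => h41 e he (hT e h), fun h => h41 e he (hD e h),
        fun h => r4 e h he, h42 e he, h43 e he⟩
  · obtain ⟨T, D, hT, hD, hTD⟩ := DetB_split P2 i2 ha
    refine Or.inr (Or.inl (DetB_six P1 T D R P3 P4 ?_ ?_ ?_ ?_ ?_))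
    · exact fun e he => h21 e (hT e he)
    · exact fun e he => ⟨h21 e (hD e he), hTD e he⟩
    · exact fun e he => ⟨r1 e he, fun h => r2 e he (hT e h), fun h => r2 e he (hD e h)⟩
    · exact fun e he => ⟨h31 e he, fun h => h32 e he (hT e h), fun h => h32 e he (hD e h),
        fun h => r3 e h he⟩
    · exact fun e he => ⟨h41 e he, fun h => h42 e he (hT e h), fun h => h42 e he (hD e h),
        fun h => r4 e h he, h43 e he⟩
  · obtain ⟨T, D, hT, hD, hTD⟩ := DetB_split P3 i3 ha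
    refine Or.inr (Or.inr (Or.inl (DetB_six P1 P2 T D R P4 h21 ?_ ?_ ?_ ?_)))
    · exact fun e he => ⟨h31 e (hT e he), h32 e (hT e he)⟩
    · exact fun e he => ⟨h31 e (hD e he), h32 e (hD e he), hTD e he⟩
    · exact fun e he => ⟨r1 e he, r2 e he, fun h => r3 e he (hT e h), fun h => r3 e he (hD e h)⟩
    · exact fun e he => ⟨h41 e he, h42 e he, fun h => h43 e he (hT e h),
        fun h => h43 e he (hD e h), fun h => r4 e h he⟩
  · obtain ⟨T, D, hT, hD, hTD⟩ := DetB_split P4 i4 ha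
    refine Or.inr (Or.inr (Or.inr (DetB_six P1 P2 P3 T D R h21 ?_ ?_ ?_ ?_)))
    · exact fun e he => ⟨h31 e he, h32 e he⟩
    · exact fun e he => ⟨h41 e (hT e he), h42 e (hT e he), h43 e (hT e he)⟩
    · exact fun e he => ⟨h41 e (hD e he), h42 e (hD e he), h43 e (hD e he), hTD e he⟩
    · exact fun e he => ⟨r1 e he, r2 e he, r3 e he, fun h => r4 e he (hT e h),
        fun h => r4 e he (hD e h)⟩

end H95LE
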