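import Pool.Agent.H95.LE.PivA

/-!
PROJECT LE, JOB LE-DetL. The decomposition of `Thr` by the first pivotal edge after `A` (section 1, (Det)).
PROOFS. `thr_dec`: strong induction on `(G ω).dist v x`. If `Thr A ω v x` and not `EE A ω v x`, there is `b` with `Piv ω v x b` and
`Thr A ω v b.1`; `dist v b.1 < dist v x` (`piv_dist`); induction: `EE A ω v b.1` (done with `b`) or `b'` with `Piv ω v b.1 b'`,
`EE A ω v b'.1`, and `piv_trans`. `thr_of_piv`: `piv_mem`, `piv_off`. `ee_excl`: `EE A ω v b.1` gives `Thr A ω v b.1`.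
`ee_uniq`: by `piv_total` otherwise `Piv ω v b'.1 b` (say), and `Thr A ω v b.1` contradicts `EE A ω v b'.1`.
-/

namespace H95LE

open H5DF H95LBD MeasureTheory

variable {d : ℕ}

theorem thr_dec {A : Set (V d)} {ω : Cfg d} {v x : V d} (h : Thr A ω v x) :
    EE A ω v x ∨ ∃ b, Piv ω v x b ∧ EE A ω v b.1 := by
  have key : ∀ n : ℕ, ∀ x : V d, (G ω).dist v x = n → Thr A ω v x →
      EE A ω v x ∨ ∃ b, Piv ω v x b ∧ EE A ω v b.1 := by
    intro n
    induction n using Nat.strong_induction_on with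
    | _ n ih =>
      intro x hn hx
      by_cases hE : EE A ω v x
      · exact Or.inl hE
      · have hex : ∃ b, Piv ω v x b ∧ Thr A ω v b.1 := by
          by_contra hne
          exact hE ⟨hx, fun b hb ht => hne ⟨b, hb, ht⟩⟩
        obtain ⟨b, hb, ht⟩ := hex
        have hlt : (G ω).dist v b.1 < n := by
          rw [← hn]
          exact piv_dist hb
        rcases ih _ hlt b.1 rfl ht with h1 | ⟨b', hb', h2⟩
        · exact Or.inr ⟨b, hb, h1⟩
        · exact Or.inr ⟨b', piv_trans hb hb', h2⟩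
  exact key _ x rfl h

theorem thr_of_piv {A : Set (V d)} {ω : Cfg d} {v x : V d} {b : V d × Dir d} (h : Piv ω v x b)
    (hb : EE A ω v b.1) : Thr A ω v x := by
  exact ⟨piv_mem h, fun hoff => hb.1.2 (piv_off h hoff)⟩

theorem ee_excl {A : Set (V d)} {ω : Cfg d} {v x : V d} {b : V d × Dir d} (h : Piv ω v x b)
    (hb : EE A ω v b.1) : ¬ EE A ω v x := by
  exact fun hx => hx.2 b h hb.1

theorem ee_uniq {A : Set (V d)} {ω : Cfg d} {v x : V d} {b b' : V d × Dir d} (h : Piv ω v x b)
    (hb : EE A ω v b.1) (h' : Piv ω v x b') (hb' : EE A ω v b'.1) : b = b' := by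
  rcases piv_total h h' with h1 | h1 | h1
  · exact h1
  · exact absurd hb.1 (hb'.2 b h1)
  · exact absurd hb'.1 (hb.2 b' h1)

end H95LE
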