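import Pool.Agent.H95.LE.Fac
import Pool.Agent.H95.LE.DetL

/-!
PROJECT LE, JOB LE-ExpZ. The first step of the expansion (section 1).
PROOF. `perc {Thr A v x} = perc {EE A v x} + sum'_b perc {Piv v x b ∧ EE A v b.1}` (`thr_dec`, `thr_of_piv`, `ee_excl`, `ee_uniq`,
measurability in `MeasE`). `perc {Piv ∧ EE} = sum'_B perc {cluster (del e ω) v = B ∧ Piv ∧ EE}` because the cluster is a.s. finite
(`ae_fin`, `cluster_del_sub`), then `fac`. `Rn p 1 A v x = Op p (Rn p 0) A v x` is the same sum with `Thr` for `Off`; add with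
`conn_split`; `sum'_B PE p A v b B = perc {EE A v b.1} = Xi p 0 A v b.1` (finite clusters again).
-/

namespace H95LE

open H5DF H95LBD MeasureTheory

variable {d : ℕ}

/-- Splitting an event by the (finite) cluster of `v` without the edge `b`. -/
lemma expZ_split (p : ℝ) (h0 : 0 ≤ p) (h1 : p ≤ 1) (hfin : ∑' x, tau d p x ≠ ⊤)
    (v : V d) (b : V d × Dir d) (E : Set (Cfg d)) (hE : MeasurableSet E) :
    ∑' B : Finset (V d), perc d p ({ω | cluster (del (edge b.1 b.2) ω) v = (B : Set (V d))} ∩ E) =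
      perc d p E := by
  rw [← measure_iUnion]
  · refine measure_congr ?_
    filter_upwards [ae_fin p h0 h1 hfin v] with ω hω
    refine propext ⟨fun h => ?_, fun h => ?_⟩
    · obtain ⟨B, hB⟩ := Set.mem_iUnion.1 h
      exact hB.2
    · have hf : (cluster (del (edge b.1 b.2) ω) v).Finite := hω.subset (cluster_del_sub b ω v)
      refine Set.mem_iUnion.2 ⟨hf.toFinset, ?_, h⟩
      simp
  · intro B B' hBB
    refine Set.disjoint_left.2 fun ω hω hω' => hBB ?_
    have h2 : (B : Set (V d)) = (B' : Set (V d)) := by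
      rw [← hω.1, ← hω'.1]
    exact Finset.coe_injective h2
  · intro B
    exact (meas_delc b v _).inter hE

theorem pe_sum (p : ℝ) (h0 : 0 ≤ p) (h1 : p ≤ 1) (hfin : ∑' x, tau d p x ≠ ⊤) (A : Finset (V d))
    (v : V d) (b : V d × Dir d) : ∑' B : Finset (V d), PE p A v b B = Xi p 0 A v b.1 :=
  expZ_split p h0 h1 hfin v b {ω | EE (A : Set (V d)) ω v b.1} (meas_EE _ _ _)

/-- The decomposition of `Thr` by the first pivotal edge after `A`. -/
lemma expZ_thr (p : ℝ) (A : Finset (V d)) (v x : V d) :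
    Rn p 0 A v x = Xi p 0 A v x + ∑' b : V d × Dir d,
      perc d p {ω | Piv ω v x b ∧ EE (A : Set (V d)) ω v b.1} := by
  have hU : {ω : Cfg d | Thr (A : Set (V d)) ω v x} = {ω | EE (A : Set (V d)) ω v x} ∪
      ⋃ b : V d × Dir d, {ω | Piv ω v x b ∧ EE (A : Set (V d)) ω v b.1} := by
    ext ω
    simp only [Set.mem_setOf_eq, Set.mem_union, Set.mem_iUnion]
    constructor
    · intro h
      exact thr_dec h
    · rintro (h | ⟨b, hb, hE⟩)
      · exact h.1
      · exact thr_of_piv hb hE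
  have hm : ∀ b : V d × Dir d,
      MeasurableSet {ω : Cfg d | Piv ω v x b ∧ EE (A : Set (V d)) ω v b.1} :=
    fun b => (meas_Piv v x b).inter (meas_EE _ _ _)
  show perc d p {ω | Thr (A : Set (V d)) ω v x} = perc d p {ω | EE (A : Set (V d)) ω v x} + _
  rw [hU, measure_union _ (MeasurableSet.iUnion hm), measure_iUnion _ hm]
  · intro b b' hbb
    refine Set.disjoint_left.2 fun ω hω hω' => hbb ?_
    exact ee_uniq hω.1 hω.2 hω'.1 hω'.2
  · refine Set.disjoint_left.2 fun ω hω hω' => ?_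
    obtain ⟨b, hb⟩ := Set.mem_iUnion.1 hω'
    exact ee_excl hb.1 hb.2 hω

theorem exp_zero (p : ℝ) (h0 : 0 ≤ p) (h1 : p ≤ 1) (hfin : ∑' x, tau d p x ≠ ⊤)
    (A : Finset (V d)) (v x : V d) :
    Rn p 0 A v x + Rn p 1 A v x = Xi p 0 A v x +
      ∑' b : V d × Dir d, ENNReal.ofReal p * (Xi p 0 A v b.1 * tau d p (x - (b.1 + step b.2))) := by
  rw [expZ_thr, add_assoc]
  congr 1
  have hR : Rn p 1 A v x = ∑' b : V d × Dir d, ENNReal.ofReal p * ∑' B : Finset (V d),
      PE p A v b B * perc d p {ω | Thr (B : Set (V d)) ω (b.1 + step b.2) x} := rfl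
  rw [hR, ← ENNReal.tsum_add]
  refine tsum_congr fun b => ?_
  have hs := expZ_split p h0 h1 hfin v b {ω | Piv ω v x b ∧ EE (A : Set (V d)) ω v b.1}
    ((meas_Piv v x b).inter (meas_EE _ _ _))
  have hf : ∀ B : Finset (V d), perc d p ({ω | cluster (del (edge b.1 b.2) ω) v = (B : Set (V d))} ∩
      {ω | Piv ω v x b ∧ EE (A : Set (V d)) ω v b.1}) =
      ENNReal.ofReal p * (PE p A v b B *
        perc d p {ω | Off (B : Set (V d)) ω (b.1 + step b.2) x}) :=
    fun B => fac p h0 h1 A v x b B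
  rw [← hs, tsum_congr hf, ENNReal.tsum_mul_left, ← mul_add, ← ENNReal.tsum_add]
  congr 1
  rw [← pe_sum p h0 h1 hfin A v b, ← ENNReal.tsum_mul_right]
  refine tsum_congr fun B => ?_
  rw [← mul_add, conn_split p h0 h1]

end H95LE
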