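import Pool.Agent.H95.LE.Loc

/-!
PROJECT LE, JOB LE-Fac. Factorisation (section 1, (Fac)).
PROOF. If `w := b.1 + step b.2 ∈ B` both sides vanish (`Piv` says `w ∉ cluster (del e ω) v`; `Off B ω w x` is false). If `w ∉ B`:
on `cluster (del e ω) v = B` and `EE A ω v b.1` one has `b.1 ∈ B` (otherwise `cluster ω v = B` and `b.1 ∉ cluster ω v`), and then
`Piv ω v x b ↔ ω e = true ∧ Off B ω w x` (the cluster of `w` without `e` does not meet `B`, so connections from `w` without `e`
are connections off `B`; conversely a connection off `B` does not use `e`). If `b.1 ∉ B` both sides are `0`. Three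
independent events: (1) `cluster (del e ω) v = B ∧ EE` depends on `touch B \ {e}` (`pe_dep`); (2) `ω e = true`, probability `p`
(`bern_coord`, `bern_true`); (3) `Off B ω w x` depends on the edges with both ends off `B` (`Cn.congr`). `indep_split` twice.
-/

namespace H95LE

open H5DF H95LBD MeasureTheory

variable {d : ℕ}

lemma fac_del_ne {e e' : Ed d} (h : e' ≠ e) (ω : Cfg d) : del e ω e' = ω e' := by
  rw [del, Function.update_of_ne h]

lemma fac_del_true {e e' : Ed d} {ω : Cfg d} (h : del e ω e' = true) : ω e' = true ∧ e' ≠ e := by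
  by_cases he : e' = e
  · rw [he, del, Function.update_self] at h
    exact absurd h (by simp)
  · rw [fac_del_ne he] at h
    exact ⟨h, he⟩

/-- Edges with both ends off `B` do not touch `B`. -/
lemma fac_ins_touch {B : Set (V d)} {e : Ed d} (h : e ∈ ins Bᶜ) : e ∉ touch B := by
  rintro (h' | h')
  · exact h.1 h'
  · exact h.2 h'

/-- If neither end of the removed edge is in `B`, the cluster is not changed. -/
lemma fac_out {ω : Cfg d} {v : V d} {b : V d × Dir d} {B : Set (V d)}
    (hB : cluster (del (edge b.1 b.2) ω) v = B) (hb : b.1 ∉ B) (hw : b.1 + step b.2 ∉ B) :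
    cluster ω v = B := by
  refine cluster_congr hB fun u hu s => ?_
  apply fac_del_ne
  intro he
  exact edge_notMem_touch hb hw (he ▸ edge_mem_touch hu s)

/-- Connections from `w` without `e` are connections off `B`. -/
lemma fac_conn {ω : Cfg d} {v x : V d} {b : V d × Dir d} {B : Set (V d)}
    (hB : cluster (del (edge b.1 b.2) ω) v = B) (hb : b.1 ∈ B) (hw : b.1 + step b.2 ∉ B) :
    x ∈ cluster (del (edge b.1 b.2) ω) (b.1 + step b.2) ↔ Cn Bᶜ ω (b.1 + step b.2) x := by
  constructor
  · intro h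
    have hoff : ∀ y, y ∈ cluster (del (edge b.1 b.2) ω) (b.1 + step b.2) → y ∉ B := by
      intro y hy hyB
      apply hw
      rw [← hB] at hyB ⊢
      exact SimpleGraph.Reachable.trans hyB (SimpleGraph.Reachable.symm hy)
    have h' := Cn_univ.2 h
    refine Cn.ind (fun y => Cn Bᶜ ω (b.1 + step b.2) y) (Cn.refl _ _ _) ?_ h'
    intro y s hc hy _ _ ho
    have hyc : y ∈ cluster (del (edge b.1 b.2) ω) (b.1 + step b.2) := Cn_univ.1 hc
    have hyc' : y + step s ∈ cluster (del (edge b.1 b.2) ω) (b.1 + step b.2) :=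
      SimpleGraph.Reachable.trans hyc (adj_of_open ho).reachable
    exact hy.trans (Cn.one (fac_del_true ho).1 (hoff _ hyc) (hoff _ hyc'))
  · intro h
    refine Cn.cluster (S := Bᶜ) (h.congr fun e he => ?_)
    have hne : e ≠ edge b.1 b.2 := by
      intro h1
      exact fac_ins_touch he (h1 ▸ edge_mem_touch hb b.2)
    exact (fac_del_ne hne ω).symm

theorem fac (p : ℝ) (h0 : 0 ≤ p) (h1 : p ≤ 1) (A : Finset (V d)) (v x : V d) (b : V d × Dir d)
    (B : Finset (V d)) :
    perc d p {ω | cluster (del (edge b.1 b.2) ω) v = (B : Set (V d)) ∧ Piv ω v x b ∧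
      EE (A : Set (V d)) ω v b.1} =
      ENNReal.ofReal p * (PE p A v b B * perc d p {ω | Off (B : Set (V d)) ω (b.1 + step b.2) x}) := by
  by_cases hw : b.1 + step b.2 ∈ (B : Set (V d))
  · have e1 : {ω : Cfg d | cluster (del (edge b.1 b.2) ω) v = (B : Set (V d)) ∧ Piv ω v x b ∧
        EE (A : Set (V d)) ω v b.1} = ∅ := by
      ext ω
      simp only [Set.mem_ofPred_eq, Set.mem_empty_iff_false, iff_false]
      rintro ⟨hB, hP, -⟩
      exact hP.2.2.1 (by rw [hB]; exact hw)
    have e2 : {ω : Cfg d | Off (B : Set (V d)) ω (b.1 + step b.2) x} = ∅ := by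
      ext ω
      simp only [Set.mem_ofPred_eq, Set.mem_empty_iff_false, iff_false]
      exact fun h => h.1 hw
    rw [e1, e2, measure_empty, mul_zero, mul_zero]
  by_cases hb : b.1 ∈ (B : Set (V d))
  · -- the main case
    let E1 : Set (Cfg d) :=
      {ω | cluster (del (edge b.1 b.2) ω) v = (B : Set (V d)) ∧ EE (A : Set (V d)) ω v b.1}
    let E2 : Set (Cfg d) := {ω | ω (edge b.1 b.2) = true}
    let E3 : Set (Cfg d) := {ω | Off (B : Set (V d)) ω (b.1 + step b.2) x}
    have hm1 : MeasurableSet E1 := (meas_delc b v _).inter (meas_EE _ v b.1)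
    have hm2 : MeasurableSet E2 := by
      have hm : Measurable fun ω : Cfg d => ω (edge b.1 b.2) := measurable_pi_apply _
      exact hm (MeasurableSet.of_discrete (s := ({true} : Set Bool)))
    have hm3 : MeasurableSet E3 := meas_Off _ _ _
    have hset : {ω : Cfg d | cluster (del (edge b.1 b.2) ω) v = (B : Set (V d)) ∧ Piv ω v x b ∧
        EE (A : Set (V d)) ω v b.1} = E3 ∩ (E1 ∩ E2) := by
      ext ω
      constructor
      · rintro ⟨hB, hP, hE⟩
        exact ⟨⟨hw, (fac_conn hB hb hw).1 hP.2.2.2⟩, ⟨hB, hE⟩, hP.1⟩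
      · rintro ⟨hO, ⟨hB, hE⟩, ho⟩
        refine ⟨hB, ⟨ho, ?_, ?_, ?_⟩, hE⟩
        · rw [hB]
          exact hb
        · rw [hB]
          exact hw
        · exact (fac_conn hB hb hw).2 hO.2
    have hi1 : perc d p (E3 ∩ (E1 ∩ E2)) = perc d p E3 * perc d p (E1 ∩ E2) := by
      refine indep_split (ι := Ed d) h0 h1 (touch (B : Set (V d))) (E1 ∩ E2) E3 (hm1.inter hm2) hm3
        ?_ ?_
      · rintro ω ω' h ⟨hE1, hE2⟩
        refine ⟨pe_dep hw (fun e he _ => h e he) hE1, ?_⟩
        exact (h _ (edge_mem_touch hb b.2)).symm.trans hE2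
      · rintro ω ω' h ⟨-, hO⟩
        exact ⟨hw, hO.congr fun e he => h e (fac_ins_touch he)⟩
    have hi2 : perc d p (E1 ∩ E2) = perc d p E1 * perc d p E2 := by
      refine indep_split (ι := Ed d) h0 h1 {edge b.1 b.2} E2 E1 hm2 hm1 ?_ ?_
      · intro ω ω' h hE2
        exact (h _ rfl).symm.trans hE2
      · intro ω ω' h hE1
        exact pe_dep hw (fun e _ he => h e he) hE1
    have hp2 : perc d p E2 = ENNReal.ofReal p :=
      (bern_coord (ι := Ed d) h0 h1 (edge b.1 b.2) true).trans (bern_true p)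
    rw [hset, hi1, hi2, hp2]
    change perc d p E3 * (perc d p E1 * ENNReal.ofReal p) =
      ENNReal.ofReal p * (perc d p E1 * perc d p E3)
    ring
  · have e1 : {ω : Cfg d | cluster (del (edge b.1 b.2) ω) v = (B : Set (V d)) ∧ Piv ω v x b ∧
        EE (A : Set (V d)) ω v b.1} = ∅ := by
      ext ω
      simp only [Set.mem_ofPred_eq, Set.mem_empty_iff_false, iff_false]
      rintro ⟨hB, hP, -⟩
      exact hb (by rw [← hB]; exact hP.2.1)
    have e2 : {ω : Cfg d | cluster (del (edge b.1 b.2) ω) v = (B : Set (V d)) ∧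
        EE (A : Set (V d)) ω v b.1} = ∅ := by
      ext ω
      simp only [Set.mem_ofPred_eq, Set.mem_empty_iff_false, iff_false]
      rintro ⟨hB, hE⟩
      apply hb
      rw [← fac_out hB hb hw]
      exact hE.1.1
    rw [e1, PE, e2, measure_empty, zero_mul, mul_zero]

end H95LE
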