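import Pool.Agent.H95.LE.PrA

/-!
PROJECT LE, JOB LE-WRec. Weighted sums of `Xi p n A v x` over `x` (section 2).
PROOF. `g := gt d p`, `w := w2`. `n = 0`: `xi0_le`, `w (x - v) <= 2 w (t - v) w (x - t)`, so the summand is
`<= 2 g (t-v) g (z-t) g (x-z) g (x-t)`; sum over `x`: `sum_two`; then `t - v` as new variable and `Hn p g 0 (z - v)`.
`n + 1`: `sum'_x w (x-v) Xi (n+1) A v x = sum'_b p sum'_B PE p A v b B sum'_x w (x-v) Xi n B w' x`, `w' = b.1 + step b.2`;
`w (x-v) <= 2 w (w'-v) w (x-w')`, induction: `<= 2 w (w'-v) sum_{z' in B} Hn n (z'-w')`; `sum'_B PE p A v b B sum_{z' in B} f z'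
<= sum'_z' f z' perc {EE A v b.1 ∧ z' ∈ cluster ω v}` (disjoint events in `B`, `cluster_del_sub`); `leg_le`; `w (w'-v) <= 4 w (b.1 - v)` and
`4 w (u - v) L4 (tau) v z u z' <= 16 L4 g v z u z'` (`w (u-v) <= 4 w w w` along `v,a,t,u` in `T1`, along `v,t,a,u` in `T4`, and `<= 2 w w`
along `v,t,u` in `T2`, `T3`; the other lines `tau <= g`). Translation invariance: `L4 g v z u z' = L4 g 0 (z-v) (u-v) (z'-v)` and
reindex `b`, `z'` by `v`.
-/

namespace H95LE

open H5DF H95LBD MeasureTheory

variable {d : ℕ}

lemma WRec_w2 (x y : V d) : (w2 (x + y) : ENNReal) ≤ 2 * w2 x * w2 y := by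
  exact_mod_cast w2_add x y

lemma WRec_w3 (x y z : V d) : (w2 (x + y + z) : ENNReal) ≤ 4 * w2 x * w2 y * w2 z := by
  calc (w2 (x + y + z) : ENNReal) ≤ 2 * w2 (x + y) * w2 z := WRec_w2 _ _
    _ ≤ 2 * (2 * w2 x * w2 y) * w2 z := by gcongr; exact WRec_w2 _ _
    _ = 4 * w2 x * w2 y * w2 z := by ring

theorem l4_shift (g : V d → ENNReal) (v z u y : V d) :
    L4 g v z u y = L4 g 0 (z - v) (u - v) (y - v) := by
  have hs : ∀ (F : V d → V d → ENNReal), ∑' t, ∑' a, F t a = ∑' t, ∑' a, F (t + v) (a + v) := by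
    intro F
    rw [← (Equiv.addRight v).tsum_eq (fun t => ∑' a, F t a)]
    refine tsum_congr fun t => ?_
    rw [← (Equiv.addRight v).tsum_eq (fun a => F _ a)]
    rfl
  have e1 : ∀ t : V d, t + v - v = t - 0 := fun t => by abel
  have e2 : ∀ t a : V d, t + v - (a + v) = t - a := fun t a => by abel
  have e3 : ∀ t x : V d, x - (t + v) = x - v - t := fun t x => by abel
  have e4 : ∀ t x : V d, t + v - x = t - (x - v) := fun t x => by abel
  have e5 : ∀ x y : V d, x - y = x - v - (y - v) := fun x y => by abel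
  have h1 : T1 g v z u y = T1 g 0 (z - v) (u - v) (y - v) := by
    unfold T1
    rw [hs]
    refine tsum_congr fun t => tsum_congr fun a => ?_
    rw [e1, e2, e3, e3, e3, e5 u z]
  have h2 : T2 g v z u y = T2 g 0 (z - v) (u - v) (y - v) := by
    unfold T2
    rw [hs]
    refine tsum_congr fun t => tsum_congr fun a => ?_
    rw [e1, e2, e3, e3, e3, e5 u z]
  have h3 : T3 g v z u y = T3 g 0 (z - v) (u - v) (y - v) := by
    unfold T3
    rw [hs]
    refine tsum_congr fun t => tsum_congr fun a => ?_
    rw [e1, e4, e3, e3, e3, e3]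
  have h4 : T4 g v z u y = T4 g 0 (z - v) (u - v) (y - v) := by
    unfold T4
    rw [hs]
    refine tsum_congr fun t => tsum_congr fun a => ?_
    rw [e1, e2, e3, e3, e3, e5 u z]
  unfold L4
  rw [h1, h2, h3, h4]

lemma WRec_three {W W1 W2 W3 x1 x2 x3 y y' z z' u u' : ENNReal} (hW : W ≤ 4 * W1 * W2 * W3)
    (hy : y ≤ y') (hz : z ≤ z') (hu : u ≤ u') :
    W * (x1 * (x2 * (x3 * (y * (z * u))))) ≤
      4 * ((W1 * x1) * ((W2 * x2) * ((W3 * x3) * (y' * (z' * u'))))) := by
  calc W * (x1 * (x2 * (x3 * (y * (z * u))))) ≤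
      (4 * W1 * W2 * W3) * (x1 * (x2 * (x3 * (y' * (z' * u'))))) := by gcongr
    _ = _ := by ring

lemma WRec_two {W W1 W2 x1 x2 y y' z z' u u' s s' : ENNReal} (hW : W ≤ 2 * W1 * W2)
    (hy : y ≤ y') (hz : z ≤ z') (hu : u ≤ u') (hs : s ≤ s') :
    W * (x1 * (x2 * (s * (y * (z * u))))) ≤
      4 * ((W1 * x1) * ((W2 * x2) * (s' * (y' * (z' * u'))))) := by
  calc W * (x1 * (x2 * (s * (y * (z * u))))) ≤
      (2 * W1 * W2) * (x1 * (x2 * (s' * (y' * (z' * u'))))) := by gcongr
    _ ≤ (4 * W1 * W2) * (x1 * (x2 * (s' * (y' * (z' * u'))))) := by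
        gcongr
        norm_num
    _ = _ := by ring

theorem l4_w (p : ℝ) (v z u y : V d) :
    (w2 (u - v) : ENNReal) * L4 (tau d p) v z u y ≤ 4 * L4 (gt d p) v z u y := by
  have ht : ∀ x : V d, tau d p x ≤ gt d p x := tau_le_gt p
  have key : ∀ (F G : V d → V d → ENNReal),
      (∀ t a, (w2 (u - v) : ENNReal) * F t a ≤ 4 * G t a) →
      (w2 (u - v) : ENNReal) * ∑' t, ∑' a, F t a ≤ 4 * ∑' t, ∑' a, G t a := by
    intro F G h
    rw [← ENNReal.tsum_mul_left, ← ENNReal.tsum_mul_left]
    refine ENNReal.tsum_le_tsum fun t => ?_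
    rw [← ENNReal.tsum_mul_left, ← ENNReal.tsum_mul_left]
    exact ENNReal.tsum_le_tsum fun a => h t a
  have p3 : ∀ a t : V d, (w2 (u - v) : ENNReal) ≤ 4 * w2 (a - v) * w2 (t - a) * w2 (u - t) := by
    intro a t
    have h := WRec_w3 (a - v) (t - a) (u - t)
    have e : a - v + (t - a) + (u - t) = u - v := by abel
    rwa [e] at h
  have p2 : ∀ t : V d, (w2 (u - v) : ENNReal) ≤ 2 * w2 (t - v) * w2 (u - t) := by
    intro t
    have h := WRec_w2 (t - v) (u - t)
    have e : t - v + (u - t) = u - v := by abel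
    rwa [e] at h
  have h1 : (w2 (u - v) : ENNReal) * T1 (tau d p) v z u y ≤ 4 * T1 (gt d p) v z u y := by
    refine key _ _ fun t a => ?_
    have h := WRec_three (x1 := tau d p (a - v)) (x2 := tau d p (t - a)) (x3 := tau d p (u - t))
      (p3 a t) (ht (y - a)) (ht (z - t)) (ht (u - z))
    calc _ = (w2 (u - v) : ENNReal) * (tau d p (a - v) * (tau d p (t - a) * (tau d p (u - t) *
          (tau d p (y - a) * (tau d p (z - t) * tau d p (u - z)))))) := by ring
      _ ≤ _ := h
      _ = _ := by
          unfold gt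
          ring
  have h2 : (w2 (u - v) : ENNReal) * T2 (tau d p) v z u y ≤ 4 * T2 (gt d p) v z u y := by
    refine key _ _ fun t a => ?_
    have h := WRec_two (x1 := tau d p (t - v)) (x2 := tau d p (u - t))
      (p2 t) (ht (a - t)) (ht (z - a)) (ht (y - a)) (ht (u - z))
    calc _ = (w2 (u - v) : ENNReal) * (tau d p (t - v) * (tau d p (u - t) * (tau d p (u - z) *
          (tau d p (a - t) * (tau d p (z - a) * tau d p (y - a)))))) := by ring
      _ ≤ _ := h
      _ = _ := by
          unfold gt
          ring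
  have h3 : (w2 (u - v) : ENNReal) * T3 (tau d p) v z u y ≤ 4 * T3 (gt d p) v z u y := by
    refine key _ _ fun t a => ?_
    have h := WRec_two (x1 := tau d p (t - v)) (x2 := tau d p (u - t))
      (p2 t) (ht (z - t)) (ht (a - z)) (ht (u - a)) (ht (y - a))
    calc _ = (w2 (u - v) : ENNReal) * (tau d p (t - v) * (tau d p (u - t) * (tau d p (y - a) *
          (tau d p (z - t) * (tau d p (a - z) * tau d p (u - a)))))) := by ring
      _ ≤ _ := h
      _ = _ := by
          unfold gt
          ring
  have h4 : (w2 (u - v) : ENNReal) * T4 (tau d p) v z u y ≤ 4 * T4 (gt d p) v z u y := by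
    refine key _ _ fun t a => ?_
    have p4 : (w2 (u - v) : ENNReal) ≤ 4 * w2 (t - v) * w2 (a - t) * w2 (u - a) := p3 t a
    have h := WRec_three (x1 := tau d p (t - v)) (x2 := tau d p (a - t)) (x3 := tau d p (u - a))
      p4 (ht (z - t)) (ht (u - z)) (ht (y - a))
    calc _ = (w2 (u - v) : ENNReal) * (tau d p (t - v) * (tau d p (a - t) * (tau d p (u - a) *
          (tau d p (z - t) * (tau d p (u - z) * tau d p (y - a)))))) := by ring
      _ ≤ _ := h
      _ = _ := by
          unfold gt
          ring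
  unfold L4
  calc (w2 (u - v) : ENNReal) * (T1 (tau d p) v z u y + T2 (tau d p) v z u y +
        T3 (tau d p) v z u y + T4 (tau d p) v z u y)
      = (w2 (u - v) : ENNReal) * T1 (tau d p) v z u y + (w2 (u - v) : ENNReal) * T2 (tau d p) v z u y +
        (w2 (u - v) : ENNReal) * T3 (tau d p) v z u y +
        (w2 (u - v) : ENNReal) * T4 (tau d p) v z u y := by ring
    _ ≤ 4 * T1 (gt d p) v z u y + 4 * T2 (gt d p) v z u y + 4 * T3 (gt d p) v z u y +
        4 * T4 (gt d p) v z u y := by gcongr
    _ = _ := by ring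

lemma WRec_B (p : ℝ) (A : Finset (V d)) (v : V d) (b : V d × Dir d) (f : V d → ENNReal) :
    ∑' B : Finset (V d), PE p A v b B * ∑ z ∈ B, f z ≤
      ∑' z, f z * perc d p {ω | EE (A : Set (V d)) ω v b.1 ∧ z ∈ cluster ω v} := by
  classical
  have h1 : ∀ B : Finset (V d), PE p A v b B * ∑ z ∈ B, f z =
      ∑' z, f z * (if z ∈ B then PE p A v b B else 0) := by
    intro B
    rw [tsum_eq_sum (s := B) (fun z hz => by rw [if_neg hz, mul_zero]), Finset.mul_sum]
    refine Finset.sum_congr rfl fun z hz => ?_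
    rw [if_pos hz, mul_comm]
  rw [tsum_congr h1, ENNReal.tsum_comm]
  refine ENNReal.tsum_le_tsum fun z => ?_
  rw [ENNReal.tsum_mul_left]
  refine mul_le_mul' le_rfl ?_
  have h2 : ∀ B : Finset (V d), (if z ∈ B then PE p A v b B else 0) =
      perc d p {ω | z ∈ B ∧ cluster (del (edge b.1 b.2) ω) v = (B : Set (V d)) ∧
        EE (A : Set (V d)) ω v b.1} := by
    intro B
    by_cases hz : z ∈ B
    · rw [if_pos hz]
      unfold PE
      refine congrArg _ ?_
      ext ω
      exact ⟨fun h => ⟨hz, h⟩, fun h => h.2⟩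
    · rw [if_neg hz]
      have h3 : {ω : Cfg d | z ∈ B ∧ cluster (del (edge b.1 b.2) ω) v = (B : Set (V d)) ∧
        EE (A : Set (V d)) ω v b.1} = ∅ := by
        rw [Set.eq_empty_iff_forall_notMem]
        intro ω h
        exact hz h.1
      rw [h3, measure_empty]
  rw [tsum_congr h2, ← measure_iUnion]
  · refine measure_mono ?_
    intro ω hω
    obtain ⟨B, hzB, hB, hE⟩ := Set.mem_iUnion.1 hω
    refine ⟨hE, cluster_del_sub b ω v ?_⟩
    rw [hB]
    exact Finset.mem_coe.2 hzB
  · intro B B' hBB'
    show Disjoint _ _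
    rw [Set.disjoint_left]
    intro ω h h'
    apply hBB'
    have := h.2.1.symm.trans h'.2.1
    exact_mod_cast this
  · intro B
    have h3 : {ω : Cfg d | z ∈ B ∧ cluster (del (edge b.1 b.2) ω) v = (B : Set (V d)) ∧
        EE (A : Set (V d)) ω v b.1} = {ω : Cfg d | z ∈ B} ∩
        ({ω : Cfg d | cluster (del (edge b.1 b.2) ω) v = (B : Set (V d))} ∩
        {ω : Cfg d | EE (A : Set (V d)) ω v b.1}) := rfl
    rw [h3]
    exact (MeasurableSet.const _).inter ((meas_delc b v _).inter (meas_EE _ _ _))

lemma WRec_zero (p : ℝ) (h0 : 0 ≤ p) (h1 : p ≤ 1) (A : Finset (V d)) (v : V d) :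
    ∑' x, (w2 (x - v) : ENNReal) * Xi p 0 A v x ≤ ∑ z ∈ A, Hn p (gt d p) 0 (z - v) := by
  have ht : ∀ x : V d, tau d p x ≤ gt d p x := tau_le_gt p
  have hev : ∀ x : V d, gt d p (-x) = gt d p x := gt_neg p h0 h1
  have key : ∀ x, (w2 (x - v) : ENNReal) * Xi p 0 A v x ≤
      ∑ z ∈ A, ∑' t, 2 * (gt d p (t - v) * (gt d p (z - t) * (gt d p (x - z) * gt d p (x - t)))) := by
    intro x
    calc (w2 (x - v) : ENNReal) * Xi p 0 A v x
        ≤ (w2 (x - v) : ENNReal) * ∑ z ∈ A, ∑' t, tau d p (t - v) *
          (tau d p (z - t) * (tau d p (x - z) * tau d p (x - t))) :=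
          mul_le_mul' le_rfl (xi0_le p h0 h1 A v x)
      _ = ∑ z ∈ A, ∑' t, (w2 (x - v) : ENNReal) * (tau d p (t - v) *
          (tau d p (z - t) * (tau d p (x - z) * tau d p (x - t)))) := by
          rw [Finset.mul_sum]
          refine Finset.sum_congr rfl fun z _ => ?_
          rw [ENNReal.tsum_mul_left]
      _ ≤ _ := by
          refine Finset.sum_le_sum fun z _ => ENNReal.tsum_le_tsum fun t => ?_
          have h := WRec_w2 (t - v) (x - t)
          have e : t - v + (x - t) = x - v := by abel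
          rw [e] at h
          calc (w2 (x - v) : ENNReal) * (tau d p (t - v) *
                (tau d p (z - t) * (tau d p (x - z) * tau d p (x - t))))
              ≤ (2 * w2 (t - v) * w2 (x - t)) * (tau d p (t - v) *
                (gt d p (z - t) * (gt d p (x - z) * tau d p (x - t)))) := by
                have e1 := ht (z - t)
                have e2 := ht (x - z)
                gcongr
            _ = 2 * ((w2 (t - v) * tau d p (t - v)) *
                (gt d p (z - t) * (gt d p (x - z) * (w2 (x - t) * tau d p (x - t))))) := by ring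
            _ = _ := rfl
  calc ∑' x, (w2 (x - v) : ENNReal) * Xi p 0 A v x
      ≤ ∑' x, ∑ z ∈ A, ∑' t, 2 * (gt d p (t - v) * (gt d p (z - t) *
        (gt d p (x - z) * gt d p (x - t)))) := ENNReal.tsum_le_tsum key
    _ = ∑ z ∈ A, ∑' x, ∑' t, 2 * (gt d p (t - v) * (gt d p (z - t) *
        (gt d p (x - z) * gt d p (x - t)))) := by
        rw [Summable.tsum_finsetSum fun _ _ => ENNReal.summable]
    _ = ∑ z ∈ A, Hn p (gt d p) 0 (z - v) := by
        refine Finset.sum_congr rfl fun z _ => ?_
        rw [ENNReal.tsum_comm]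
        have h2 : ∀ t : V d, ∑' x, 2 * (gt d p (t - v) * (gt d p (z - t) *
            (gt d p (x - z) * gt d p (x - t)))) = 2 * (gt d p (t - v) * (gt d p (z - t) *
            cv (gt d p) (gt d p) (z - t))) := by
          intro t
          rw [ENNReal.tsum_mul_left, ENNReal.tsum_mul_left, ENNReal.tsum_mul_left,
            sum_two hev z t]
          have e : t - z = -(z - t) := by abel
          rw [e, cv_even hev hev]
        rw [tsum_congr h2, ← (Equiv.addRight v).tsum_eq]
        unfold Hn
        rw [← ENNReal.tsum_mul_left]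
        refine tsum_congr fun t => ?_
        have e1 : (Equiv.addRight v) t - v = t := by
          show t + v - v = t
          abel
        have e2 : z - (Equiv.addRight v) t = z - v - t := by
          show z - (t + v) = z - v - t
          abel
        rw [e1, e2]

theorem w_rec (p : ℝ) (h0 : 0 ≤ p) (h1 : p ≤ 1) (n : ℕ) (A : Finset (V d)) (v : V d) :
    ∑' x, (w2 (x - v) : ENNReal) * Xi p n A v x ≤ ∑ z ∈ A, Hn p (gt d p) n (z - v) := by
  induction n generalizing A v with
  | zero => exact WRec_zero p h0 h1 A v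
  | succ n ih =>
    -- one set `B`
    have hB : ∀ (b : V d × Dir d) (B : Finset (V d)),
        ∑' x, (w2 (x - v) : ENNReal) * Xi p n B (b.1 + step b.2) x ≤
          (8 * w2 (b.1 - v)) * ∑ z ∈ B, Hn p (gt d p) n (z - (b.1 + step b.2)) := by
      intro b B
      set w' : V d := b.1 + step b.2 with hw'
      have hww : (w2 (w' - v) : ENNReal) ≤ 4 * w2 (b.1 - v) := by
        have h := WRec_w2 (b.1 - v) (step b.2)
        have e : b.1 - v + step b.2 = w' - v := by rw [hw']; abel
        rw [e, w2_step] at h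
        refine h.trans (le_of_eq ?_)
        push_cast
        ring
      calc ∑' x, (w2 (x - v) : ENNReal) * Xi p n B w' x
          ≤ ∑' x, (2 * w2 (w' - v)) * ((w2 (x - w') : ENNReal) * Xi p n B w' x) := by
            refine ENNReal.tsum_le_tsum fun x => ?_
            have h := WRec_w2 (w' - v) (x - w')
            have e : w' - v + (x - w') = x - v := by abel
            rw [e] at h
            calc (w2 (x - v) : ENNReal) * Xi p n B w' x
                ≤ (2 * w2 (w' - v) * w2 (x - w')) * Xi p n B w' x := by gcongr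
              _ = _ := by ring
        _ = (2 * w2 (w' - v)) * ∑' x, (w2 (x - w') : ENNReal) * Xi p n B w' x :=
            ENNReal.tsum_mul_left
        _ ≤ (2 * (4 * w2 (b.1 - v))) * ∑ z ∈ B, Hn p (gt d p) n (z - w') := by
            have h := ih B w'
            gcongr
        _ = _ := by ring
    -- one edge `b`
    have hb : ∀ b : V d × Dir d,
        ∑' x, (w2 (x - v) : ENNReal) * (ENNReal.ofReal p * ∑' B : Finset (V d),
          PE p A v b B * Xi p n B (b.1 + step b.2) x) ≤
        ∑ z ∈ A, ∑' z', 32 * (ENNReal.ofReal p * (L4 (gt d p) v z b.1 z' *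
          Hn p (gt d p) n (z' - (b.1 + step b.2)))) := by
      intro b
      set w' : V d := b.1 + step b.2 with hw'
      calc ∑' x, (w2 (x - v) : ENNReal) * (ENNReal.ofReal p * ∑' B : Finset (V d),
            PE p A v b B * Xi p n B w' x)
          = ENNReal.ofReal p * ∑' B : Finset (V d), PE p A v b B *
            ∑' x, (w2 (x - v) : ENNReal) * Xi p n B w' x := by
            rw [← ENNReal.tsum_mul_left]
            have e1 : ∀ x, (w2 (x - v) : ENNReal) * (ENNReal.ofReal p * ∑' B : Finset (V d),
                PE p A v b B * Xi p n B w' x) = ∑' B : Finset (V d), ENNReal.ofReal p *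
                (PE p A v b B * ((w2 (x - v) : ENNReal) * Xi p n B w' x)) := by
              intro x
              rw [← mul_assoc, ← ENNReal.tsum_mul_left]
              refine tsum_congr fun B => ?_
              ring
            rw [tsum_congr e1, ENNReal.tsum_comm]
            refine tsum_congr fun B => ?_
            rw [ENNReal.tsum_mul_left, ENNReal.tsum_mul_left]
        _ ≤ ENNReal.ofReal p * ∑' B : Finset (V d), PE p A v b B *
            ((8 * w2 (b.1 - v)) * ∑ z ∈ B, Hn p (gt d p) n (z - w')) := by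
            refine mul_le_mul' le_rfl (ENNReal.tsum_le_tsum fun B => mul_le_mul' le_rfl ?_)
            exact hB b B
        _ = ENNReal.ofReal p * ((8 * w2 (b.1 - v)) * ∑' B : Finset (V d), PE p A v b B *
            ∑ z ∈ B, Hn p (gt d p) n (z - w')) := by
            refine congrArg _ ?_
            rw [← ENNReal.tsum_mul_left]
            refine tsum_congr fun B => ?_
            ring
        _ ≤ ENNReal.ofReal p * ((8 * w2 (b.1 - v)) * ∑' z', Hn p (gt d p) n (z' - w') *
            perc d p {ω | EE (A : Set (V d)) ω v b.1 ∧ z' ∈ cluster ω v}) := by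
            refine mul_le_mul' le_rfl (mul_le_mul' le_rfl ?_)
            exact WRec_B p A v b fun z' => Hn p (gt d p) n (z' - w')
        _ ≤ ENNReal.ofReal p * ((8 * w2 (b.1 - v)) * ∑' z', Hn p (gt d p) n (z' - w') *
            ∑ z ∈ A, L4 (tau d p) v z b.1 z') := by
            refine mul_le_mul' le_rfl (mul_le_mul' le_rfl (ENNReal.tsum_le_tsum fun z' =>
              mul_le_mul' le_rfl ?_))
            exact leg_le p h0 h1 A v b.1 z'
        _ = ∑' z', ∑ z ∈ A, ENNReal.ofReal p * (8 * (((w2 (b.1 - v) : ENNReal) *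
            L4 (tau d p) v z b.1 z') * Hn p (gt d p) n (z' - w'))) := by
            rw [← ENNReal.tsum_mul_left, ← ENNReal.tsum_mul_left]
            refine tsum_congr fun z' => ?_
            rw [Finset.mul_sum, Finset.mul_sum, Finset.mul_sum]
            refine Finset.sum_congr rfl fun z _ => ?_
            ring
        _ ≤ ∑' z', ∑ z ∈ A, 32 * (ENNReal.ofReal p * (L4 (gt d p) v z b.1 z' *
            Hn p (gt d p) n (z' - w'))) := by
            refine ENNReal.tsum_le_tsum fun z' => Finset.sum_le_sum fun z _ => ?_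
            calc ENNReal.ofReal p * (8 * (((w2 (b.1 - v) : ENNReal) *
                  L4 (tau d p) v z b.1 z') * Hn p (gt d p) n (z' - w')))
                ≤ ENNReal.ofReal p * (8 * ((4 * L4 (gt d p) v z b.1 z') *
                  Hn p (gt d p) n (z' - w'))) := by
                  have h := l4_w p v z b.1 z'
                  gcongr
              _ = _ := by ring
        _ = _ := by
            rw [Summable.tsum_finsetSum fun _ _ => ENNReal.summable]
    calc ∑' x, (w2 (x - v) : ENNReal) * Xi p (n + 1) A v x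
        = ∑' x, ∑' b : V d × Dir d, (w2 (x - v) : ENNReal) * (ENNReal.ofReal p *
          ∑' B : Finset (V d), PE p A v b B * Xi p n B (b.1 + step b.2) x) := by
          refine tsum_congr fun x => ?_
          rw [ENNReal.tsum_mul_left]
          rfl
      _ = ∑' b : V d × Dir d, ∑' x, (w2 (x - v) : ENNReal) * (ENNReal.ofReal p *
          ∑' B : Finset (V d), PE p A v b B * Xi p n B (b.1 + step b.2) x) := ENNReal.tsum_comm
      _ ≤ ∑' b : V d × Dir d, ∑ z ∈ A, ∑' z', 32 * (ENNReal.ofReal p *
          (L4 (gt d p) v z b.1 z' * Hn p (gt d p) n (z' - (b.1 + step b.2)))) :=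
          ENNReal.tsum_le_tsum hb
      _ = ∑ z ∈ A, ∑' b : V d × Dir d, ∑' z', 32 * (ENNReal.ofReal p *
          (L4 (gt d p) v z b.1 z' * Hn p (gt d p) n (z' - (b.1 + step b.2)))) := by
          rw [Summable.tsum_finsetSum fun _ _ => ENNReal.summable]
      _ = ∑ z ∈ A, Hn p (gt d p) (n + 1) (z - v) := by
          refine Finset.sum_congr rfl fun z _ => ?_
          show _ = 32 * St p (L4 (gt d p)) (Hn p (gt d p) n) (z - v)
          unfold St
          rw [← ENNReal.tsum_mul_left,
            ← ((Equiv.addRight v).prodCongr (Equiv.refl (Dir d))).tsum_eq]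
          refine tsum_congr fun b => ?_
          rw [← ENNReal.tsum_mul_left, ← (Equiv.addRight v).tsum_eq]
          refine tsum_congr fun z' => ?_
          have e0 : ((Equiv.addRight v).prodCongr (Equiv.refl (Dir d))) b = (b.1 + v, b.2) := rfl
          have e1 : (Equiv.addRight v) z' = z' + v := rfl
          rw [e0, e1, l4_shift (gt d p) v z (b.1 + v) (z' + v)]
          have e2 : b.1 + v - v = b.1 := by abel
          have e3 : z' + v - v = z' := by abel
          have e4 : z' + v - ((b.1 + v) + step b.2) = z' - (b.1 + step b.2) := by abel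
          rw [e2, e3, e4]

end H95LE
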