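import Pool.Agent.H95.LE.HT1
import Pool.Agent.H95.LE.HT2
import Pool.Agent.H95.LE.HT3
import Pool.Agent.H95.LE.HT4
import Pool.Agent.H95.LE.WRec

/-!
PROJECT LE, JOB LE-HN. The sums of the coefficients (section 2).
PROOF. `dm_zero`: `Hn p g 0 y = 2 sum'_c g (y-c) (g c * cv g g c)` (reindex `t = y - c`), mass `2 cv g (cv g g) 0 <= 2 g4` (`le_cv`). `dm_n`: induction with
`ht1..ht4`, `dm_add`, `dm_mul` (`St` is additive in the diagram). `xi_sum`: `w_rec` with `A = {0}`, `v = 0`, then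
`Hn p g n 0 <= sum'_c g c b c <= (sup g) (sum b)` and `g x <= g4`: `g x <= cv g g x <= cv g g 0` (`sum'_y g y g (x-y) <= sum'_y (g y ^2 + g (x-y)^2)/2`)
`<= cv g (cv g (cv g g)) 0`. Here `g4 d p = cv g (cv g (cv g g)) 0` and `jggg d p = jc p (cv g (cv g g))` with `g = gt d p`.
-/

namespace H95LE

open H5DF H95LBD MeasureTheory

variable {d : ℕ}

theorem dm_zero (p : ℝ) (g : V d → ENNReal) (hg : ∀ x, g (-x) = g x) (hg0 : 1 ≤ g 0) :
    Dm g (Hn p g 0) (2 * cv g (cv g (cv g g)) 0) := by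
  refine ⟨fun x => 2 * (g x * cv g g x), fun y => ?_, ?_⟩
  · change 2 * ∑' t, g t * (g (y - t) * cv g g (y - t)) ≤ _
    rw [← (Equiv.subLeft y).tsum_eq (fun u => g (y - u) * (2 * (g u * cv g g u))),
      ← ENNReal.tsum_mul_left]
    refine (tsum_congr fun t => ?_).le
    rw [Equiv.subLeft_apply, sub_sub_cancel]
    ring
  · rw [ENNReal.tsum_mul_left]
    refine mul_le_mul' le_rfl ?_
    calc ∑' x, g x * cv g g x = cv g (cv g g) 0 := by
          change _ = ∑' x, g x * cv g g (0 - x)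
          refine tsum_congr fun x => ?_
          rw [zero_sub, cv_even hg hg]
      _ ≤ cv g (cv g (cv g g)) 0 := le_cv hg0 0

lemma HN_St (p : ℝ) (g F : V d → ENNReal) (y : V d) :
    St p (L4 g) F y = St p (T1 g) F y + St p (T2 g) F y + St p (T3 g) F y + St p (T4 g) F y := by
  unfold St L4
  rw [← ENNReal.tsum_add, ← ENNReal.tsum_add, ← ENNReal.tsum_add]
  refine tsum_congr fun b => ?_
  rw [← ENNReal.tsum_add, ← ENNReal.tsum_add, ← ENNReal.tsum_add]
  refine tsum_congr fun z => ?_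
  ring

theorem dm_n (p : ℝ) (g : V d → ENNReal) (be : ENNReal) (hg : ∀ x, g (-x) = g x) (hg0 : 1 ≤ g 0)
    (hbe : ∀ x, jc p (cv g (cv g g)) x ≤ be) (n : ℕ) :
    Dm g (Hn p g n) (2 * cv g (cv g (cv g g)) 0 *
      (128 * (cv g (cv g (cv g g)) 0 * be)) ^ n) := by
  induction n with
  | zero =>
    rw [pow_zero, mul_one]
    exact dm_zero p g hg hg0
  | succ n ih =>
    have h := dm_mul 32 (dm_add (dm_add (dm_add
      (ht1 p g _ _ be hg hg0 hbe ih) (ht2 p g _ _ be hg hg0 hbe ih))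
      (ht3 p g _ _ be hg hg0 hbe ih)) (ht4 p g _ _ be hg hg0 hbe ih))
    refine dm_mono h (fun y => ?_) (le_of_eq ?_)
    · change 32 * St p (L4 g) (Hn p g n) y ≤ _
      rw [HN_St]
    · rw [pow_succ]
      ring

lemma HN_mul (a b : ENNReal) : 2 * (a * b) ≤ a * a + b * b := by
  rcases le_total a b with h | h
  · obtain ⟨t, rfl⟩ := exists_add_of_le h
    calc 2 * (a * (a + t)) ≤ 2 * (a * (a + t)) + t * t := le_self_add
      _ = _ := by ring
  · obtain ⟨t, rfl⟩ := exists_add_of_le h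
    calc 2 * ((b + t) * b) ≤ 2 * ((b + t) * b) + t * t := le_self_add
      _ = _ := by ring

lemma HN_cv0 (g : V d → ENNReal) (hg : ∀ x, g (-x) = g x) (x : V d) : cv g g x ≤ cv g g 0 := by
  have h1 : 2 * cv g g x ≤ 2 * cv g g 0 := by
    calc 2 * cv g g x = ∑' y, 2 * (g y * g (x - y)) := by
          unfold cv
          rw [ENNReal.tsum_mul_left]
      _ ≤ ∑' y, (g y * g y + g (x - y) * g (x - y)) :=
          ENNReal.tsum_le_tsum fun y => HN_mul _ _
      _ = ∑' y, g y * g y + ∑' y, g (x - y) * g (x - y) := ENNReal.tsum_add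
      _ = ∑' y, g y * g y + ∑' y, g y * g y := by
          congr 1
          exact (Equiv.subLeft x).tsum_eq (fun y => g y * g y)
      _ = 2 * cv g g 0 := by
          rw [two_mul]
          unfold cv
          simp only [zero_sub, hg]
  exact (ENNReal.mul_le_mul_iff_right (by norm_num) (by norm_num)).1 h1

lemma HN_sup (g : V d → ENNReal) (hg : ∀ x, g (-x) = g x) (hg0 : 1 ≤ g 0) (x : V d) :
    g x ≤ cv g (cv g (cv g g)) 0 := by
  calc g x ≤ cv g g x := le_cv hg0 x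
    _ ≤ cv g g 0 := HN_cv0 g hg x
    _ ≤ cv g (cv g g) 0 := le_cv hg0 0
    _ ≤ cv g (cv g (cv g g)) 0 := le_cv hg0 0

theorem xi_sum (p : ℝ) (h0 : 0 ≤ p) (h1 : p ≤ 1) (K be : ENNReal) (hK : g4 d p ≤ K)
    (hbe : ∀ x, jggg d p x ≤ be) (n : ℕ) :
    ∑' x : V d, (w2 x : ENNReal) * Xi p n {0} 0 x ≤ 2 * K ^ 2 * (128 * (K * be)) ^ n := by
  have hg : ∀ x, gt d p (-x) = gt d p x := gt_neg p h0 h1
  have hg0 : 1 ≤ gt d p (0 : V d) := (gt_zero p h0 h1).ge
  have hK' : cv (gt d p) (cv (gt d p) (cv (gt d p) (gt d p))) 0 ≤ K := hK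
  obtain ⟨b, hb1, hb2⟩ := dm_n p (gt d p) be hg hg0 hbe n
  have h2 := w_rec p h0 h1 n {0} (0 : V d)
  simp only [sub_zero, Finset.sum_singleton] at h2
  refine h2.trans ((hb1 0).trans ?_)
  calc ∑' x, gt d p (0 - x) * b x ≤ ∑' x, K * b x :=
        ENNReal.tsum_le_tsum fun x => mul_le_mul' ((HN_sup _ hg hg0 _).trans hK') le_rfl
    _ = K * ∑' x, b x := ENNReal.tsum_mul_left
    _ ≤ K * (2 * K * (128 * (K * be)) ^ n) := by
        refine mul_le_mul' le_rfl (hb2.trans ?_)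
        gcongr
    _ = _ := by ring

end H95LE
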