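import Pool.Agent.H95.LE.PrDef

/-!
PROJECT LE, JOB LE-HT1. Diagram step for the diagram `T1` (section 2).
PROOF. Write `F y <= sum'_c g (y - c) b c` with `sum b <= M`. `St p (T1 g) F y = sum over u, s, z', t, a of p g a g (t-a) g (z'-a) g (y-t) g (u-y) g (u-t) F (z'-u-step s)`. Put
`b' (m) := sum over u, s, z', t, c of p g t g z' g (m-t) g (u-m) g (u-t) g (z'-u-step s-c) b c` (`a = 0`, `m = y - a`), so that
`St p (T1 g) F y <= sum'_a g a b' (y - a)` (translate `t, u, z'` by `a`), and reindex `a = y - c'`. Total mass: sum over `m`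
first: `sum'_m g (m-t) g (u-m) = cv g g (u-t)`; sum over `z'`: `sum'_z' g z' g (z'-q) = cv g g q`, `q = u+step s+c`; sum over `s`: `jc p (cv g g) (u+c)`
(`s -> opp s`); put `m' = u - t`: `sum'_t g t (jc p (cv g g)) (t+m'+c) = jc p (cv g (cv g g)) (-(m'+c)) <= be` (evenness, `jc_cv`); what is left:
`sum'_m' g m' cv g g m' * sum b <= g4 * M`, since `sum'_m' g m' cv g g m' = cv g (cv g g) 0 <= cv g (cv g (cv g g)) 0` (`le_cv`).
-/

namespace H95LE

open H5DF H95LBD MeasureTheory

variable {d : ℕ}

lemma ht1_comm4 {ι α β γ : Type*} (K : ι → α → β → γ → ENNReal) :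
    ∑' i, ∑' a, ∑' b, ∑' c, K i a b c = ∑' a, ∑' b, ∑' c, ∑' i, K i a b c := by
  rw [ENNReal.tsum_comm]
  refine tsum_congr fun a => ?_
  rw [ENNReal.tsum_comm]
  refine tsum_congr fun b => ?_
  rw [ENNReal.tsum_comm]

lemma ht1_shift (a : V d) (f : V d → ENNReal) : ∑' u, f (u + a) = ∑' u, f u :=
  (Equiv.addRight a).tsum_eq f

lemma ht1_refl (y : V d) (f : V d → ENNReal) : ∑' c, f (y - c) = ∑' c, f c :=
  (Equiv.subLeft y).tsum_eq f

lemma ht1_opp (s : Dir d) : (step (opp s) : V d) = - step s := by
  obtain ⟨i, b⟩ := s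
  cases b <;> simp [step, opp, Pi.single_neg]

/-- The sum over the directions. -/
lemma ht1_dir (p : ℝ) (f : V d → ENNReal) (x : V d) :
    ∑' s : Dir d, ENNReal.ofReal p * f (x + step s) = jc p f x := by
  rw [tsum_fintype, jc]
  let e : Dir d ≃ Dir d := ⟨opp, opp, fun s => by simp [opp], fun s => by simp [opp]⟩
  rw [← Equiv.sum_comp e]
  refine Finset.sum_congr rfl fun s _ => ?_
  show _ = ENNReal.ofReal p * f (x - step s)
  rw [show (e s) = opp s from rfl, ht1_opp, sub_eq_add_neg]

theorem ht1 (p : ℝ) (g F : V d → ENNReal) (M be : ENNReal) (hg : ∀ x, g (-x) = g x) (hg0 : 1 ≤ g 0)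
    (hbe : ∀ x, jc p (cv g (cv g g)) x ≤ be) (hF : Dm g F M) :
    Dm g (St p (T1 g) F) (cv g (cv g (cv g g)) 0 * (be * M)) := by
  obtain ⟨b, hb, hM⟩ := hF
  have hJ : ∀ x, jc p (cv g g) (-x) = jc p (cv g g) x := jc_even p (cv_even hg hg)
  refine ⟨fun m => ∑' u, ∑' t, ∑' c, g t * (g (m - t) * (g (u - m) * (g (u - t) *
    (jc p (cv g g) (u + c) * b c)))), ?_, ?_⟩
  · intro y
    have hs : St p (T1 g) F y = ∑' u : V d, ∑' s : Dir d, ∑' z', ENNReal.ofReal p *
        (T1 g 0 y u z' * F (z' - (u + step s))) :=
      ENNReal.tsum_prod (f := fun (u : V d) (s : Dir d) => ∑' z', ENNReal.ofReal p *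
        (T1 g 0 y u z' * F (z' - (u + step s))))
    have h1 : ∀ (u : V d) (s : Dir d) (z' : V d), ENNReal.ofReal p *
        (T1 g 0 y u z' * F (z' - (u + step s))) ≤ ∑' t, ∑' a, ∑' c,
        (g a * (g (t - a) * (g (y - t) * (g (u - y) * (g (u - t) * b c))))) *
          (ENNReal.ofReal p * (g (z' - a) * g (z' - (u + step s + c)))) := by
      intro u s z'
      calc ENNReal.ofReal p * (T1 g 0 y u z' * F (z' - (u + step s)))
          ≤ ENNReal.ofReal p * (T1 g 0 y u z' *
            ∑' c, g (z' - (u + step s) - c) * b c) := by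
            gcongr
            exact hb _
        _ = ∑' t, ∑' a, ∑' c, ENNReal.ofReal p * ((g (a - 0) * (g (t - a) * (g (z' - a) *
              (g (y - t) * (g (u - y) * g (u - t)))))) * (g (z' - (u + step s) - c) * b c)) := by
            simp only [ENNReal.tsum_mul_left, ENNReal.tsum_mul_right, T1]
        _ = _ := by
            refine tsum_congr fun t => tsum_congr fun a => tsum_congr fun c => ?_
            rw [sub_zero, sub_sub]
            ring
    have h2 : ∀ u : V d, ∑' s : Dir d, ∑' z', ENNReal.ofReal p *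
        (T1 g 0 y u z' * F (z' - (u + step s))) ≤ ∑' t, ∑' a, ∑' c,
        (g a * (g (t - a) * (g (y - t) * (g (u - y) * (g (u - t) * b c))))) *
          jc p (cv g g) (u + c - a) := by
      intro u
      calc ∑' s : Dir d, ∑' z', ENNReal.ofReal p * (T1 g 0 y u z' * F (z' - (u + step s)))
          ≤ ∑' s : Dir d, ∑' z', ∑' t, ∑' a, ∑' c,
            (g a * (g (t - a) * (g (y - t) * (g (u - y) * (g (u - t) * b c))))) *
            (ENNReal.ofReal p * (g (z' - a) * g (z' - (u + step s + c)))) :=
            ENNReal.tsum_le_tsum fun s => ENNReal.tsum_le_tsum fun z' => h1 u s z'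
        _ = ∑' s : Dir d, ∑' t, ∑' a, ∑' c,
            (g a * (g (t - a) * (g (y - t) * (g (u - y) * (g (u - t) * b c))))) *
            (ENNReal.ofReal p * cv g g (u + c - a + step s)) := by
            refine tsum_congr fun s => ?_
            rw [ht1_comm4]
            refine tsum_congr fun t => tsum_congr fun a => tsum_congr fun c => ?_
            rw [ENNReal.tsum_mul_left, ENNReal.tsum_mul_left, sum_two hg]
            congr 4
            abel
        _ = _ := by
            rw [ht1_comm4]
            refine tsum_congr fun t => tsum_congr fun a => tsum_congr fun c => ?_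
            rw [ENNReal.tsum_mul_left, ht1_dir]
    calc St p (T1 g) F y ≤ ∑' u, ∑' t, ∑' a, ∑' c,
        (g a * (g (t - a) * (g (y - t) * (g (u - y) * (g (u - t) * b c))))) *
          jc p (cv g g) (u + c - a) := by
          rw [hs]
          exact ENNReal.tsum_le_tsum h2
      _ = ∑' u, ∑' a, ∑' t, ∑' c,
        (g a * (g (t - a) * (g (y - t) * (g (u - y) * (g (u - t) * b c))))) *
          jc p (cv g g) (u + c - a) := tsum_congr fun u => ENNReal.tsum_comm
      _ = ∑' a, ∑' u, ∑' t, ∑' c,
        (g a * (g (t - a) * (g (y - t) * (g (u - y) * (g (u - t) * b c))))) *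
          jc p (cv g g) (u + c - a) := ENNReal.tsum_comm
      _ = ∑' a, g a * ∑' u, ∑' t, ∑' c, g t * (g (y - a - t) * (g (u - (y - a)) * (g (u - t) *
            (jc p (cv g g) (u + c) * b c)))) := by
          refine tsum_congr fun a => ?_
          rw [← ht1_shift a, ← ENNReal.tsum_mul_left]
          refine tsum_congr fun u => ?_
          rw [← ht1_shift a, ← ENNReal.tsum_mul_left]
          refine tsum_congr fun t => ?_
          rw [← ENNReal.tsum_mul_left]
          refine tsum_congr fun c => ?_
          rw [show t + a - a = t by abel, show y - (t + a) = y - a - t by abel,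
            show u + a - y = u - (y - a) by abel, show u + a - (t + a) = u - t by abel,
            show u + a + c - a = u + c by abel]
          ring
      _ = _ := by
          rw [← ht1_refl y]
          refine tsum_congr fun c => ?_
          simp only [sub_sub_cancel]
  · have h1 : ∀ u t : V d, ∑' m, g (m - t) * g (u - m) = cv g g (u - t) := by
      intro u t
      rw [← sum_two hg]
      refine tsum_congr fun m => ?_
      rw [← hg (u - m), neg_sub]
    have h2 : ∀ w : V d, ∑' t, g t * jc p (cv g g) (t + w) ≤ be := by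
      intro w
      refine le_trans (le_of_eq ?_) (hbe (-w))
      rw [jc_cv p g (cv g g)]
      show _ = ∑' t, g t * jc p (cv g g) (-w - t)
      refine tsum_congr fun t => ?_
      rw [← hJ (t + w), neg_add_rev, sub_eq_add_neg]
    have h3 : ∑' u, cv g g u * g u ≤ cv g (cv g (cv g g)) 0 := by
      refine le_trans (le_of_eq ?_) (le_cv hg0 0)
      rw [cv]
      refine tsum_congr fun u => ?_
      rw [zero_sub, cv_even hg hg, mul_comm]
    calc ∑' m, ∑' u, ∑' t, ∑' c, g t * (g (m - t) * (g (u - m) * (g (u - t) *
          (jc p (cv g g) (u + c) * b c))))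
        = ∑' u, ∑' t, ∑' c, (g t * (g (u - t) * (jc p (cv g g) (u + c) * b c))) *
            cv g g (u - t) := by
          rw [ht1_comm4]
          refine tsum_congr fun u => tsum_congr fun t => tsum_congr fun c => ?_
          rw [← h1, ← ENNReal.tsum_mul_left]
          refine tsum_congr fun m => ?_
          ring
      _ = ∑' t, ∑' u, ∑' c, (g t * (g (u - t) * (jc p (cv g g) (u + c) * b c))) *
            cv g g (u - t) := ENNReal.tsum_comm
      _ = ∑' t, ∑' u, ∑' c, (cv g g u * g u * b c) * (g t * jc p (cv g g) (t + (u + c))) := by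
          refine tsum_congr fun t => ?_
          rw [← ht1_shift t]
          refine tsum_congr fun u => tsum_congr fun c => ?_
          rw [add_sub_cancel_right, show u + t + c = t + (u + c) by abel]
          ring
      _ = ∑' u, ∑' t, ∑' c, (cv g g u * g u * b c) * (g t * jc p (cv g g) (t + (u + c))) :=
          ENNReal.tsum_comm
      _ = ∑' u, ∑' c, (cv g g u * g u * b c) * ∑' t, g t * jc p (cv g g) (t + (u + c)) := by
          refine tsum_congr fun u => ?_
          rw [ENNReal.tsum_comm]
          refine tsum_congr fun c => ?_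
          rw [ENNReal.tsum_mul_left]
      _ ≤ ∑' u, ∑' c, (cv g g u * g u * b c) * be := by
          refine ENNReal.tsum_le_tsum fun u => ENNReal.tsum_le_tsum fun c => ?_
          gcongr
          exact h2 _
      _ = (∑' u, cv g g u * g u) * (be * ∑' c, b c) := by
          simp only [ENNReal.tsum_mul_left, ENNReal.tsum_mul_right]
          ring
      _ ≤ _ := by gcongr

end H95LE
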