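import Pool.Agent.H95.LE.Def

/-!
PROJECT LE, JOB LE-MeasE. Measurability and finiteness of clusters.
PROOFS. `meas_reach`, `meas_Cn`, `measurable_upd`, `meas_cluster_eq`; `V d × Dir d` is countable. `ae_fin`: `E |cluster| = sum tau < oo`
(`prob_cluster_mem`; the number of elements of a set is a `tsum` of indicators; `ENNReal.tsum` finite implies finitely many ones).
`conn_split`: `Off B ω w x` implies `x ∈ cluster ω w`; disjoint union.
-/

namespace H95LE

open H5DF H95LBD MeasureTheory

variable {d : ℕ}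

lemma MeasE_measurable_del (e : Ed d) : Measurable (del e : Cfg d → Cfg d) := measurable_upd e false

lemma meas_Off (B : Set (V d)) (w x : V d) : MeasurableSet {ω : Cfg d | Off B ω w x} :=
  (MeasurableSet.const (w ∉ B)).inter (meas_Cn Bᶜ w x)

lemma meas_Thr (A : Set (V d)) (v x : V d) : MeasurableSet {ω : Cfg d | Thr A ω v x} :=
  (meas_reach v x).inter (meas_Off A v x).compl

lemma meas_Piv (v x : V d) (b : V d × Dir d) : MeasurableSet {ω : Cfg d | Piv ω v x b} := by
  have h1 : MeasurableSet {ω : Cfg d | ω (edge b.1 b.2) = true} := meas_open _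
  have h2 : ∀ a c : V d, MeasurableSet {ω : Cfg d | a ∈ cluster (del (edge b.1 b.2) ω) c} :=
    fun a c => (MeasE_measurable_del (edge b.1 b.2)) (meas_reach c a)
  exact h1.inter ((h2 b.1 v).inter ((h2 (b.1 + step b.2) v).compl.inter (h2 x (b.1 + step b.2))))

lemma meas_EE (A : Set (V d)) (v x : V d) : MeasurableSet {ω : Cfg d | EE A ω v x} := by
  have h : {ω : Cfg d | EE A ω v x} = {ω : Cfg d | Thr A ω v x} ∩
      ⋂ b : V d × Dir d, ({ω : Cfg d | Piv ω v x b}ᶜ ∪ {ω : Cfg d | Thr A ω v b.1}ᶜ) := by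
    ext ω
    constructor
    · rintro ⟨h1, h2⟩
      refine ⟨h1, Set.mem_iInter.2 fun b => ?_⟩
      by_cases hb : Piv ω v x b
      · exact Or.inr (h2 b hb)
      · exact Or.inl hb
    · rintro ⟨h1, h2⟩
      refine ⟨h1, fun b hb => ?_⟩
      rcases Set.mem_iInter.1 h2 b with h3 | h3
      · exact absurd hb h3
      · exact h3
  rw [h]
  exact (meas_Thr A v x).inter
    (MeasurableSet.iInter fun b => (meas_Piv v x b).compl.union (meas_Thr A v b.1).compl)

lemma meas_delc (b : V d × Dir d) (v : V d) (B : Set (V d)) :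
    MeasurableSet {ω : Cfg d | cluster (del (edge b.1 b.2) ω) v = B} :=
  (MeasE_measurable_del (edge b.1 b.2)) (meas_cluster_eq v B)

theorem ae_fin (p : ℝ) (h0 : 0 ≤ p) (h1 : p ≤ 1) (hfin : ∑' x, tau d p x ≠ ⊤) (v : V d) :
    ∀ᵐ ω ∂(perc d p), (cluster ω v).Finite := by
  have h2 : ∑' x : V d, perc d p {ω : Cfg d | x ∈ cluster ω v} ≠ ⊤ := by
    have h3 : ∑' x : V d, perc d p {ω : Cfg d | x ∈ cluster ω v} = ∑' x : V d, tau d p x := by
      rw [← (Equiv.subRight v).tsum_eq fun x => tau d p x]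
      refine tsum_congr fun x => ?_
      rw [prob_cluster_mem p h0 h1 v x]
      rfl
    rw [h3]
    exact hfin
  exact ae_finite_setOfPred_mem h2

lemma cluster_del_sub (b : V d × Dir d) (ω : Cfg d) (v : V d) :
    cluster (del (edge b.1 b.2) ω) v ⊆ cluster ω v := by
  intro y hy
  rw [← Cn_univ] at hy ⊢
  refine hy.mono (Set.Subset.refl _) fun e he => ?_
  by_cases h : e = edge b.1 b.2
  · subst h
    simp [del] at he
  · rw [del, Function.update_of_ne h] at he
    exact he

theorem conn_split (p : ℝ) (h0 : 0 ≤ p) (h1 : p ≤ 1) (B : Set (V d)) (w x : V d) :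
    perc d p {ω | Off B ω w x} + perc d p {ω | Thr B ω w x} = tau d p (x - w) := by
  rw [← prob_cluster_mem p h0 h1 w x]
  have hd : Disjoint {ω : Cfg d | Off B ω w x} {ω : Cfg d | Thr B ω w x} := by
    rw [Set.disjoint_left]
    intro ω h1 h2
    exact h2.2 h1
  rw [← measure_union hd (meas_Thr B w x)]
  congr 1
  ext ω
  constructor
  · rintro (h | h)
    · exact h.2.cluster
    · exact h.1
  · intro h
    by_cases h2 : Off B ω w x
    · exact Or.inl h2
    · exact Or.inr ⟨h, h2⟩

/-- Starting inside `A`, every connection meets `A`. -/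
lemma thr_self (A : Set (V d)) (ω : Cfg d) (v x : V d) (hv : v ∈ A) :
    Thr A ω v x ↔ x ∈ cluster ω v :=
  ⟨fun h => h.1, fun h => ⟨h, fun h2 => h2.1 hv⟩⟩

end H95LE
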