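import Pool.Agent.H95.LE.PivA
import Pool.Agent.H95.LE.MeasE

/-!
PROJECT LE, JOB LE-Loc. Locality: on `cluster (del e ω) v = B`, `w ∉ B`, the event `EE A ω v b.1` depends only on the edges
inside `B`.
PROOF of `ee_cut`. `e := edge b.1 b.2`, `w := b.1 + step b.2 ∉ B`. All open edges of `ω` between `B` and `Bᶜ` are equal to `e`.
If `b.1 ∉ B` then also `cluster ω v = B` (as `w ∉ B` too) and both sides are false (`EE` contains `b.1 ∈ cluster`, and
`cluster (cut B ω) v ⊆ B`). Let `b.1 ∈ B`. A walk of `G ω` between two points of `B` can leave `B` only through `e` and must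
return through `e`; cutting the loops gives a walk inside `B` with a subset of the edges. So for `y ∈ B`, and any set `T` of
forbidden vertices and any forbidden edge `e'`: `v <-> y` in `ω` (off `T`, without `e'`) iff in `cut B ω`. Hence
`Thr A ω v y ↔ Thr A (cut B ω) v y` for `y ∈ B`. `Piv ω v b.1 b'` implies that `edge b'` is inside `B` and then is the same for `cut B ω`
(an edge not inside `B` is not pivotal, since `v <-> b.1` inside `B`; `b'.1 ∈ B`, and the cluster of `b'.1 + step` without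
`edge b'` contains `b.1`). `pe_dep`: the clusters agree (`cluster_congr` for `del e ω`, `del e ω'`), then `ee_cut` twice:
`cut B ω = cut B ω'` because `edges inside B` are in `touch B` and are not `e`.
-/

namespace H95LE

open H5DF H95LBD MeasureTheory

variable {d : ℕ}

lemma Loc_cut_le (B : Set (V d)) (ω : Cfg d) : G (cut B ω) ≤ G ω := fun _ _ h => (G_cut_adj.1 h).1

/-- The only open edge leaving `B` is `b`. -/
lemma Loc_exit {ω : Cfg d} {v : V d} {b : V d × Dir d} {B : Set (V d)}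
    (hB : cluster (del (edge b.1 b.2) ω) v = B) (hw : b.1 + step b.2 ∉ B) {x y : V d}
    (h : (G ω).Adj x y) (hx : x ∈ B) (hy : y ∉ B) : x = b.1 ∧ y = b.1 + step b.2 := by
  by_cases h1 : s(x, y) = s(b.1, b.1 + step b.2)
  · rw [Sym2.eq_iff] at h1
    rcases h1 with h1 | ⟨h1, -⟩
    · exact h1
    · exfalso
      apply hw
      rw [← h1]
      exact hx
  · exfalso
    apply hy
    rw [← hB] at hx ⊢
    exact pivA_tr hx (SimpleGraph.Adj.reachable (del_adj.2 ⟨h, h1⟩))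

/-- Cutting the excursions out of `B`. -/
lemma Loc_walk {ω : Cfg d} {v : V d} {b : V d × Dir d} {B : Set (V d)}
    (hB : cluster (del (edge b.1 b.2) ω) v = B) (hw : b.1 + step b.2 ∉ B) {x y : V d}
    (P : (G ω).Walk x y) (hy : y ∈ B) :
    (x ∈ B → ∃ Q : (G (cut B ω)).Walk x y, ∀ f ∈ Q.edges, f ∈ P.edges) ∧
      (x ∉ B → ∃ Q : (G (cut B ω)).Walk b.1 y, ∀ f ∈ Q.edges, f ∈ P.edges) := by
  induction P with
  | nil => exact ⟨fun _ => ⟨SimpleGraph.Walk.nil, by simp⟩, fun h => absurd hy h⟩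
  | @cons x z y h P ih =>
    obtain ⟨ih1, ih2⟩ := ih hy
    constructor
    · intro hx
      by_cases hz : z ∈ B
      · obtain ⟨Q, hQ⟩ := ih1 hz
        refine ⟨SimpleGraph.Walk.cons (G_cut_adj.2 ⟨h, hx, hz⟩) Q, ?_⟩
        intro f hf
        rw [SimpleGraph.Walk.edges_cons, List.mem_cons] at hf ⊢
        rcases hf with hf | hf
        · exact Or.inl hf
        · exact Or.inr (hQ f hf)
      · obtain ⟨Q, hQ⟩ := ih2 hz
        obtain ⟨hx1, -⟩ := Loc_exit hB hw h hx hz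
        subst hx1
        refine ⟨Q, fun f hf => ?_⟩
        rw [SimpleGraph.Walk.edges_cons, List.mem_cons]
        exact Or.inr (hQ f hf)
    · intro hx
      by_cases hz : z ∈ B
      · obtain ⟨Q, hQ⟩ := ih1 hz
        obtain ⟨hz1, -⟩ := Loc_exit hB hw h.symm hz hx
        subst hz1
        refine ⟨Q, fun f hf => ?_⟩
        rw [SimpleGraph.Walk.edges_cons, List.mem_cons]
        exact Or.inr (hQ f hf)
      · obtain ⟨Q, hQ⟩ := ih2 hz
        refine ⟨Q, fun f hf => ?_⟩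
        rw [SimpleGraph.Walk.edges_cons, List.mem_cons]
        exact Or.inr (hQ f hf)

lemma Loc_del_mono {B : Set (V d)} {ω : Cfg d} {b' : V d × Dir d} {x y : V d}
    (h : y ∈ cluster (del (edge b'.1 b'.2) (cut B ω)) x) :
    y ∈ cluster (del (edge b'.1 b'.2) ω) x := by
  obtain ⟨P, hP⟩ := pivA_reach.1 h
  refine pivA_reach.2 ⟨P.mapLe (Loc_cut_le B ω), ?_⟩
  rw [SimpleGraph.Walk.edges_mapLe_eq_edges]
  exact hP

lemma Loc_del_iff {ω : Cfg d} {v : V d} {b b' : V d × Dir d} {B : Set (V d)}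
    (hB : cluster (del (edge b.1 b.2) ω) v = B) (hw : b.1 + step b.2 ∉ B) {x y : V d}
    (hx : x ∈ B) (hy : y ∈ B) :
    y ∈ cluster (del (edge b'.1 b'.2) ω) x ↔ y ∈ cluster (del (edge b'.1 b'.2) (cut B ω)) x := by
  refine ⟨fun h => ?_, Loc_del_mono⟩
  obtain ⟨P, hP⟩ := pivA_reach.1 h
  obtain ⟨Q, hQ⟩ := (Loc_walk hB hw P hy).1 hx
  exact pivA_reach.2 ⟨Q, fun h2 => hP (hQ _ h2)⟩

lemma Loc_clu_iff {ω : Cfg d} {v : V d} {b : V d × Dir d} {B : Set (V d)}
    (hB : cluster (del (edge b.1 b.2) ω) v = B) (hw : b.1 + step b.2 ∉ B) {x y : V d}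
    (hx : x ∈ B) (hy : y ∈ B) : y ∈ cluster ω x ↔ y ∈ cluster (cut B ω) x := by
  constructor
  · rintro ⟨P⟩
    obtain ⟨Q, -⟩ := (Loc_walk hB hw P hy).1 hx
    exact ⟨Q⟩
  · rintro ⟨Q⟩
    exact ⟨Q.mapLe (Loc_cut_le B ω)⟩

lemma Loc_off_iff {A : Set (V d)} {ω : Cfg d} {v : V d} {b : V d × Dir d} {B : Set (V d)}
    (hB : cluster (del (edge b.1 b.2) ω) v = B) (hw : b.1 + step b.2 ∉ B) {x y : V d}
    (hx : x ∈ B) (hy : y ∈ B) : Off A ω x y ↔ Off A (cut B ω) x y := by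
  constructor
  · rintro ⟨h1, h2⟩
    obtain ⟨P, hP⟩ := (Cn_iff_walk (S := Aᶜ) h1).1 h2
    obtain ⟨Q, hQ⟩ := (Loc_walk hB hw P hy).1 hx
    refine ⟨h1, (Cn_iff_walk (S := Aᶜ) h1).2 ⟨Q, fun z hz => hP z ?_⟩⟩
    have h3 := pivA_supp (Q.mapLe (Loc_cut_le B ω)) P (by
      intro f hf
      rw [SimpleGraph.Walk.edges_mapLe_eq_edges] at hf
      exact hQ f hf) z
    rw [SimpleGraph.Walk.support_mapLe_eq_support] at h3
    exact h3 hz
  · rintro ⟨h1, h2⟩
    exact ⟨h1, Cn.mono h2 (Set.Subset.refl _) fun e he => (cut_true.1 he).1⟩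

lemma Loc_thr_iff {A : Set (V d)} {ω : Cfg d} {v : V d} {b : V d × Dir d} {B : Set (V d)}
    (hB : cluster (del (edge b.1 b.2) ω) v = B) (hw : b.1 + step b.2 ∉ B) {x y : V d}
    (hx : x ∈ B) (hy : y ∈ B) : Thr A ω x y ↔ Thr A (cut B ω) x y := by
  unfold Thr
  rw [Loc_clu_iff hB hw hx hy, Loc_off_iff hB hw hx hy]

lemma Loc_edges_mem {ω : Cfg d} {B : Set (V d)} {x y z z' : V d} (Q : (G (cut B ω)).Walk x y)
    (h : s(z, z') ∈ Q.edges) : z ∈ B ∧ z' ∈ B := by
  have h1 := Q.adj_of_mem_edges h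
  exact (G_cut_adj.1 h1).2

lemma Loc_piv_iff {ω : Cfg d} {v : V d} {b b' : V d × Dir d} {B : Set (V d)}
    (hB : cluster (del (edge b.1 b.2) ω) v = B) (hw : b.1 + step b.2 ∉ B) (hb : b.1 ∈ B) :
    Piv ω v b.1 b' ↔ Piv (cut B ω) v b.1 b' ∧ b'.1 ∈ B := by
  have hv : v ∈ B := hB ▸ pivA_self _ v
  constructor
  · intro h
    obtain ⟨P⟩ : (G ω).Reachable v b.1 := piv_mem h
    obtain ⟨Q, -⟩ := (Loc_walk hB hw P hb).1 hv
    have h1 := pivA_mem_edges h (Q.mapLe (Loc_cut_le B ω))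
    rw [SimpleGraph.Walk.edges_mapLe_eq_edges] at h1
    obtain ⟨h2, h3⟩ := Loc_edges_mem Q h1
    refine ⟨⟨cut_edge.2 ⟨h.1, h2, h3⟩, (Loc_del_iff hB hw hv h2).1 h.2.1,
      fun h4 => h.2.2.1 (Loc_del_mono h4), (Loc_del_iff hB hw h3 hb).1 h.2.2.2⟩, h2⟩
  · rintro ⟨h, h2⟩
    obtain ⟨h0, -, h3⟩ := cut_edge.1 h.1
    exact ⟨h0, Loc_del_mono h.2.1, fun h4 => h.2.2.1 ((Loc_del_iff hB hw hv h3).1 h4),
      Loc_del_mono h.2.2.2⟩

lemma Loc_piv_mem {ω : Cfg d} {v x : V d} {b' : V d × Dir d} {B : Set (V d)}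
    (h : Piv (cut B ω) v x b') : b'.1 ∈ B := (cut_edge.1 h.1).2.1

theorem ee_cut {A : Set (V d)} {ω : Cfg d} {v : V d} {b : V d × Dir d} {B : Set (V d)}
    (hB : cluster (del (edge b.1 b.2) ω) v = B) (hw : b.1 + step b.2 ∉ B) :
    EE A ω v b.1 ↔ EE A (cut B ω) v b.1 := by
  have hv : v ∈ B := hB ▸ pivA_self _ v
  by_cases hb : b.1 ∈ B
  · unfold EE
    rw [Loc_thr_iff hB hw hv hb]
    constructor
    · rintro ⟨h1, h2⟩
      refine ⟨h1, fun b' hb' => ?_⟩
      have h3 := Loc_piv_mem hb'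
      rw [← Loc_thr_iff hB hw hv h3]
      exact h2 b' ((Loc_piv_iff hB hw hb).2 ⟨hb', h3⟩)
    · rintro ⟨h1, h2⟩
      refine ⟨h1, fun b' hb' => ?_⟩
      obtain ⟨h4, h3⟩ := (Loc_piv_iff hB hw hb).1 hb'
      rw [Loc_thr_iff hB hw hv h3]
      exact h2 b' h4
  · constructor
    · rintro ⟨⟨h1, -⟩, -⟩
      exfalso
      apply hb
      have h2 : (G ω).Reachable v b.1 := h1
      rw [SimpleGraph.reachable_iff_reflTransGen] at h2
      have key : ∀ y, Relation.ReflTransGen (G ω).Adj v y → y ∈ B := by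
        intro y hy
        induction hy with
        | refl => exact hv
        | @tail y z _ h4 ih =>
          by_contra hz
          obtain ⟨h5, -⟩ := Loc_exit hB hw h4 ih hz
          exact hb (h5 ▸ ih)
      exact key _ h2
    · rintro ⟨⟨h1, -⟩, -⟩
      exact absurd (Cn.mem (S := B) (ω := ω) h1 hv) hb

theorem pe_dep {A : Set (V d)} {ω ω' : Cfg d} {v : V d} {b : V d × Dir d} {B : Set (V d)}
    (hw : b.1 + step b.2 ∉ B) (h : ∀ e ∈ touch B, e ≠ edge b.1 b.2 → ω e = ω' e)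
    (hB : cluster (del (edge b.1 b.2) ω) v = B ∧ EE A ω v b.1) :
    cluster (del (edge b.1 b.2) ω') v = B ∧ EE A ω' v b.1 := by
  have h1 : cluster (del (edge b.1 b.2) ω') v = B := by
    refine cluster_congr hB.1 fun u hu s => ?_
    unfold del
    by_cases h2 : edge u s = edge b.1 b.2
    · rw [h2, Function.update_self, Function.update_self]
    · rw [Function.update_of_ne h2, Function.update_of_ne h2]
      exact h _ (edge_mem_touch hu s) h2
  refine ⟨h1, ?_⟩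
  have h2 : cut B ω = cut B ω' := by
    funext e
    have h3 : (cut B ω e = true) ↔ (cut B ω' e = true) := by
      rw [cut_true, cut_true]
      refine and_congr_left fun h4 => ?_
      have h5 : e ≠ edge b.1 b.2 := by
        rintro rfl
        exact hw (edge_mem_ins.1 h4).2
      rw [h e (Or.inl h4.1) h5]
    exact Bool.eq_iff_iff.2 h3
  rw [ee_cut h1 hw, ← h2, ← ee_cut hB.1 hw]
  exact hB.2

end H95LE
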