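import Pool.Agent.H95.LE.Def
import Pool.Agent.H95.LBD.DecA

/-!
PROJECT LE (MP_0d9ad5_pr, note 2738), JOB LE-PivA. Pivotal edges of a connection (deterministic).
PROOFS. `e := edge b.1 b.2`, `w := b.1 + step b.2`, `Ct := cluster (del e ω) v`. (1) `piv_mem`: `v -> b.1` without
`e`, then `e`, then `w -> x` without `e`. (2) `piv_split`: a walk from `v` to `x` must leave `Ct` (which contains `v`, not
`x`, since `x` is in the cluster of `w` without `e` and `w ∉ Ct`); the only open edge leaving `Ct` is `e`; take the first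
exit: the part before it is inside `Ct` and does not use `e`; for the last part take the walk after the LAST use of `e`
(induction on the walk). (3) `piv_off`, `piv_dist` from `piv_split` (for `Off` use the walk in the graph of `cut Aᶜ ω`, or
do the exit argument with `Cn.ind`; for `dist` a shortest walk). (4) `piv_trans`: if `edge b' = edge b` as edges then `b' = b`
(excluded: `x ∉ Ct`) or `b'` is the reversed edge (excluded: `b'.1 = w ∈` cluster of `v` without `e`); so `edge b'` is
open without `e`; `w' -> x` without `edge b'` does not use `e`, because both ends of `e` are in the cluster of `v` without `edge b'`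
(the connection `v -> b'.1` without `edge b'` crosses `b` by `piv_split`). (5) `piv_total`: a PATH from `v` to `x` crosses both;
if `b` comes first the part from `w` to `b'.1` does not use `e`. Helper lemmas welcome (they are used in the next modules:
keep them reusable, e.g. adjacency in `G (del e ω)`: `(G (del e ω)).Adj x y ↔ (G ω).Adj x y ∧ s(x,y) ≠ s(b.1, w)`).
-/

namespace H95LE

open H5DF H95LBD MeasureTheory

variable {d : ℕ}

/-- An edge is determined by its two ends. -/
lemma pivA_sym_inj {e f : Ed d} (h : decA_sym e = decA_sym f) : e = f := by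
  obtain ⟨x, i⟩ := e
  obtain ⟨y, j⟩ := f
  unfold decA_sym at h
  rw [Sym2.eq_iff] at h
  rcases h with ⟨h1, h2⟩ | ⟨h1, h2⟩
  · simp only at h1 h2
    subst h1
    have h3 : (Pi.single i 1 : V d) = Pi.single j 1 := add_left_cancel h2
    have h4 := congrFun h3 i
    by_cases hij : i = j
    · rw [hij]
    · rw [Pi.single_eq_same, Pi.single_eq_of_ne hij] at h4
      omega
  · simp only at h1 h2
    exfalso
    rw [h1, add_assoc] at h2
    have h3 : (Pi.single j 1 : V d) + Pi.single i 1 = 0 := by simpa using h2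
    have h4 := congrFun h3 i
    by_cases hij : i = j
    · subst hij
      simp at h4
    · rw [Pi.add_apply, Pi.single_eq_same, Pi.single_eq_of_ne hij] at h4
      simp at h4

lemma pivA_sym_edge (x : V d) (s : Dir d) : decA_sym (edge x s) = s(x, x + step s) :=
  sym_edge x s

/-- Two oriented edges have the same edge iff they have the same ends. -/
lemma pivA_edge_iff {x y : V d} {s t : Dir d} :
    edge x s = edge y t ↔ s(x, x + step s) = s(y, y + step t) := by
  constructor
  · intro h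
    rw [← pivA_sym_edge, ← pivA_sym_edge, h]
  · intro h
    apply pivA_sym_inj
    rw [pivA_sym_edge, pivA_sym_edge, h]

lemma pivA_step_inj {s t : Dir d} (h : (step s : V d) = step t) : s = t := by
  obtain ⟨i, b⟩ := s
  obtain ⟨j, c⟩ := t
  have h1 := congrFun h i
  by_cases hij : i = j
  · subst hij
    cases b <;> cases c <;> simp [step] at h1 ⊢
  · exfalso
    cases b <;> cases c <;> simp [step, hij] at h1

lemma pivA_del_true {ω : Cfg d} {e f : Ed d} : del e ω f = true ↔ f ≠ e ∧ ω f = true := by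
  unfold del
  by_cases h : f = e
  · rw [h, Function.update_self]
    simp
  · rw [Function.update_of_ne h]
    simp [h]

lemma del_adj {ω : Cfg d} {b : V d × Dir d} {x y : V d} :
    (G (del (edge b.1 b.2) ω)).Adj x y ↔ (G ω).Adj x y ∧ s(x, y) ≠ s(b.1, b.1 + step b.2) := by
  constructor
  · rintro ⟨s, rfl, hs⟩
    rw [pivA_del_true] at hs
    exact ⟨⟨s, rfl, hs.2⟩, fun h => hs.1 (pivA_edge_iff.2 h)⟩
  · rintro ⟨⟨s, rfl, hs⟩, h⟩
    exact ⟨s, rfl, pivA_del_true.2 ⟨fun h2 => h (pivA_edge_iff.1 h2), hs⟩⟩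

lemma pivA_del_le (ω : Cfg d) (e : Ed d) : G (del e ω) ≤ G ω := by
  rintro x y ⟨s, rfl, hs⟩
  exact ⟨s, rfl, (pivA_del_true.1 hs).2⟩

/-- Connection without an edge = walk which does not use it. -/
lemma pivA_reach {ω : Cfg d} {b : V d × Dir d} {x y : V d} :
    y ∈ cluster (del (edge b.1 b.2) ω) x ↔
      ∃ P : (G ω).Walk x y, s(b.1, b.1 + step b.2) ∉ P.edges := by
  constructor
  · rintro ⟨Q⟩
    induction Q with
    | nil => exact ⟨SimpleGraph.Walk.nil, by simp⟩
    | cons h Q ih =>
      obtain ⟨P, hP⟩ := ih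
      rw [del_adj] at h
      refine ⟨SimpleGraph.Walk.cons h.1 P, ?_⟩
      rw [SimpleGraph.Walk.edges_cons, List.mem_cons, not_or]
      exact ⟨fun h2 => h.2 h2.symm, hP⟩
  · rintro ⟨P, hP⟩
    induction P with
    | nil => exact SimpleGraph.Reachable.refl _
    | cons h Q ih =>
      rw [SimpleGraph.Walk.edges_cons, List.mem_cons, not_or] at hP
      have h2 := ih hP.2
      have h3 : (G (del (edge b.1 b.2) ω)).Adj _ _ := del_adj.2 ⟨h, fun h4 => hP.1 h4.symm⟩
      exact SimpleGraph.Reachable.trans h3.reachable h2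

lemma pivA_self (ω : Cfg d) (x : V d) : x ∈ cluster ω x := SimpleGraph.Reachable.refl _

lemma pivA_tr {ω : Cfg d} {x y z : V d} (h : y ∈ cluster ω x) (h' : z ∈ cluster ω y) :
    z ∈ cluster ω x := SimpleGraph.Reachable.trans h h'

lemma pivA_sy {ω : Cfg d} {x y : V d} (h : y ∈ cluster ω x) : x ∈ cluster ω y :=
  SimpleGraph.Reachable.symm h

lemma pivA_of_del {ω : Cfg d} {e : Ed d} {x y : V d} (h : y ∈ cluster (del e ω) x) :
    y ∈ cluster ω x := by
  obtain ⟨Q⟩ := h
  exact ⟨Q.mapLe (pivA_del_le ω e)⟩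

lemma pivA_adj {ω : Cfg d} {b : V d × Dir d} (h : ω (edge b.1 b.2) = true) :
    (G ω).Adj b.1 (b.1 + step b.2) := ⟨b.2, rfl, h⟩

lemma piv_mem {ω : Cfg d} {v x : V d} {b : V d × Dir d} (h : Piv ω v x b) : x ∈ cluster ω v := by
  obtain ⟨h1, h2, -, h4⟩ := h
  exact pivA_tr (pivA_of_del h2) (pivA_tr (pivA_adj h1).reachable (pivA_of_del h4))

lemma piv_not {ω : Cfg d} {v x : V d} {b : V d × Dir d} (h : Piv ω v x b) :
    x ∉ cluster (del (edge b.1 b.2) ω) v := by
  obtain ⟨-, -, h3, h4⟩ := h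
  intro h5
  exact h3 (pivA_tr h5 (pivA_sy h4))

/-- Decomposition of a walk at the first use of an edge. -/
lemma pivA_first {α : Type*} {H : SimpleGraph α} {a c : α} (P : H.Walk a c) {e0 : Sym2 α}
    (h : e0 ∈ P.edges) : ∃ (z z' : α) (R1 : H.Walk a z) (R2 : H.Walk z' c), s(z, z') = e0 ∧
      P.edges = R1.edges ++ e0 :: R2.edges ∧ e0 ∉ R1.edges := by
  classical
  induction P with
  | nil => simp at h
  | @cons a b c h0 P ih =>
    by_cases h1 : s(a, b) = e0
    · refine ⟨a, b, SimpleGraph.Walk.nil, P, h1, ?_, by simp⟩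
      rw [SimpleGraph.Walk.edges_cons, SimpleGraph.Walk.edges_nil, h1]
      rfl
    · rw [SimpleGraph.Walk.edges_cons, List.mem_cons] at h
      rcases h with h | h
      · exact absurd h.symm h1
      · obtain ⟨z, z', R1, R2, h2, h3, h4⟩ := ih h
        refine ⟨z, z', SimpleGraph.Walk.cons h0 R1, R2, h2, ?_, ?_⟩
        · rw [SimpleGraph.Walk.edges_cons, SimpleGraph.Walk.edges_cons, h3]
          rfl
        · rw [SimpleGraph.Walk.edges_cons, List.mem_cons, not_or]
          exact ⟨fun h5 => h1 h5.symm, h4⟩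

/-- Decomposition of a walk at the last use of an edge. -/
lemma pivA_last {α : Type*} {H : SimpleGraph α} {a c : α} (P : H.Walk a c) {e0 : Sym2 α}
    (h : e0 ∈ P.edges) : ∃ (z z' : α) (R1 : H.Walk a z) (R2 : H.Walk z' c), s(z, z') = e0 ∧
      P.edges = R1.edges ++ e0 :: R2.edges ∧ e0 ∉ R2.edges := by
  classical
  induction P with
  | nil => simp at h
  | @cons a b c h0 P ih =>
    by_cases hP : e0 ∈ P.edges
    · obtain ⟨z, z', R1, R2, h2, h3, h4⟩ := ih hP
      refine ⟨z, z', SimpleGraph.Walk.cons h0 R1, R2, h2, ?_, h4⟩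
      rw [SimpleGraph.Walk.edges_cons, SimpleGraph.Walk.edges_cons, h3]
      rfl
    · rw [SimpleGraph.Walk.edges_cons, List.mem_cons] at h
      rcases h with h | h
      · refine ⟨a, b, SimpleGraph.Walk.nil, P, h.symm, ?_, hP⟩
        rw [SimpleGraph.Walk.edges_cons, SimpleGraph.Walk.edges_nil, h]
        rfl
      · exact absurd h hP

/-- Every walk uses a pivotal edge. -/
lemma pivA_mem_edges {ω : Cfg d} {v x : V d} {b : V d × Dir d} (h : Piv ω v x b)
    (P : (G ω).Walk v x) : s(b.1, b.1 + step b.2) ∈ P.edges := by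
  by_contra h1
  exact piv_not h (pivA_reach.2 ⟨P, h1⟩)

/-- The first use of a pivotal edge is in the right direction. -/
lemma pivA_dir {ω : Cfg d} {v x z z' : V d} {b : V d × Dir d} (h : Piv ω v x b)
    (hz : s(z, z') = s(b.1, b.1 + step b.2)) (hc : z ∈ cluster (del (edge b.1 b.2) ω) v) :
    z = b.1 ∧ z' = b.1 + step b.2 := by
  rw [Sym2.eq_iff] at hz
  rcases hz with hz | ⟨hz, -⟩
  · exact hz
  · exfalso
    rw [hz] at hc
    exact h.2.2.1 hc

theorem piv_split {ω : Cfg d} {v x : V d} {b : V d × Dir d} (h : Piv ω v x b) (P : (G ω).Walk v x) :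
    ∃ (P1 : (G ω).Walk v b.1) (P2 : (G ω).Walk (b.1 + step b.2) x),
      (∀ e ∈ P1.edges, e ∈ P.edges) ∧ (∀ e ∈ P2.edges, e ∈ P.edges) ∧
      s(b.1, b.1 + step b.2) ∉ P1.edges ∧ s(b.1, b.1 + step b.2) ∉ P2.edges ∧
      P1.length + 1 + P2.length ≤ P.length := by
  obtain ⟨z, z', R1, R2, hz, hE, hn⟩ := pivA_first P (pivA_mem_edges h P)
  obtain ⟨rfl, rfl⟩ := pivA_dir h hz (pivA_reach.2 ⟨R1, hn⟩)
  have hL : P.length = R1.length + (R2.length + 1) := by
    have := congrArg List.length hE
    rwa [List.length_append, List.length_cons, SimpleGraph.Walk.length_edges,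
      SimpleGraph.Walk.length_edges, SimpleGraph.Walk.length_edges] at this
  by_cases h2 : s(b.1, b.1 + step b.2) ∈ R2.edges
  · obtain ⟨y, y', S1, S2, hy, hF, hm⟩ := pivA_last R2 h2
    have hL2 : R2.length = S1.length + (S2.length + 1) := by
      have := congrArg List.length hF
      rwa [List.length_append, List.length_cons, SimpleGraph.Walk.length_edges,
        SimpleGraph.Walk.length_edges, SimpleGraph.Walk.length_edges] at this
    have hy' : y' = b.1 + step b.2 := by
      rw [Sym2.eq_iff] at hy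
      rcases hy with ⟨-, hy⟩ | ⟨-, hy⟩
      · exact hy
      · exfalso
        have h3 : x ∈ cluster (del (edge b.1 b.2) ω) y' := pivA_reach.2 ⟨S2, hm⟩
        rw [hy] at h3
        exact piv_not h (pivA_tr h.2.1 h3)
    subst hy'
    refine ⟨R1, S2, ?_, ?_, hn, hm, by omega⟩
    · intro e he
      rw [hE, List.mem_append]
      exact Or.inl he
    · intro e he
      rw [hE, hF, List.mem_append, List.mem_cons, List.mem_append, List.mem_cons]
      exact Or.inr (Or.inr (Or.inr (Or.inr he)))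
  · refine ⟨R1, R2, ?_, ?_, hn, h2, by omega⟩
    · intro e he
      rw [hE, List.mem_append]
      exact Or.inl he
    · intro e he
      rw [hE, List.mem_append, List.mem_cons]
      exact Or.inr (Or.inr he)

/-- The support of a walk is contained in the support of a walk with the same start and more edges. -/
lemma pivA_supp {α : Type*} {H : SimpleGraph α} {a c c' : α} (P : H.Walk a c) (Q : H.Walk a c')
    (h : ∀ e ∈ P.edges, e ∈ Q.edges) : ∀ z ∈ P.support, z ∈ Q.support := by
  have key : ∀ {a c : α} (P : H.Walk a c) (T : List α), a ∈ T →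
      (∀ e ∈ P.edges, ∀ y ∈ e, y ∈ T) → ∀ z ∈ P.support, z ∈ T := by
    intro a c P
    induction P with
    | nil =>
      intro T hT _ z hz
      rw [SimpleGraph.Walk.support_nil, List.mem_singleton] at hz
      rw [hz]
      exact hT
    | @cons a b c h0 P ih =>
      intro T hT hE z hz
      rw [SimpleGraph.Walk.support_cons, List.mem_cons] at hz
      rcases hz with hz | hz
      · rw [hz]
        exact hT
      · refine ih T ?_ ?_ z hz
        · exact hE s(a, b) (by rw [SimpleGraph.Walk.edges_cons]; exact List.mem_cons_self) b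
            (Sym2.mem_mk_right a b)
        · intro e he
          exact hE e (by rw [SimpleGraph.Walk.edges_cons]; exact List.mem_cons_of_mem _ he)
  refine key P Q.support Q.start_mem_support ?_
  intro e he y hy
  have h2 := h e he
  induction e with
  | h p q =>
    rw [Sym2.mem_iff] at hy
    rcases hy with rfl | rfl
    · exact Q.fst_mem_support_of_mem_edges h2
    · exact Q.snd_mem_support_of_mem_edges h2

theorem piv_off {ω : Cfg d} {A : Set (V d)} {v x : V d} {b : V d × Dir d} (h : Piv ω v x b)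
    (hA : Off A ω v x) : Off A ω v b.1 := by
  refine ⟨hA.1, ?_⟩
  obtain ⟨P, hP⟩ := (Cn_iff_walk (S := Aᶜ) hA.1).1 hA.2
  obtain ⟨P1, -, h1, -, -⟩ := piv_split h P
  exact (Cn_iff_walk (S := Aᶜ) hA.1).2 ⟨P1, fun z hz => hP z (pivA_supp P1 P h1 z hz)⟩

theorem piv_dist {ω : Cfg d} {v x : V d} {b : V d × Dir d} (h : Piv ω v x b) :
    (G ω).dist v b.1 < (G ω).dist v x := by
  have hr : (G ω).Reachable v x := piv_mem h
  obtain ⟨P, hP⟩ := hr.exists_walk_length_eq_dist
  obtain ⟨P1, P2, -, -, -, -, hL⟩ := piv_split h P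
  have h1 := SimpleGraph.dist_le P1
  omega

theorem piv_trans {ω : Cfg d} {v x : V d} {b b' : V d × Dir d} (h' : Piv ω v x b')
    (h : Piv ω v b'.1 b) : Piv ω v x b := by
  obtain ⟨P', hP'⟩ := pivA_reach.1 h'.2.1
  obtain ⟨P1, P2, hE1, hE2, -, -, -⟩ := piv_split h P'
  have c1 : b.1 ∈ cluster (del (edge b'.1 b'.2) ω) v :=
    pivA_reach.2 ⟨P1, fun h3 => hP' (hE1 _ h3)⟩
  have c2 : b.1 + step b.2 ∈ cluster (del (edge b'.1 b'.2) ω) v :=
    pivA_tr h'.2.1 (pivA_sy (pivA_reach.2 ⟨P2, fun h3 => hP' (hE2 _ h3)⟩))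
  have hne : s(b'.1, b'.1 + step b'.2) ≠ s(b.1, b.1 + step b.2) := by
    intro h3
    rw [Sym2.eq_iff] at h3
    rcases h3 with ⟨-, h3⟩ | ⟨h3, h4⟩
    · apply h'.2.2.1
      rw [h3]
      exact c2
    · apply h'.2.2.1
      rw [h4]
      exact c1
  refine ⟨h.1, h.2.1, h.2.2.1, ?_⟩
  have a1 : b'.1 + step b'.2 ∈ cluster (del (edge b.1 b.2) ω) b'.1 :=
    SimpleGraph.Adj.reachable (del_adj.2 ⟨pivA_adj h'.1, hne⟩)
  obtain ⟨Q, hQ⟩ := pivA_reach.1 h'.2.2.2
  have a2 : x ∈ cluster (del (edge b.1 b.2) ω) (b'.1 + step b'.2) := by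
    refine pivA_reach.2 ⟨Q, fun h3 => ?_⟩
    obtain ⟨z, z', R1, R2, hz, hE, hn⟩ := pivA_first Q h3
    have h4 : z ∈ cluster (del (edge b'.1 b'.2) ω) (b'.1 + step b'.2) := by
      refine pivA_reach.2 ⟨R1, fun h5 => hQ ?_⟩
      rw [hE, List.mem_append]
      exact Or.inl h5
    have h5 : z ∈ cluster (del (edge b'.1 b'.2) ω) v := by
      rw [Sym2.eq_iff] at hz
      rcases hz with ⟨hz, -⟩ | ⟨hz, -⟩
      · rw [hz]
        exact c1
      · rw [hz]
        exact c2
    exact h'.2.2.1 (pivA_tr h5 (pivA_sy h4))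
  exact pivA_tr h.2.2.2 (pivA_tr a1 a2)

theorem piv_total {ω : Cfg d} {v x : V d} {b b' : V d × Dir d} (h : Piv ω v x b)
    (h' : Piv ω v x b') : b = b' ∨ Piv ω v b'.1 b ∨ Piv ω v b.1 b' := by
  by_cases hne : s(b'.1, b'.1 + step b'.2) = s(b.1, b.1 + step b.2)
  · left
    obtain ⟨h1, h2⟩ := pivA_dir h hne (by
      rw [← pivA_edge_iff.2 hne]
      exact h'.2.1)
    rw [h1] at h2
    exact (Prod.ext h1 (pivA_step_inj (add_left_cancel h2))).symm
  · right
    have hr : (G ω).Reachable v x := piv_mem h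
    obtain ⟨P, hP⟩ := hr.exists_isPath
    have hnd : P.edges.Nodup := hP.isTrail.edges_nodup
    obtain ⟨z, z', R1, R2, hz, hE, hn⟩ := pivA_first P (pivA_mem_edges h' P)
    obtain ⟨rfl, rfl⟩ := pivA_dir h' hz (pivA_reach.2 ⟨R1, hn⟩)
    have hm := pivA_mem_edges h P
    rw [hE] at hnd
    have hm' := hm
    rw [hE, List.mem_append, List.mem_cons] at hm
    rw [List.nodup_append, List.nodup_cons] at hnd
    obtain ⟨n1, ⟨n2, n3⟩, n4⟩ := hnd
    rcases hm with hm | hm | hm
    · left
      obtain ⟨y, y', S1, S2, hy, hF, hq⟩ := pivA_first R1 hm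
      obtain ⟨rfl, rfl⟩ := pivA_dir h hy (pivA_reach.2 ⟨S1, hq⟩)
      refine ⟨h.1, h.2.1, h.2.2.1, pivA_reach.2 ⟨S2, fun h3 => ?_⟩⟩
      rw [hF, List.nodup_append, List.nodup_cons] at n1
      exact n1.2.1.1 h3
    · exact absurd hm.symm hne
    · right
      obtain ⟨y, y', S1, S2, hy, hF, hq⟩ := pivA_first R2 hm
      have hc : y ∈ cluster (del (edge b.1 b.2) ω) v := by
        refine pivA_tr (pivA_reach.2 ⟨R1, fun h3 => ?_⟩) (pivA_tr (SimpleGraph.Adj.reachable
          (del_adj.2 ⟨pivA_adj h'.1, hne⟩)) (pivA_reach.2 ⟨S1, hq⟩))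
        exact n4 _ h3 _ (List.mem_cons_of_mem _ hm) rfl
      obtain ⟨rfl, rfl⟩ := pivA_dir h hy hc
      refine ⟨h'.1, h'.2.1, h'.2.2.1, pivA_reach.2 ⟨S1, fun h3 => n2 ?_⟩⟩
      rw [hF, List.mem_append]
      exact Or.inl h3

end H95LE
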