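import Pool.Agent.H95.LE.DetB
import Pool.Agent.H95.LE.PrDef
import Pool.Agent.H95.LE.MeasE

/-!
PROJECT LE, JOB LE-PrA. Probabilities of `EE` and of `EE` with a leg (BK).
PROOF. `ee_dec`/`ee_leg`, `md_of_wd`, union bound over `z ∈ A` (finite), `t`, `a` (countable: `measure_iUnion_le`), `md_prob`, and
`List.prod` of the `tau`. `A` is a `Finset`; write the event as a subset of the union.
-/

namespace H95LE

open H5DF H95LBD MeasureTheory

variable {d : ℕ}

theorem xi0_le (p : ℝ) (h0 : 0 ≤ p) (h1 : p ≤ 1) (A : Finset (V d)) (v x : V d) :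
    perc d p {ω | EE (A : Set (V d)) ω v x} ≤ ∑ z ∈ A, ∑' t, tau d p (t - v) *
      (tau d p (z - t) * (tau d p (x - z) * tau d p (x - t))) := by
  have hsub : {ω : Cfg d | EE (A : Set (V d)) ω v x} ⊆
      ⋃ z ∈ A, ⋃ t, MD [(v, t), (t, z), (z, x), (t, x)] := by
    intro ω hω
    obtain ⟨z, hz, t, hW⟩ := ee_dec hω
    exact Set.mem_iUnion₂.2 ⟨z, hz, Set.mem_iUnion.2 ⟨t, md_of_wd hW⟩⟩
  refine (measure_mono hsub).trans ((measure_biUnion_finset_le A _).trans ?_)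
  refine Finset.sum_le_sum fun z _ => (measure_iUnion_le _).trans ?_
  refine ENNReal.tsum_le_tsum fun t => (md_prob p h0 h1 _).trans (le_of_eq ?_)
  simp only [List.map_cons, List.map_nil, List.prod_cons, List.prod_nil, mul_one]

/-- The bound for six edge-disjoint connections. -/
lemma PrA_six (p : ℝ) (h0 : 0 ≤ p) (h1 : p ≤ 1) (u1 w1 u2 w2 u3 w3 u4 w4 u5 w5 u6 w6 : V d) :
    perc d p (MD [(u1, w1), (u2, w2), (u3, w3), (u4, w4), (u5, w5), (u6, w6)]) ≤
      tau d p (w1 - u1) * (tau d p (w2 - u2) * (tau d p (w3 - u3) * (tau d p (w4 - u4) *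
        (tau d p (w5 - u5) * tau d p (w6 - u6))))) := by
  refine (md_prob p h0 h1 _).trans (le_of_eq ?_)
  simp only [List.map_cons, List.map_nil, List.prod_cons, List.prod_nil, mul_one]

theorem leg_le (p : ℝ) (h0 : 0 ≤ p) (h1 : p ≤ 1) (A : Finset (V d)) (v u y : V d) :
    perc d p {ω | EE (A : Set (V d)) ω v u ∧ y ∈ cluster ω v} ≤
      ∑ z ∈ A, L4 (tau d p) v z u y := by
  have hsub : {ω : Cfg d | EE (A : Set (V d)) ω v u ∧ y ∈ cluster ω v} ⊆
      ⋃ z ∈ A, (((⋃ t, ⋃ a, MD [(v, a), (a, t), (a, y), (t, z), (z, u), (t, u)]) ∪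
        (⋃ t, ⋃ a, MD [(v, t), (t, a), (a, z), (a, y), (z, u), (t, u)])) ∪
        (⋃ t, ⋃ a, MD [(v, t), (t, z), (z, a), (a, u), (a, y), (t, u)])) ∪
        (⋃ t, ⋃ a, MD [(v, t), (t, z), (z, u), (t, a), (a, u), (a, y)]) := by
    rintro ω ⟨hE, hy⟩
    obtain ⟨z, hz, t, a, h⟩ := ee_leg hE hy
    refine Set.mem_iUnion₂.2 ⟨z, hz, ?_⟩
    rcases h with h | h | h | h
    · exact Or.inl (Or.inl (Or.inl (Set.mem_iUnion₂.2 ⟨t, a, md_of_wd h⟩)))
    · exact Or.inl (Or.inl (Or.inr (Set.mem_iUnion₂.2 ⟨t, a, md_of_wd h⟩)))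
    · exact Or.inl (Or.inr (Set.mem_iUnion₂.2 ⟨t, a, md_of_wd h⟩))
    · exact Or.inr (Set.mem_iUnion₂.2 ⟨t, a, md_of_wd h⟩)
  have key : ∀ (M : V d → V d → Set (Cfg d)) (f : V d → V d → ENNReal),
      (∀ t a, perc d p (M t a) ≤ f t a) →
        perc d p (⋃ t, ⋃ a, M t a) ≤ ∑' t, ∑' a, f t a := by
    intro M f hf
    refine (measure_iUnion_le _).trans (ENNReal.tsum_le_tsum fun t => ?_)
    exact (measure_iUnion_le _).trans (ENNReal.tsum_le_tsum fun a => hf t a)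
  refine (measure_mono hsub).trans ((measure_biUnion_finset_le A _).trans ?_)
  refine Finset.sum_le_sum fun z _ => ?_
  unfold L4
  refine (measure_union_le _ _).trans (add_le_add ?_ ?_)
  · refine (measure_union_le _ _).trans (add_le_add ?_ ?_)
    · refine (measure_union_le _ _).trans (add_le_add ?_ ?_)
      · exact key _ _ fun t a => PrA_six p h0 h1 _ _ _ _ _ _ _ _ _ _ _ _
      · exact key _ _ fun t a => PrA_six p h0 h1 _ _ _ _ _ _ _ _ _ _ _ _
    · exact key _ _ fun t a => PrA_six p h0 h1 _ _ _ _ _ _ _ _ _ _ _ _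
  · exact key _ _ fun t a => PrA_six p h0 h1 _ _ _ _ _ _ _ _ _ _ _ _

theorem two_le (p : ℝ) (h0 : 0 ≤ p) (h1 : p ≤ 1) (v x : V d) :
    perc d p {ω | EE {v} ω v x} ≤ tau d p (x - v) ^ 2 := by
  have hsub : {ω : Cfg d | EE {v} ω v x} ⊆ MD [(v, x), (v, x)] :=
    fun ω hω => md_of_wd (ee_two hω)
  refine (measure_mono hsub).trans ((md_prob p h0 h1 _).trans (le_of_eq ?_))
  simp only [List.map_cons, List.map_nil, List.prod_cons, List.prod_nil, mul_one, pow_two]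

end H95LE
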