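import Pool.Agent.H95.LE.EndU
import Pool.Agent.H31.LE.Crit
import Pool.Agent.H5.CF.Ind

/-!
PROJECT LE (MP_0d9ad5_pr). The unconditional upper half in all high dimensions.
-/

namespace H95LE

open H5DF H95LBD MeasureTheory SH
open scoped ENNReal

theorem upper_half : ∃ d0 : ℕ, 2 ≤ d0 ∧ ∀ d : ℕ, d0 ≤ d →
    0 < pcc d ∧ pcc d < 1 ∧ (∀ p : ℝ, 0 ≤ p → p < pcc d → theta d p = 0) ∧
    (∀ p : ℝ, pcc d < p → p ≤ 1 → 0 < theta d p) ∧
    ∃ C δ : ℝ, 0 < C ∧ 0 < δ ∧ ∀ ε : ℝ, 0 < ε → ε < δ → ∀ D : NNReal,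
      HasDiffusivity d (pcc d + ε) D → (D : ℝ) ≤ C * ε ^ 2 := by
  obtain ⟨K0, -, h⟩ := H31LE.crit_w2
  obtain ⟨d1, h1⟩ := h (1 / 10000) (by norm_num)
  refine ⟨max 2 d1, le_max_left _ _, fun d hd => ?_⟩
  have hd2 : 2 ≤ d := (le_max_left _ _).trans hd
  have hd1 : d1 ≤ d := (le_max_right _ _).trans hd
  obtain ⟨h3, h4, h5, -, h6⟩ := upper_of_crit hd2 fun p hp0 hp1 =>
    ⟨(h1 d hd1 p hp0 hp1).2.1, (h1 d hd1 p hp0 hp1).2.2.1, (h1 d hd1 p hp0 hp1).2.2.2.1⟩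
  refine ⟨h3, h4, h5, fun p hp hp1 => ?_, h6⟩
  rcases hp1.lt_or_eq with hp1 | rfl
  · exact theta_pos (by omega) hp hp1
  · have h7 : 0 < theta d ((pcc d + 1) / 2) := theta_pos (by omega) (by linarith) (by linarith)
    refine h7.trans_le ?_
    have hinc : Inc {ω : Cfg d | (cluster ω 0).Infinite} := by
      intro ω ω' h hω
      exact Set.Infinite.mono (fun y hy => Cn_univ.1 ((Cn_univ.2 hy).mono (fun _ h => h) h)) hω
    exact perc_mono (by linarith) (by linarith) le_rfl hinc (meas_inf 0)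

end H95LE
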